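import Pool.Agent.H.MP_f7abb8_nt.NoForest

set_option autoImplicit false

namespace Pool.MP_f7abb8_nt.NU

def sg (n : ℕ) : ℕ := ∑ d ∈ n.divisors, d

def us (n : ℕ) : ℕ := ∑ d ∈ n.divisors.filter (fun d => Nat.gcd d (n / d) = 1), d

def ns (n : ℕ) : ℕ := ∑ d ∈ n.divisors.filter (fun d => 1 < Nat.gcd d (n / d)), d

theorem sg_eq (n : ℕ) (_hn : n ≠ 0) : sg n = us n + ns n := by
  unfold sg us ns
  rw [← Finset.sum_filter_add_sum_filter_not n.divisors (fun d => Nat.gcd d (n / d) = 1)]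
  congr 1
  apply Finset.sum_congr _ (fun _ _ => rfl)
  apply Finset.filter_congr
  intro d hd
  have h1 : 0 < d := Nat.pos_of_mem_divisors hd
  have h2 : 0 < Nat.gcd d (n / d) := Nat.gcd_pos_of_pos_left _ h1
  omega

theorem sg_mul {a b : ℕ} (h : a.Coprime b) : sg (a * b) = sg a * sg b := h.sum_divisors_mul

theorem us_mul {a b : ℕ} (h : a.Coprime b) : us (a * b) = us a * us b := by
  unfold us
  have ed : (a * b).divisors = (a.divisors ×ˢ b.divisors).image (fun p : ℕ × ℕ => p.1 * p.2) := by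
    rw [Nat.divisors_mul]; rfl
  rw [Finset.sum_filter, Finset.sum_filter, Finset.sum_filter, ed,
    Finset.sum_image h.mul_injOn_divisors, Finset.sum_product, Finset.sum_mul_sum]
  apply Finset.sum_congr rfl
  intro x hx
  apply Finset.sum_congr rfl
  intro y hy
  have hx1 := Nat.dvd_of_mem_divisors hx
  have hy1 := Nat.dvd_of_mem_divisors hy
  have hx0 : 0 < x := Nat.pos_of_mem_divisors hx
  have hy0 : 0 < y := Nat.pos_of_mem_divisors hy
  have e : a * b / (x * y) = (a / x) * (b / y) := Nat.mul_div_mul_comm hx1 hy1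
  have c1 : Nat.Coprime x (b / y) :=
    Nat.Coprime.coprime_dvd_left hx1 (Nat.Coprime.coprime_dvd_right (Nat.div_dvd_of_dvd hy1) h)
  have c2 : Nat.Coprime y (a / x) :=
    Nat.Coprime.coprime_dvd_left hy1
      (Nat.Coprime.coprime_dvd_right (Nat.div_dvd_of_dvd hx1) h.symm)
  have key : Nat.gcd (x * y) (a / x * (b / y)) = 1 ↔
      Nat.gcd x (a / x) = 1 ∧ Nat.gcd y (b / y) = 1 := by
    change Nat.Coprime (x * y) (a / x * (b / y)) ↔ Nat.Coprime x (a / x) ∧ Nat.Coprime y (b / y)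
    rw [Nat.coprime_mul_iff_left, Nat.coprime_mul_iff_right, Nat.coprime_mul_iff_right]
    tauto
  dsimp only
  rw [e]
  by_cases h1 : Nat.gcd x (a / x) = 1
  · by_cases h2 : Nat.gcd y (b / y) = 1
    · rw [if_pos (key.2 ⟨h1, h2⟩), if_pos h1, if_pos h2]
    · rw [if_neg (fun h => h2 (key.1 h).2), if_neg h2, mul_zero]
  · rw [if_neg (fun h => h1 (key.1 h).1), if_neg h1, zero_mul]

theorem us_sqfree {m : ℕ} (hm : Squarefree m) : us m = sg m := by
  unfold us sg
  rw [Finset.filter_true_of_mem]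
  intro d hd
  have h1 := Nat.dvd_of_mem_divisors hd
  have h2 : d * (m / d) = m := Nat.mul_div_cancel' h1
  rw [← h2] at hm
  exact Nat.coprime_of_squarefree_mul hm

theorem ns_mul {m M : ℕ} (h : m.Coprime M) (hm : Squarefree m) (hM : M ≠ 0) :
    ns (m * M) = sg m * ns M := by
  have h1 := sg_eq (m * M) (mul_ne_zero hm.ne_zero hM)
  rw [sg_mul h, us_mul h, us_sqfree hm, sg_eq M hM, mul_add] at h1
  omega

theorem sg_prime_pow {p k : ℕ} (hp : p.Prime) : sg (p ^ (k + 1)) = 1 + T p k + p ^ (k + 1) := by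
  unfold sg T
  rw [Nat.sum_divisors_prime_pow hp, Finset.sum_range_succ, Finset.sum_range_succ']
  simp only [pow_zero]
  ring

theorem us_prime_pow {p k : ℕ} (hp : p.Prime) : us (p ^ (k + 1)) = 1 + p ^ (k + 1) := by
  unfold us
  rw [Nat.divisors_prime_pow hp, Finset.sum_filter, Finset.sum_map, Finset.sum_range_succ,
    Finset.sum_range_succ']
  simp only [Function.Embedding.coeFn_mk]
  have hpos : 0 < p := hp.pos
  have e1 : ∀ i ∈ Finset.range k,
      (if Nat.gcd (p ^ (i + 1)) (p ^ (k + 1) / p ^ (i + 1)) = 1 then p ^ (i + 1) else 0) = 0 := by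
    intro i hi
    rw [Finset.mem_range] at hi
    rw [if_neg]
    intro h
    rw [Nat.pow_div (by omega) hpos] at h
    have : Nat.Coprime (p ^ (i + 1)) (p ^ (k + 1 - (i + 1))) := h
    rw [Nat.coprime_pow_left_iff (by omega), Nat.coprime_pow_right_iff (by omega)] at this
    rw [Nat.coprime_self] at this
    exact hp.one_lt.ne' this
  rw [Finset.sum_eq_zero e1]
  simp [Nat.div_self (pow_pos hpos (k + 1))]

theorem ns_prime_pow {p k : ℕ} (hp : p.Prime) : ns (p ^ (k + 1)) = T p k := by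
  have h1 := sg_eq (p ^ (k + 1)) (pow_ne_zero _ hp.ne_zero)
  rw [sg_prime_pow hp, us_prime_pow hp] at h1
  omega

theorem sg_sqfree {m : ℕ} (hm : Squarefree m) : sg m = ∏ p ∈ m.primeFactors, (p + 1) := by
  unfold sg
  rw [Nat.sum_divisors hm.ne_zero]
  apply Finset.prod_congr rfl
  intro p hp
  have h1 : m.factorization p = 1 := by
    have h2 := (Nat.squarefree_iff_factorization_le_one hm.ne_zero).1 hm p
    have h3 : 0 < m.factorization p :=
      (Nat.prime_of_mem_primeFactors hp).factorization_pos_of_dvd hm.ne_zero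
        (Nat.dvd_of_mem_primeFactors hp)
    omega
  rw [h1, Finset.sum_range_succ, Finset.sum_range_succ, Finset.sum_range_zero]
  ring

theorem sg_prime {p : ℕ} (hp : p.Prime) : sg p = p + 1 := by
  unfold sg
  rw [hp.sum_divisors]

theorem sg_ge {m : ℕ} (hm : m ≠ 0) : m ≤ sg m := by
  unfold sg
  exact Finset.single_le_sum (f := fun d => d) (fun _ _ => Nat.zero_le _)
    (Nat.mem_divisors_self m hm)

/-- squarefree odd numbers: `m = 1`, `m` prime or `4 ∣ σ(m)`. -/
theorem sg_cases {m : ℕ} (hm : Squarefree m) (ho : Odd m) : m = 1 ∨ m.Prime ∨ 4 ∣ sg m := by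
  by_cases h1 : m = 1
  · exact Or.inl h1
  right
  by_cases h2 : m.Prime
  · exact Or.inl h2
  right
  obtain ⟨p, hp, hpm⟩ := Nat.exists_prime_and_dvd h1
  obtain ⟨c, hc⟩ := hpm
  have hc1 : c ≠ 1 := by
    rintro rfl
    rw [hc, mul_one] at h2
    exact h2 hp
  obtain ⟨r, hr, hrc⟩ := Nat.exists_prime_and_dvd hc1
  obtain ⟨d, hd⟩ := hrc
  have hm' := hm
  rw [hc] at hm'
  have hcop1 : p.Coprime c := Nat.coprime_of_squarefree_mul hm'
  have hcsq : Squarefree c := hm'.of_mul_right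
  rw [hd] at hcsq
  have hcop2 : r.Coprime d := Nat.coprime_of_squarefree_mul hcsq
  have hpo : Odd p := by rw [hc] at ho; exact (Nat.odd_mul.1 ho).1
  have hro : Odd r := by
    rw [hc, hd] at ho; exact (Nat.odd_mul.1 (Nat.odd_mul.1 ho).2).1
  rw [hc, sg_mul hcop1, hd, sg_mul hcop2, sg_prime hp, sg_prime hr]
  have e1 : 2 ∣ p + 1 := (Nat.even_add_one.2 (Nat.not_even_iff_odd.2 hpo)).two_dvd
  have e2 : 2 ∣ r + 1 := (Nat.even_add_one.2 (Nat.not_even_iff_odd.2 hro)).two_dvd
  have e3 : 2 * 2 ∣ (p + 1) * ((r + 1) * sg d) :=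
    mul_dvd_mul e1 (Dvd.dvd.mul_right e2 _)
  exact e3

theorem sg_even {m : ℕ} (hm : Squarefree m) (ho : Odd m) (h1 : m ≠ 1) : 2 ∣ sg m := by
  rcases sg_cases hm ho with h | h | h
  · exact absurd h h1
  · rw [sg_prime h]
    exact (Nat.even_add_one.2 (Nat.not_even_iff_odd.2 ho)).two_dvd
  · exact Dvd.dvd.trans (by norm_num) h

end Pool.MP_f7abb8_nt.NU
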