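import Pool.Agent.H.MP_f7abb8_nt.NoForest

set_option autoImplicit false

namespace Pool.MP_f7abb8_nt.NU
namespace Fo

theorem PR_eq : ∀ f : Fo, PR f = (rl f).prod := by
  intro f
  induction f with
  | nil => rfl
  | node p al be ch rest ih1 ih2 => simp [PR, rl, ih2]

theorem split {q : ℕ} (D : ℕ → Prop) [DecidablePred D] : ∀ f : Fo, valid q f →
    ∃ f1 f2 : Fo, valid q f1 ∧ valid q f2 ∧ rl f1 = (rl f).filter D ∧
      rl f2 = (rl f).filter (fun x => ¬ D x) ∧ nl f1 + nl f2 = nl f ∧ A f1 + A f2 = A f ∧
      B f1 + B f2 = B f := by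
  intro f
  induction f with
  | nil => intro _; exact ⟨nil, nil, trivial, trivial, by simp [rl], by simp [rl], by simp [nl],
      by simp [A], by simp [B]⟩
  | node p al be ch rest ih1 ih2 =>
    intro hf
    obtain ⟨h1, h2, h3, h4, h5⟩ := hf
    obtain ⟨f1, f2, v1, v2, r1, r2, n1, a1, b1⟩ := ih2 h5
    by_cases hD : D p
    · refine ⟨node p al be ch f1, f2, ⟨h1, h2, h3, h4, v1⟩, v2, ?_, ?_, ?_, ?_, ?_⟩
      · simp only [rl, Multiset.filter_add, r1]
        rw [Multiset.filter_singleton, if_pos hD]
      · simp only [rl, Multiset.filter_add, r2]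
        rw [Multiset.filter_singleton, if_neg (not_not.2 hD)]
        simp
      · simp only [nl, ← n1, add_assoc]
      · simp only [A]; omega
      · simp only [B]; omega
    · refine ⟨f1, node p al be ch f2, v1, ⟨h1, h2, h3, h4, v2⟩, ?_, ?_, ?_, ?_, ?_⟩
      · simp only [rl, Multiset.filter_add, r1]
        rw [Multiset.filter_singleton, if_neg hD]
        simp
      · simp only [rl, Multiset.filter_add, r2]
        rw [Multiset.filter_singleton, if_pos hD]
      · simp only [nl, ← n1]
        abel
      · simp only [A]; omega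
      · simp only [B]; omega

theorem rl_ne {q : ℕ} (f : Fo) (hf : valid q f) (h : B f = 0) : rl f = 0 := by
  rw [eq_nil f hf h]; rfl

theorem build {q : ℕ} (al be : ℕ → ℕ) (ch : ℕ → Finset ℕ) (F : Finset ℕ) :
    (∀ p ∈ F, ch p ⊆ F ∧ (∀ x ∈ ch p, x < p) ∧ p + 1 = 2 ^ al p * q ^ be p * ∏ x ∈ ch p, x ∧
      1 ≤ al p ∧ (be p = 0 → (ch p).Nonempty)) →
    (∀ p ∈ F, ∀ p' ∈ F, p ≠ p' → Disjoint (ch p) (ch p')) →
    ∃ f : Fo, valid q f ∧ nl f = F.val ∧ rl f = (F.filter (fun x => ∀ p ∈ F, x ∉ ch p)).val ∧
      A f = ∑ p ∈ F, al p ∧ B f = ∑ p ∈ F, be p := by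
  classical
  induction F using Finset.induction_on_max with
  | empty => intro _ _; exact ⟨nil, trivial, by simp [nl], by simp [rl], by simp [A], by simp [B]⟩
  | insert p G hlt ih =>
    intro h hdisj
    have hpG : p ∉ G := fun hp => lt_irrefl _ (hlt p hp)
    obtain ⟨p1, p2, p3, p4, p5⟩ := h p (Finset.mem_insert_self p G)
    have hchp : ch p ⊆ G := by
      intro x hx
      rcases Finset.mem_insert.1 (p1 hx) with h | h
      · exfalso; have := p2 x hx; omega
      · exact h
    obtain ⟨f, v, hn, hr, hA, hB⟩ := ih (by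
      intro y hy
      obtain ⟨y1, y2, y3, y4, y5⟩ := h y (Finset.mem_insert_of_mem hy)
      refine ⟨?_, y2, y3, y4, y5⟩
      intro x hx
      rcases Finset.mem_insert.1 (y1 hx) with h | h
      · exfalso
        have := y2 x hx
        have := hlt y hy
        omega
      · exact h) (by
      intro y hy z hz hyz
      exact hdisj y (Finset.mem_insert_of_mem hy) z (Finset.mem_insert_of_mem hz) hyz)
    obtain ⟨f1, f2, v1, v2, r1, r2, n1, a1, b1⟩ := split (fun x => x ∈ ch p) f v
    have hrl1 : rl f1 = (ch p).val := by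
      rw [r1, hr, ← Finset.filter_val]
      congr 1
      ext x
      simp only [Finset.mem_filter]
      constructor
      · rintro ⟨_, h2⟩; exact h2
      · intro hx
        refine ⟨⟨hchp hx, fun y hy hxy => ?_⟩, hx⟩
        have hne : p ≠ y := by rintro rfl; exact hpG hy
        have := hdisj p (Finset.mem_insert_self p G) y (Finset.mem_insert_of_mem hy) hne
        exact (Finset.disjoint_left.1 this hx) hxy
    refine ⟨node p (al p) (be p) f1 f2, ⟨?_, p4, ?_, v1, v2⟩, ?_, ?_, ?_, ?_⟩
    · rw [p3, PR_eq, hrl1, Finset.prod_val]; simp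
    · by_contra hcon
      have hb : be p = 0 := by omega
      have hB1 : B f1 = 0 := by omega
      have := rl_ne f1 v1 hB1
      rw [hrl1] at this
      obtain ⟨x, hx⟩ := p5 hb
      have hx' : x ∈ (ch p).val := hx
      rw [this] at hx'
      simp at hx'
    · simp only [nl]
      rw [add_assoc, n1, hn, Finset.insert_val_of_notMem hpG]
      rfl
    · simp only [rl]
      rw [r2, hr, ← Finset.filter_val]
      have e : (insert p G).filter (fun x => ∀ y ∈ insert p G, x ∉ ch y)
          = insert p ((G.filter (fun x => ∀ y ∈ G, x ∉ ch y)).filter (fun x => ¬ x ∈ ch p)) := by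
        ext x
        simp only [Finset.mem_filter, Finset.mem_insert]
        constructor
        · rintro ⟨h1, h2⟩
          rcases h1 with h1 | h1
          · exact Or.inl h1
          · exact Or.inr ⟨⟨h1, fun y hy => h2 y (Or.inr hy)⟩, h2 p (Or.inl rfl)⟩
        · rintro (h1 | ⟨⟨h1, h2⟩, h3⟩)
          · refine ⟨Or.inl h1, fun y hy hxy => ?_⟩
            rw [h1] at hxy
            rcases hy with hy | hy
            · rw [hy] at hxy
              have := p2 p hxy; omega
            · have := (h y (Finset.mem_insert_of_mem hy)).2.1 p hxy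
              have := hlt y hy
              omega
          · refine ⟨Or.inr h1, fun y hy => ?_⟩
            rcases hy with rfl | hy
            · exact h3
            · exact h2 y hy
      rw [e, Finset.insert_val_of_notMem]
      · rfl
      · intro hmem
        rw [Finset.mem_filter, Finset.mem_filter] at hmem
        exact hpG hmem.1.1
    · simp only [A]
      rw [Finset.sum_insert hpG, ← hA, add_assoc, a1]
    · simp only [B]
      rw [Finset.sum_insert hpG, ← hB, add_assoc, b1]

end Fo
end Pool.MP_f7abb8_nt.NU
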