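import Mathlib

set_option autoImplicit false

namespace Pool.MP_f7abb8_nt.NU

/-- Labelled plane forests in first-child / next-sibling form. A node carries a prime `p`
and the exponents `al`, `be` of `2` and of `q` in `p + 1`. -/
inductive Fo : Type
  | nil : Fo
  | node (p al be : ℕ) (ch rest : Fo) : Fo

namespace Fo

/-- Product of the labels of the roots. -/
def PR : Fo → ℕ
  | nil => 1
  | node p _ _ _ rest => p * PR rest

/-- Sum of all `al`. -/
def A : Fo → ℕ
  | nil => 0
  | node _ al _ ch rest => al + A ch + A rest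

/-- Sum of all `be`. -/
def B : Fo → ℕ
  | nil => 0
  | node _ _ be ch rest => be + B ch + B rest

/-- The small residue of the root product modulo `q`. -/
def C : Fo → ℤ
  | nil => 1
  | node _ al be ch rest => (if be = 0 then 2 ^ al * C ch - 1 else -1) * C rest

/-- Number of leaves with `be = 1`. -/
def r : Fo → ℕ
  | nil => 0
  | node _ _ be ch rest => (if be = 1 ∧ B ch = 0 then 1 else 0) + r ch + r rest

def L : Fo → ℚ
  | nil => 0
  | node _ al be ch rest => (if be + B ch = 1 then (1 / 2 : ℚ) ^ (al + A ch) else 0) + L ch + L rest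

def Ka : Fo → ℚ
  | nil => 0
  | node _ al be ch rest =>
    (if be + B ch = 2 ∧ r ch = 0 ∧ ¬ (be = 1 ∧ B ch = 0) then (1 / 2 : ℚ) ^ (al + A ch) else 0)
      + Ka ch + Ka rest

def Kb : Fo → ℚ
  | nil => 0
  | node _ al be ch rest =>
    (if be + B ch = 2 ∧ 1 ≤ r ch then (1 / 2 : ℚ) ^ (al + A ch) else 0)
      + Kb ch + Kb rest

def N3 : Fo → ℚ
  | nil => 0
  | node _ _ be ch rest => (if 3 ≤ be + B ch then 1 else 0) + N3 ch + N3 rest

/-- The `al`'s of the leaves with `be = 2`. -/
def l2 : Fo → Multiset ℕ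
  | nil => 0
  | node _ al be ch rest => (if be = 2 ∧ B ch = 0 then {al} else 0) + l2 ch + l2 rest

def s2 : Fo → ℚ
  | nil => 0
  | node _ al be ch rest => (if be = 2 ∧ B ch = 0 then 2 * (1 / 2 : ℚ) ^ al else 0) + s2 ch + s2 rest

def Y (q : ℚ) : Fo → ℚ
  | nil => 0
  | node _ al be ch rest => (1 / 2 : ℚ) ^ (al + A ch) * (1 / q) ^ (be + B ch) + Y q ch + Y q rest

/-- All labels. -/
def nl : Fo → Multiset ℕ
  | nil => 0
  | node p _ _ ch rest => {p} + nl ch + nl rest

/-- Root labels. -/
def rl : Fo → Multiset ℕ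
  | nil => 0
  | node p _ _ _ rest => {p} + rl rest

/-- All `al` are odd. -/
def oddal : Fo → Prop
  | nil => True
  | node _ al _ ch rest => Odd al ∧ oddal ch ∧ oddal rest

def valid (q : ℕ) : Fo → Prop
  | nil => True
  | node p al be ch rest =>
    p + 1 = 2 ^ al * q ^ be * PR ch ∧ 1 ≤ al ∧ 0 < be + B ch ∧ valid q ch ∧ valid q rest

theorem eq_nil {q : ℕ} : ∀ f : Fo, valid q f → B f = 0 → f = nil := by
  intro f hf hB
  cases f with
  | nil => rfl
  | node p al be ch rest =>
    obtain ⟨_, _, h3, _, _⟩ := hf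
    simp only [B] at hB
    omega

theorem A_pos {q : ℕ} (f : Fo) (hf : valid q f) (hB : 0 < B f) : 0 < A f := by
  cases f with
  | nil => simp [B] at hB
  | node p al be ch rest =>
    obtain ⟨_, h2, h3, _, _⟩ := hf
    simp only [A]
    omega

theorem L_nonneg : ∀ f : Fo, 0 ≤ L f := by
  intro f
  induction f with
  | nil => simp [L]
  | node p al be ch rest ih1 ih2 =>
    simp only [L]
    split_ifs <;> positivity

theorem Ka_nonneg : ∀ f : Fo, 0 ≤ Ka f := by
  intro f
  induction f with
  | nil => simp [Ka]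
  | node p al be ch rest ih1 ih2 =>
    simp only [Ka]
    split_ifs <;> positivity

theorem Kb_nonneg : ∀ f : Fo, 0 ≤ Kb f := by
  intro f
  induction f with
  | nil => simp [Kb]
  | node p al be ch rest ih1 ih2 =>
    simp only [Kb]
    split_ifs <;> positivity

theorem s2_nonneg : ∀ f : Fo, 0 ≤ s2 f := by
  intro f
  induction f with
  | nil => simp [s2]
  | node p al be ch rest ih1 ih2 =>
    simp only [s2]
    split_ifs <;> positivity

theorem N3_nonneg : ∀ f : Fo, 0 ≤ N3 f := by
  intro f
  induction f with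
  | nil => simp [N3]
  | node p al be ch rest ih1 ih2 =>
    simp only [N3]
    split_ifs <;> positivity

theorem C_odd {q : ℕ} : ∀ f : Fo, valid q f → Odd (C f) := by
  intro f
  induction f with
  | nil => intro _; simp [C]
  | node p al be ch rest ih1 ih2 =>
    intro hf
    obtain ⟨_, h2, h3, h4, h5⟩ := hf
    simp only [C]
    refine Odd.mul ?_ (ih2 h5)
    split_ifs with h
    · have : Even ((2 : ℤ) ^ al * C ch) := by
        refine Even.mul_right ?_ _
        exact (Int.even_pow).2 ⟨by decide, by omega⟩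
      exact Even.sub_odd this odd_one
    · decide

theorem C_ne {q : ℕ} (f : Fo) (hf : valid q f) : 1 ≤ |C f| := by
  have := C_odd f hf
  rcases this with ⟨k, hk⟩
  have : C f ≠ 0 := by omega
  exact Int.one_le_abs this

/-- `|c| ≤ 2^A`, with the improved versions for nonempty forests. -/
theorem C_bd {q : ℕ} : ∀ f : Fo, valid q f →
    |C f| ≤ 2 ^ A f ∧ (0 < B f → |C f| + 1 ≤ 2 ^ A f ∧ C f + 2 ≤ 2 ^ A f) := by
  intro f
  induction f with
  | nil => intro _; simp [C, A, B]
  | node p al be ch rest ih1 ih2 =>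
    intro hf
    obtain ⟨_, h2, h3, h4, h5⟩ := hf
    have i1 := ih1 h4
    have i2 := ih2 h5
    -- the tree part
    set c : ℤ := (if be = 0 then 2 ^ al * C ch - 1 else -1) with hc
    have hP : (2 : ℤ) ≤ 2 ^ al := by
      calc (2 : ℤ) = 2 ^ 1 := by norm_num
        _ ≤ 2 ^ al := pow_le_pow_right₀ (by norm_num) h2
    have tree : |c| + 1 ≤ 2 ^ (al + A ch) ∧ c + 2 ≤ 2 ^ (al + A ch) := by
      rw [hc, pow_add]
      generalize (2 : ℤ) ^ al = P at hP
      split_ifs with h
      · have hB : 0 < B ch := by omega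
        obtain ⟨j1, j2⟩ := i1.2 hB
        constructor
        · have h3 : |P * C ch - 1| ≤ P * |C ch| + 1 := by
            calc |P * C ch - 1| ≤ |P * C ch| + |1| := abs_sub _ _
              _ = P * |C ch| + 1 := by
                rw [abs_mul, abs_of_pos (by linarith : (0 : ℤ) < P)]; simp
          generalize (2 : ℤ) ^ A ch = E at *
          nlinarith
        · generalize (2 : ℤ) ^ A ch = E at *
          nlinarith
      · have h4 : (1 : ℤ) ≤ 2 ^ A ch := one_le_pow₀ (by norm_num)
        generalize (2 : ℤ) ^ A ch = E at *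
        constructor
        · simp; nlinarith
        · nlinarith
    obtain ⟨t1, t2⟩ := tree
    have hT : (0 : ℤ) < 2 ^ (al + A ch) := by positivity
    have hRE : (0 : ℤ) < 2 ^ A rest := by positivity
    have e : (2 : ℤ) ^ A (node p al be ch rest) = 2 ^ (al + A ch) * 2 ^ A rest := by
      simp only [A]; rw [pow_add]
    have ec : C (node p al be ch rest) = c * C rest := by simp only [C]; rw [hc]
    rw [e, ec, abs_mul]
    have hc0 := abs_nonneg c
    have hr0 := abs_nonneg (C rest)
    have hcle : |c| ≤ 2 ^ (al + A ch) := by linarith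
    refine ⟨mul_le_mul hcle i2.1 hr0 hT.le, fun _ => ?_⟩
    by_cases hB : B rest = 0
    · have := eq_nil rest h5 hB
      subst this
      simp only [C, A]
      simp
      exact ⟨t1, t2⟩
    · obtain ⟨j1, j2⟩ := i2.2 (by omega)
      have hT2 : (2 : ℤ) ≤ 2 ^ (al + A ch) := by
        calc (2 : ℤ) = 2 ^ 1 := by norm_num
          _ ≤ 2 ^ (al + A ch) := pow_le_pow_right₀ (by norm_num) (by omega)
      have hR2 : (2 : ℤ) ≤ 2 ^ A rest := by
        calc (2 : ℤ) = 2 ^ 1 := by norm_num
          _ ≤ 2 ^ A rest := pow_le_pow_right₀ (by norm_num) (A_pos rest h5 (by omega))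
      have key : |c| * |C rest| + 3 ≤ 2 ^ (al + A ch) * 2 ^ A rest := by
        have : |c| * |C rest| ≤ (2 ^ (al + A ch) - 1) * (2 ^ A rest - 1) :=
          mul_le_mul (by linarith) (by linarith) hr0 (by linarith)
        nlinarith
      refine ⟨by linarith, ?_⟩
      have : c * C rest ≤ |c| * |C rest| := by rw [← abs_mul]; exact le_abs_self _
      linarith

theorem C_mod {q : ℕ} : ∀ f : Fo, valid q f → (q : ℤ) ∣ (PR f : ℤ) - C f := by
  intro f
  induction f with
  | nil => intro _; simp [C, PR]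
  | node p al be ch rest ih1 ih2 =>
    intro hf
    obtain ⟨h1, h2, h3, h4, h5⟩ := hf
    obtain ⟨x, hx⟩ := ih1 h4
    obtain ⟨y, hy⟩ := ih2 h5
    have hp : (p : ℤ) = 2 ^ al * q ^ be * PR ch - 1 := by
      have : ((p + 1 : ℕ) : ℤ) = ((2 ^ al * q ^ be * PR ch : ℕ) : ℤ) := by rw [h1]
      push_cast at this
      linarith
    have key : (q : ℤ) ∣ (p : ℤ) - (if be = 0 then 2 ^ al * C ch - 1 else -1) := by
      rw [hp]
      split_ifs with h
      · subst h
        refine ⟨2 ^ al * x, ?_⟩
        have : (PR ch : ℤ) = C ch + q * x := by linarith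
        rw [this]; ring
      · obtain ⟨j, hj⟩ : ∃ j, be = j + 1 := ⟨be - 1, by omega⟩
        refine ⟨2 ^ al * q ^ j * PR ch, ?_⟩
        rw [hj]; ring
    obtain ⟨z, hz⟩ := key
    simp only [C, PR]
    push_cast
    refine ⟨z * PR rest + (if be = 0 then 2 ^ al * C ch - 1 else -1) * y, ?_⟩
    have e1 : (p : ℤ) = (if be = 0 then 2 ^ al * C ch - 1 else -1) + q * z := by linarith
    have e2 : (PR rest : ℤ) = C rest + q * y := by linarith
    rw [e1, e2]
    ring

end Fo
end Pool.MP_f7abb8_nt.NU
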