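import Pool.Agent.H.MP_f7abb8_nt.Forest

set_option autoImplicit false

namespace Pool.MP_f7abb8_nt.NU
namespace Fo

theorem half_pow_mul (k : ℕ) : (2 : ℚ) ^ k * (1 / 2) ^ k = 1 := by
  rw [← mul_pow]; norm_num

theorem absQ (c : ℤ) : ((|c| : ℤ) : ℚ) = |(c : ℚ)| := by push_cast; rfl

theorem L_zero {q : ℕ} : ∀ f : Fo, valid q f → B f = 0 → L f = 0 := by
  intro f hf hB
  rw [eq_nil f hf hB]; rfl

theorem r_zero_of_B {q : ℕ} : ∀ f : Fo, valid q f → B f = 0 → r f = 0 := by
  intro f hf hB
  rw [eq_nil f hf hB]; rfl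

/-- Claims for forests with `B = 1`. -/
theorem B_one {q : ℕ} : ∀ f : Fo, valid q f → B f = 1 →
    C f < 0 ∧ (-(C f) : ℚ) = 2 ^ A f * L f ∧ r f = 1 ∧ (PR f : ℤ) = 2 ^ A f * q + C f := by
  intro f
  induction f with
  | nil => intro _ h; simp [B] at h
  | node p al be ch rest ih1 ih2 =>
    intro hf hB
    obtain ⟨h1, h2, h3, h4, h5⟩ := hf
    simp only [B] at hB
    have hr : rest = nil := eq_nil rest h5 (by omega)
    have hbb : be + B ch = 1 := by omega
    have hp : (p : ℤ) = 2 ^ al * q ^ be * PR ch - 1 := by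
      have : ((p + 1 : ℕ) : ℤ) = ((2 ^ al * q ^ be * PR ch : ℕ) : ℤ) := by rw [h1]
      push_cast at this
      linarith
    subst hr
    simp only [C, L, A, PR, r, hbb, if_true]
    by_cases hbe : be = 0
    · subst hbe
      obtain ⟨i1, i2, i3, i4⟩ := ih1 h4 (by omega)
      simp only [if_true]
      have hE : (0 : ℤ) < 2 ^ al := by positivity
      refine ⟨?_, ?_, ?_, ?_⟩
      · nlinarith
      · push_cast
        have e : (2 : ℚ) ^ (al + A ch + 0) * ((1 / 2) ^ (al + A ch) + L ch + 0)
            = 2 ^ (al + A ch) * (1 / 2) ^ (al + A ch) + 2 ^ al * (2 ^ A ch * L ch) := by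
          rw [add_zero, add_zero, pow_add]; ring
        rw [e, half_pow_mul, ← i2]; ring
      · simp [i3]
      · push_cast
        rw [hp, i4, add_zero, pow_add]; ring
    · have hbe1 : be = 1 := by omega
      subst hbe1
      have hch : ch = nil := eq_nil ch h4 (by omega)
      subst hch
      simp only [L, A, r, B, C, PR] at *
      refine ⟨by simp, ?_, by simp, ?_⟩
      · simp
      · push_cast; rw [hp]; push_cast; ring

theorem r_zero_L {q : ℕ} : ∀ f : Fo, valid q f → r f = 0 → L f = 0 := by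
  intro f
  induction f with
  | nil => intro _ _; rfl
  | node p al be ch rest ih1 ih2 =>
    intro hf hr
    obtain ⟨h1, h2, h3, h4, h5⟩ := hf
    simp only [r] at hr
    have hr1 : r ch = 0 := by omega
    have hr2 : r rest = 0 := by omega
    have hne : ¬ (be = 1 ∧ B ch = 0) := by
      intro h; rw [if_pos h] at hr; omega
    have hB : ¬ (be + B ch = 1) := by
      intro h
      have : B ch = 1 := by omega
      have := (B_one ch h4 this).2.2.1
      omega
    simp only [L, if_neg hB, ih1 h4 hr1, ih2 h5 hr2]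
    norm_num

/-- `2^A * L` is a natural number. -/
theorem ell_nat : ∀ f : Fo, ∃ k : ℕ, (2 : ℚ) ^ A f * L f = k := by
  intro f
  induction f with
  | nil => exact ⟨0, by simp [L]⟩
  | node p al be ch rest ih1 ih2 =>
    obtain ⟨k1, hk1⟩ := ih1
    obtain ⟨k2, hk2⟩ := ih2
    refine ⟨(if be + B ch = 1 then 2 ^ A rest else 0) + 2 ^ (al + A rest) * k1
      + 2 ^ (al + A ch) * k2, ?_⟩
    simp only [L, A]
    push_cast
    rw [← hk1, ← hk2]
    split_ifs
    · rw [pow_add (2 : ℚ) (al + A ch) (A rest), mul_add, mul_add]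
      have := half_pow_mul (al + A ch)
      rw [mul_right_comm, this, pow_add, pow_add]; ring
    · rw [pow_add (2 : ℚ) (al + A ch) (A rest), mul_add, mul_add]
      rw [pow_add, pow_add]; ring

/-- positivity of `L` when `r ≥ 1`. -/
theorem L_pos {q : ℕ} : ∀ f : Fo, valid q f → 1 ≤ r f → 0 < L f := by
  intro f
  induction f with
  | nil => intro _ h; simp [r] at h
  | node p al be ch rest ih1 ih2 =>
    intro hf hr
    obtain ⟨h1, h2, h3, h4, h5⟩ := hf
    simp only [r] at hr
    simp only [L]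
    have n1 := L_nonneg ch
    have n2 := L_nonneg rest
    have n3 : (0 : ℚ) ≤ (if be + B ch = 1 then (1 / 2 : ℚ) ^ (al + A ch) else 0) := by
      split_ifs <;> positivity
    by_cases hne : be = 1 ∧ B ch = 0
    · have : be + B ch = 1 := by omega
      rw [if_pos this]
      have : (0 : ℚ) < (1 / 2 : ℚ) ^ (al + A ch) := by positivity
      linarith
    · rw [if_neg hne] at hr
      by_cases hc : 1 ≤ r ch
      · have := ih1 h4 hc; linarith
      · have := ih2 h5 (by omega); linarith

theorem ell_ge_one {q : ℕ} (f : Fo) (hf : valid q f) (hr : 1 ≤ r f) :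
    (1 : ℚ) ≤ 2 ^ A f * L f := by
  obtain ⟨k, hk⟩ := ell_nat f
  rw [hk]
  have : (0 : ℚ) < 2 ^ A f * L f := mul_pos (by positivity) (L_pos f hf hr)
  rw [hk] at this
  have : 0 < k := by exact_mod_cast this
  exact_mod_cast this

end Fo
end Pool.MP_f7abb8_nt.NU
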