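import Pool.Agent.H.MP_f7abb8_nt.Forest2

set_option autoImplicit false

namespace Pool.MP_f7abb8_nt.NU
namespace Fo

def cat : Fo → Fo → Fo
  | nil, g => g
  | node p al be ch rest, g => node p al be ch (cat rest g)

theorem A_cat (f g : Fo) : A (cat f g) = A f + A g := by
  induction f with
  | nil => simp [cat, A]
  | node p al be ch rest ih1 ih2 => simp only [cat, A, ih2]; ring

theorem B_cat (f g : Fo) : B (cat f g) = B f + B g := by
  induction f with
  | nil => simp [cat, B]
  | node p al be ch rest ih1 ih2 => simp only [cat, B, ih2]; ring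

theorem r_cat (f g : Fo) : r (cat f g) = r f + r g := by
  induction f with
  | nil => simp [cat, r]
  | node p al be ch rest ih1 ih2 => simp only [cat, r, ih2]; ring

theorem C_cat (f g : Fo) : C (cat f g) = C f * C g := by
  induction f with
  | nil => simp [cat, C]
  | node p al be ch rest ih1 ih2 => simp only [cat, C, ih2]; ring

theorem PR_cat (f g : Fo) : PR (cat f g) = PR f * PR g := by
  induction f with
  | nil => simp [cat, PR]
  | node p al be ch rest ih1 ih2 => simp only [cat, PR, ih2]; ring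

theorem L_cat (f g : Fo) : L (cat f g) = L f + L g := by
  induction f with
  | nil => simp [cat, L]
  | node p al be ch rest ih1 ih2 => simp only [cat, L, ih2]; ring

theorem Ka_cat (f g : Fo) : Ka (cat f g) = Ka f + Ka g := by
  induction f with
  | nil => simp [cat, Ka]
  | node p al be ch rest ih1 ih2 => simp only [cat, Ka, ih2]; ring

theorem Kb_cat (f g : Fo) : Kb (cat f g) = Kb f + Kb g := by
  induction f with
  | nil => simp [cat, Kb]
  | node p al be ch rest ih1 ih2 => simp only [cat, Kb, ih2]; ring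

theorem N3_cat (f g : Fo) : N3 (cat f g) = N3 f + N3 g := by
  induction f with
  | nil => simp [cat, N3]
  | node p al be ch rest ih1 ih2 => simp only [cat, N3, ih2]; ring

theorem s2_cat (f g : Fo) : s2 (cat f g) = s2 f + s2 g := by
  induction f with
  | nil => simp [cat, s2]
  | node p al be ch rest ih1 ih2 => simp only [cat, s2, ih2]; ring

theorem Y_cat (q : ℚ) (f g : Fo) : Y q (cat f g) = Y q f + Y q g := by
  induction f with
  | nil => simp [cat, Y]
  | node p al be ch rest ih1 ih2 => simp only [cat, Y, ih2]; ring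

theorem l2_cat (f g : Fo) : l2 (cat f g) = l2 f + l2 g := by
  induction f with
  | nil => simp [cat, l2]
  | node p al be ch rest ih1 ih2 => simp only [cat, l2, ih2, add_assoc]

theorem node_eq_cat (p al be : ℕ) (ch rest : Fo) :
    node p al be ch rest = cat (node p al be ch nil) rest := rfl

/-- Induction principle. -/
theorem vind {q : ℕ} {P : Fo → Prop} (hnil : P nil)
    (htree : ∀ p al be ch, valid q (node p al be ch nil) → P ch → P (node p al be ch nil))
    (hcat : ∀ f g, valid q f → valid q g → 0 < B f → 0 < B g → P f → P g → P (cat f g)) :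
    ∀ f, valid q f → P f := by
  intro f
  induction f with
  | nil => intro _; exact hnil
  | node p al be ch rest ih1 ih2 =>
    intro hf
    obtain ⟨h1, h2, h3, h4, h5⟩ := hf
    have hT : valid q (node p al be ch nil) := ⟨h1, h2, h3, h4, trivial⟩
    have pT := htree p al be ch hT (ih1 h4)
    by_cases hB : B rest = 0
    · rw [eq_nil rest h5 hB]; exact pT
    · rw [node_eq_cat]
      refine hcat _ _ hT h5 ?_ (by omega) pT (ih2 h5)
      simp only [B]; omega

theorem C_bdQ {q : ℕ} (f : Fo) (hf : valid q f) : |(C f : ℚ)| ≤ 2 ^ A f := by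
  have := (C_bd f hf).1
  have h : ((|C f| : ℤ) : ℚ) ≤ ((2 ^ A f : ℤ) : ℚ) := by exact_mod_cast this
  push_cast at h
  exact h

theorem C_bdQ' {q : ℕ} (f : Fo) (hf : valid q f) (hB : 0 < B f) : |(C f : ℚ)| + 1 ≤ 2 ^ A f := by
  have := ((C_bd f hf).2 hB).1
  have h : ((|C f| + 1 : ℤ) : ℚ) ≤ ((2 ^ A f : ℤ) : ℚ) := by exact_mod_cast this
  push_cast at h
  exact h

theorem C_neQ {q : ℕ} (f : Fo) (hf : valid q f) : 1 ≤ |(C f : ℚ)| := by
  have := C_ne f hf
  have h : ((1 : ℤ) : ℚ) ≤ ((|C f| : ℤ) : ℚ) := by exact_mod_cast this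
  push_cast at h
  exact h

theorem two_le_pow {k : ℕ} (hk : 0 < k) : (2 : ℚ) ≤ 2 ^ k := by
  calc (2 : ℚ) = 2 ^ 1 := by norm_num
    _ ≤ 2 ^ k := pow_le_pow_right₀ (by norm_num) hk

/-- Claims for `r = 1`. -/
theorem r_one {q : ℕ} : ∀ f : Fo, valid q f → r f = 1 →
    |(C f : ℚ)| ≤ 2 ^ A f * L f ∧ 2 ^ A f * L f + 1 ≤ 2 ^ A f ∧
    (2 ≤ B f → |(C f : ℚ)| + 1 ≤ 2 ^ A f * L f ∧ ∃ k : ℕ, 2 ^ A f * L f = 2 * k) := by
  intro f hf
  refine vind (q := q) (P := fun f => r f = 1 →
    |(C f : ℚ)| ≤ 2 ^ A f * L f ∧ 2 ^ A f * L f + 1 ≤ 2 ^ A f ∧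
    (2 ≤ B f → |(C f : ℚ)| + 1 ≤ 2 ^ A f * L f ∧ ∃ k : ℕ, 2 ^ A f * L f = 2 * k)) ?_ ?_ ?_ f hf
  · intro h; simp [r] at h
  · intro p al be ch hv ih hr
    by_cases hB : B (node p al be ch nil) = 1
    · obtain ⟨b1, b2, b3, b4⟩ := B_one _ hv hB
      have hc : |(C (node p al be ch nil) : ℚ)| = -(C (node p al be ch nil) : ℚ) := by
        apply abs_of_neg; exact_mod_cast b1
      have hbd := C_bdQ' _ hv (by omega)
      refine ⟨by rw [hc, b2], ?_, fun h => by omega⟩
      rw [← b2, ← hc]; exact hbd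
    · obtain ⟨h1, h2, h3, h4, h5⟩ := hv
      simp only [B] at hB
      have hB2 : ¬ (be + B ch = 1) := by omega
      have hne : ¬ (be = 1 ∧ B ch = 0) := by omega
      simp only [r, if_neg hne] at hr
      have hrc : r ch = 1 := by omega
      obtain ⟨i1, i2, i3⟩ := ih hrc
      have eL : L (node p al be ch nil) = L ch := by simp only [L, if_neg hB2]; ring
      have eA : A (node p al be ch nil) = al + A ch := by simp only [A]; ring
      have hP : (2 : ℚ) ≤ 2 ^ al := two_le_pow h2
      obtain ⟨k, hk⟩ := ell_nat ch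
      have hk1 : (1 : ℚ) ≤ k := by rw [← hk]; exact ell_ge_one ch h4 (by omega)
      rw [eL, eA, pow_add, mul_assoc]
      have main : |(C (node p al be ch nil) : ℚ)| + 1 ≤ 2 ^ al * (2 ^ A ch * L ch) := by
        simp only [C]
        split_ifs with hbe
        · obtain ⟨i4, _⟩ := i3 (by omega)
          push_cast
          have h3 : |((2 : ℚ) ^ al * (C ch : ℚ) - 1) * 1| ≤ 2 ^ al * |(C ch : ℚ)| + 1 := by
            rw [mul_one]
            calc |(2 : ℚ) ^ al * (C ch : ℚ) - 1| ≤ |(2 : ℚ) ^ al * (C ch : ℚ)| + |1| := abs_sub _ _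
              _ = 2 ^ al * |(C ch : ℚ)| + 1 := by
                rw [abs_mul, abs_of_pos (by positivity : (0 : ℚ) < 2 ^ al)]; simp
          nlinarith
        · push_cast
          rw [abs_neg, abs_one, hk]
          nlinarith
      refine ⟨by linarith, ?_, fun _ => ⟨main, ?_⟩⟩
      · nlinarith
      · obtain ⟨a, rfl⟩ : ∃ a, al = a + 1 := ⟨al - 1, by omega⟩
        refine ⟨2 ^ a * k, ?_⟩
        rw [hk]; push_cast; ring
  · intro f g hf hg hBf hBg i1 i2 hr
    rw [r_cat] at hr
    have eQ : ((C (cat f g) : ℤ) : ℚ) = (C f : ℚ) * (C g : ℚ) := by rw [C_cat]; push_cast; rfl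
    rw [eQ, L_cat, A_cat, abs_mul, pow_add]
    have f0 := C_bdQ' f hf hBf
    have g0 := C_bdQ' g hg hBg
    have f1 := C_neQ f hf
    have g1 := C_neQ g hg
    have hEf : (2 : ℚ) ≤ 2 ^ A f := two_le_pow (A_pos f hf hBf)
    have hEg : (2 : ℚ) ≤ 2 ^ A g := two_le_pow (A_pos g hg hBg)
    by_cases hrf : r f = 1
    · have hrg : r g = 0 := by omega
      obtain ⟨a1, a2, a3⟩ := i1 hrf
      have hLg := r_zero_L g hg hrg
      have hlf := ell_ge_one f hf (by omega)
      obtain ⟨k, hk⟩ := ell_nat f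
      rw [hLg, add_zero]
      have e : (2 : ℚ) ^ A f * 2 ^ A g * L f = (2 ^ A f * L f) * 2 ^ A g := by ring
      rw [e]
      have main : |(C f : ℚ)| * |(C g : ℚ)| + 1 ≤ (2 ^ A f * L f) * 2 ^ A g := by nlinarith
      refine ⟨by linarith, by nlinarith, fun _ => ⟨main, ?_⟩⟩
      obtain ⟨a, ha⟩ : ∃ a, A g = a + 1 := ⟨A g - 1, by have := A_pos g hg hBg; omega⟩
      refine ⟨k * 2 ^ a, ?_⟩
      rw [hk, ha]; push_cast; ring
    · have hrg : r g = 1 := by omega
      have hrf0 : r f = 0 := by omega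
      obtain ⟨a1, a2, a3⟩ := i2 hrg
      have hLf := r_zero_L f hf hrf0
      have hlg := ell_ge_one g hg (by omega)
      obtain ⟨k, hk⟩ := ell_nat g
      rw [hLf, zero_add]
      have e : (2 : ℚ) ^ A f * 2 ^ A g * L g = 2 ^ A f * (2 ^ A g * L g) := by ring
      rw [e]
      have main : |(C f : ℚ)| * |(C g : ℚ)| + 1 ≤ 2 ^ A f * (2 ^ A g * L g) := by nlinarith
      refine ⟨by linarith, by nlinarith, fun _ => ⟨main, ?_⟩⟩
      obtain ⟨a, ha⟩ : ∃ a, A f = a + 1 := ⟨A f - 1, by have := A_pos f hf hBf; omega⟩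
      refine ⟨2 ^ a * k, ?_⟩
      rw [hk, ha]; push_cast; ring

/-- Claims for `r ≥ 2`. -/
theorem r_two {q : ℕ} : ∀ f : Fo, valid q f → 2 ≤ r f →
    2 * (|(C f : ℚ)| + 1) ≤ 2 ^ A f * L f := by
  intro f hf
  refine vind (q := q) (P := fun f => 2 ≤ r f →
    2 * (|(C f : ℚ)| + 1) ≤ 2 ^ A f * L f) ?_ ?_ ?_ f hf
  · intro h; simp [r] at h
  · intro p al be ch hv ih hr
    obtain ⟨h1, h2, h3, h4, h5⟩ := hv
    simp only [r] at hr
    have hne : ¬ (be = 1 ∧ B ch = 0) := by
      intro h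
      rw [if_pos h, r_zero_of_B ch h4 h.2] at hr
      omega
    rw [if_neg hne] at hr
    have hrc : 2 ≤ r ch := by omega
    have hB2 : ¬ (be + B ch = 1) := by
      intro h
      have hb : B ch = 1 := by omega
      have := (B_one ch h4 hb).2.2.1
      omega
    have i1 := ih hrc
    have eL : L (node p al be ch nil) = L ch := by simp only [L, if_neg hB2]; ring
    have eA : A (node p al be ch nil) = al + A ch := by simp only [A]; ring
    have hP : (2 : ℚ) ≤ 2 ^ al := two_le_pow h2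
    have hc1 := C_neQ ch h4
    rw [eL, eA, pow_add, mul_assoc]
    simp only [C]
    split_ifs with hbe
    · push_cast
      have h3 : |((2 : ℚ) ^ al * (C ch : ℚ) - 1) * 1| ≤ 2 ^ al * |(C ch : ℚ)| + 1 := by
        rw [mul_one]
        calc |(2 : ℚ) ^ al * (C ch : ℚ) - 1| ≤ |(2 : ℚ) ^ al * (C ch : ℚ)| + |1| := abs_sub _ _
          _ = 2 ^ al * |(C ch : ℚ)| + 1 := by
            rw [abs_mul, abs_of_pos (by positivity : (0 : ℚ) < 2 ^ al)]; simp
      nlinarith
    · push_cast
      rw [abs_neg, abs_one]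
      nlinarith
  · intro f g hf hg hBf hBg i1 i2 hr
    rw [r_cat] at hr
    have eQ : ((C (cat f g) : ℤ) : ℚ) = (C f : ℚ) * (C g : ℚ) := by rw [C_cat]; push_cast; rfl
    rw [eQ, L_cat, A_cat, abs_mul, pow_add]
    have f0 := C_bdQ' f hf hBf
    have g0 := C_bdQ' g hg hBg
    have f1 := C_neQ f hf
    have g1 := C_neQ g hg
    have e : (2 : ℚ) ^ A f * 2 ^ A g * (L f + L g)
        = (2 ^ A f * L f) * 2 ^ A g + 2 ^ A f * (2 ^ A g * L g) := by ring
    rw [e]
    have lf : 0 ≤ 2 ^ A f * L f := mul_nonneg (by positivity) (L_nonneg f)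
    have lg : 0 ≤ 2 ^ A g * L g := mul_nonneg (by positivity) (L_nonneg g)
    generalize hxf : |(C f : ℚ)| = xf at *
    generalize hxg : |(C g : ℚ)| = xg at *
    by_cases hf2 : 2 ≤ r f
    · have a1 := i1 hf2
      generalize (2 : ℚ) ^ A f * L f = lf' at *
      generalize (2 : ℚ) ^ A g * L g = lg' at *
      generalize (2 : ℚ) ^ A f = Ef at *
      generalize (2 : ℚ) ^ A g = Eg at *
      nlinarith
    · by_cases hg2 : 2 ≤ r g
      · have a1 := i2 hg2
        generalize (2 : ℚ) ^ A f * L f = lf' at *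
        generalize (2 : ℚ) ^ A g * L g = lg' at *
        generalize (2 : ℚ) ^ A f = Ef at *
        generalize (2 : ℚ) ^ A g = Eg at *
        nlinarith
      · have rf : r f = 1 := by omega
        have rg : r g = 1 := by omega
        obtain ⟨a1, a2, _⟩ := r_one f hf rf
        obtain ⟨b1, b2, _⟩ := r_one g hg rg
        rw [hxf] at a1
        rw [hxg] at b1
        generalize (2 : ℚ) ^ A f * L f = lf' at *
        generalize (2 : ℚ) ^ A g * L g = lg' at *
        generalize (2 : ℚ) ^ A f = Ef at *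
        generalize (2 : ℚ) ^ A g = Eg at *
        have m1 : xf * xg ≤ lf' * lg' := mul_le_mul a1 b1 (by linarith) lf
        have m2 : lf' * (lg' + 1) ≤ lf' * Eg := mul_le_mul_of_nonneg_left b2 lf
        have m3 : (lf' + 1) * lg' ≤ Ef * lg' := mul_le_mul_of_nonneg_right a2 lg
        nlinarith

end Fo
end Pool.MP_f7abb8_nt.NU
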