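import Pool.Agent.H.MP_f7abb8_nt.Forest3

set_option autoImplicit false

namespace Pool.MP_f7abb8_nt.NU
namespace Fo

theorem l2_nil_of_B {q : ℕ} (f : Fo) (hf : valid q f) (hB : B f = 0) : l2 f = 0 := by
  rw [eq_nil f hf hB]; rfl

/-- A leaf with `be = 2`, `al ≥ 3` improves the bounds. -/
theorem t_claim {q : ℕ} : ∀ f : Fo, valid q f → (∃ a ∈ l2 f, 3 ≤ a) →
    4 * (|(C f : ℚ)| + 1) ≤ 2 ^ A f ∧ (r f = 1 → 4 * (|(C f : ℚ)| + 1) ≤ 2 ^ A f * L f) := by
  intro f hf
  refine vind (q := q) (P := fun f => (∃ a ∈ l2 f, 3 ≤ a) →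
    4 * (|(C f : ℚ)| + 1) ≤ 2 ^ A f ∧ (r f = 1 → 4 * (|(C f : ℚ)| + 1) ≤ 2 ^ A f * L f))
    ?_ ?_ ?_ f hf
  · rintro ⟨a, ha, _⟩; simp [l2] at ha
  · intro p al be ch hv ih ht
    obtain ⟨h1, h2, h3, h4, h5⟩ := hv
    have eA : A (node p al be ch nil) = al + A ch := by simp only [A]; ring
    have hP : (2 : ℚ) ≤ 2 ^ al := two_le_pow h2
    rw [eA, pow_add]
    by_cases hleaf : be = 2 ∧ B ch = 0
    · obtain ⟨rfl, hch⟩ := hleaf
      have hch' := eq_nil ch h4 hch
      subst hch'
      obtain ⟨a, ha, ha3⟩ := ht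
      simp only [l2, B] at ha
      simp at ha
      subst ha
      have hP8 : (8 : ℚ) ≤ 2 ^ a := by
        calc (8 : ℚ) = 2 ^ 3 := by norm_num
          _ ≤ 2 ^ a := pow_le_pow_right₀ (by norm_num) ha3
      refine ⟨?_, fun h => ?_⟩
      · simp [C, A]
        linarith
      · simp [r, B] at h
    · have ht' : ∃ a ∈ l2 ch, 3 ≤ a := by
        obtain ⟨a, ha, ha3⟩ := ht
        simp only [l2, if_neg hleaf] at ha
        simp at ha
        exact ⟨a, ha, ha3⟩
      obtain ⟨i1, i2⟩ := ih ht'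
      have hc1 := C_neQ ch h4
      have hBc : 0 < B ch := by
        by_contra h
        have h0 : B ch = 0 := by omega
        rw [l2_nil_of_B ch h4 h0] at ht'
        obtain ⟨a, ha, _⟩ := ht'
        simp at ha
      have hE0 : (0 : ℚ) < 2 ^ A ch := by positivity
      have hc : |((C (node p al be ch nil) : ℤ) : ℚ)| ≤ 2 ^ al * |(C ch : ℚ)| + 1 := by
        simp only [C]
        split_ifs with hbe
        · push_cast
          rw [mul_one]
          calc |(2 : ℚ) ^ al * (C ch : ℚ) - 1| ≤ |(2 : ℚ) ^ al * (C ch : ℚ)| + |1| := abs_sub _ _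
            _ = 2 ^ al * |(C ch : ℚ)| + 1 := by
              rw [abs_mul, abs_of_pos (by positivity : (0 : ℚ) < 2 ^ al)]; simp
        · push_cast
          simp only [abs_neg, abs_one]
          nlinarith
      refine ⟨by nlinarith, fun hr => ?_⟩
      have hne : ¬ (be = 1 ∧ B ch = 0) := by omega
      simp only [r, if_neg hne] at hr
      have i3 := i2 (by omega)
      by_cases hB2 : be + B ch = 1
      · exfalso
        have hb : B ch = 1 := by omega
        obtain ⟨b1, b2, b3, b4⟩ := B_one ch h4 hb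
        have hcn : |(C ch : ℚ)| = -(C ch : ℚ) := by
          apply abs_of_neg; exact_mod_cast b1
        rw [← b2, ← hcn] at i3
        linarith
      · have eL : L (node p al be ch nil) = L ch := by simp only [L, if_neg hB2]; ring
        rw [eL]
        have e : (2 : ℚ) ^ al * 2 ^ A ch * L ch = 2 ^ al * (2 ^ A ch * L ch) := by ring
        rw [e]
        generalize (2 : ℚ) ^ A ch * L ch = lc at *
        nlinarith
  · intro f g hf hg hBf hBg i1 i2 ht
    rw [l2_cat] at ht
    have eQ : ((C (cat f g) : ℤ) : ℚ) = (C f : ℚ) * (C g : ℚ) := by rw [C_cat]; push_cast; rfl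
    rw [eQ, L_cat, A_cat, abs_mul, pow_add, r_cat]
    have f0 := C_bdQ f hf
    have g0 := C_bdQ g hg
    have f1 := C_neQ f hf
    have g1 := C_neQ g hg
    have e : (2 : ℚ) ^ A f * 2 ^ A g * (L f + L g)
        = (2 ^ A f * L f) * 2 ^ A g + 2 ^ A f * (2 ^ A g * L g) := by ring
    rw [e]
    have lf : 0 ≤ 2 ^ A f * L f := mul_nonneg (by positivity) (L_nonneg f)
    have lg : 0 ≤ 2 ^ A g * L g := mul_nonneg (by positivity) (L_nonneg g)
    have hEf : (2 : ℚ) ≤ 2 ^ A f := two_le_pow (A_pos f hf hBf)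
    have hEg : (2 : ℚ) ≤ 2 ^ A g := two_le_pow (A_pos g hg hBg)
    have key : (∃ a ∈ l2 f, 3 ≤ a) ∨ (∃ a ∈ l2 g, 3 ≤ a) := by
      obtain ⟨a, ha, ha3⟩ := ht
      rcases Multiset.mem_add.1 ha with h | h
      · exact Or.inl ⟨a, h, ha3⟩
      · exact Or.inr ⟨a, h, ha3⟩
    have hrf := fun h => r_one f hf h
    have hrg := fun h => r_one g hg h
    generalize hxf : |(C f : ℚ)| = xf at *
    generalize hxg : |(C g : ℚ)| = xg at *
    rcases key with h | h
    · obtain ⟨a1, a2⟩ := i1 h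
      refine ⟨by nlinarith, fun hr => ?_⟩
      by_cases h1 : r f = 1
      · have a3 := a2 h1
        generalize (2 : ℚ) ^ A f * L f = lf' at *
        generalize (2 : ℚ) ^ A g * L g = lg' at *
        generalize (2 : ℚ) ^ A f = Ef at *
        generalize (2 : ℚ) ^ A g = Eg at *
        nlinarith
      · obtain ⟨b1, b2, _⟩ := hrg (by omega)
        generalize (2 : ℚ) ^ A f * L f = lf' at *
        generalize (2 : ℚ) ^ A g * L g = lg' at *
        generalize (2 : ℚ) ^ A f = Ef at *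
        generalize (2 : ℚ) ^ A g = Eg at *
        have m1 : 0 ≤ lf' * Eg := by positivity
        nlinarith
    · obtain ⟨a1, a2⟩ := i2 h
      refine ⟨by nlinarith, fun hr => ?_⟩
      by_cases h1 : r g = 1
      · have a3 := a2 h1
        generalize (2 : ℚ) ^ A f * L f = lf' at *
        generalize (2 : ℚ) ^ A g * L g = lg' at *
        generalize (2 : ℚ) ^ A f = Ef at *
        generalize (2 : ℚ) ^ A g = Eg at *
        nlinarith
      · obtain ⟨b1, b2, _⟩ := hrf (by omega)
        generalize (2 : ℚ) ^ A f * L f = lf' at *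
        generalize (2 : ℚ) ^ A g * L g = lg' at *
        generalize (2 : ℚ) ^ A f = Ef at *
        generalize (2 : ℚ) ^ A g = Eg at *
        have m1 : 0 ≤ Ef * lg' := by positivity
        nlinarith

theorem half_pow_le {a b : ℕ} (h : a + 1 ≤ b) : 2 * (1 / 2 : ℚ) ^ b ≤ (1 / 2) ^ a := by
  obtain ⟨k, rfl⟩ : ∃ k, b = a + 1 + k := ⟨b - (a + 1), by omega⟩
  rw [pow_add, pow_add]
  have h1 : (0 : ℚ) < (1 / 2) ^ a := by positivity
  have h2 : (1 / 2 : ℚ) ^ k ≤ 1 := pow_le_one₀ (by norm_num) (by norm_num)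
  nlinarith

theorem Ka_claim {q : ℕ} : ∀ f : Fo, valid q f →
    Ka f ≤ s2 f ∧ (B f = 2 → r f = 0 → Ka f + (1 / 2 : ℚ) ^ A f ≤ s2 f) := by
  intro f hf
  refine vind (q := q) (P := fun f =>
    Ka f ≤ s2 f ∧ (B f = 2 → r f = 0 → Ka f + (1 / 2 : ℚ) ^ A f ≤ s2 f)) ?_ ?_ ?_ f hf
  · simp [Ka, s2, B]
  · intro p al be ch hv ⟨i1, i2⟩
    obtain ⟨h1, h2, h3, h4, h5⟩ := hv
    have eA : A (node p al be ch nil) = al + A ch := by simp only [A]; ring
    have eKa : Ka (node p al be ch nil) = (if be + B ch = 2 ∧ r ch = 0 ∧ ¬ (be = 1 ∧ B ch = 0)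
        then (1 / 2 : ℚ) ^ (al + A ch) else 0) + Ka ch := by simp only [Ka]; ring
    have es2 : s2 (node p al be ch nil) = (if be = 2 ∧ B ch = 0 then 2 * (1 / 2 : ℚ) ^ al else 0)
        + s2 ch := by simp only [s2]; ring
    rw [eA, eKa, es2]
    have hs0 : (0 : ℚ) ≤ (if be = 2 ∧ B ch = 0 then 2 * (1 / 2 : ℚ) ^ al else 0) := by
      split_ifs <;> positivity
    have main : be + B ch = 2 ∧ r ch = 0 ∧ ¬ (be = 1 ∧ B ch = 0) →
        Ka ch + 2 * (1 / 2 : ℚ) ^ (al + A ch) ≤
          (if be = 2 ∧ B ch = 0 then 2 * (1 / 2 : ℚ) ^ al else 0) + s2 ch := by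
      rintro ⟨g1, g2, g3⟩
      by_cases hbe : be = 2
      · have hch : ch = nil := eq_nil ch h4 (by omega)
        subst hch
        subst hbe
        simp [Ka, s2, A, B]
      · by_cases hbe1 : be = 1
        · exfalso
          have hb : B ch = 1 := by omega
          have := (B_one ch h4 hb).2.2.1
          omega
        · have hb : B ch = 2 := by omega
          have i3 := i2 hb g2
          have i4 := half_pow_le (a := A ch) (b := al + A ch) (by omega)
          linarith
    constructor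
    · by_cases hc : be + B ch = 2 ∧ r ch = 0 ∧ ¬ (be = 1 ∧ B ch = 0)
      · rw [if_pos hc]
        have := main hc
        have h0 : (0 : ℚ) < (1 / 2) ^ (al + A ch) := by positivity
        linarith
      · rw [if_neg hc]; linarith
    · intro hB hr
      simp only [B] at hB
      simp only [r] at hr
      have hc : be + B ch = 2 ∧ r ch = 0 ∧ ¬ (be = 1 ∧ B ch = 0) := by
        refine ⟨by omega, by omega, by omega⟩
      rw [if_pos hc]
      have := main hc
      linarith
  · intro f g hf hg hBf hBg ⟨i1, _⟩ ⟨i2, _⟩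
    rw [Ka_cat, s2_cat, B_cat, r_cat]
    refine ⟨by linarith, fun hB hr => ?_⟩
    exfalso
    have hb : B f = 1 := by omega
    have := (B_one f hf hb).2.2.1
    omega

theorem Kb_zero {q : ℕ} : ∀ f : Fo, valid q f → B f ≤ 1 → Kb f = 0 := by
  intro f
  induction f with
  | nil => intro _ _; rfl
  | node p al be ch rest ih1 ih2 =>
    intro hf hB
    obtain ⟨h1, h2, h3, h4, h5⟩ := hf
    simp only [B] at hB
    have hne : ¬ (be + B ch = 2 ∧ 1 ≤ r ch) := by omega
    simp only [Kb, if_neg hne, ih1 h4 (by omega), ih2 h5 (by omega)]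
    norm_num

theorem L_ge {q : ℕ} (f : Fo) (hf : valid q f) (hB : B f = 1) : (1 / 2 : ℚ) ^ A f ≤ L f := by
  obtain ⟨b1, b2, b3, b4⟩ := B_one f hf hB
  have h1 := C_neQ f hf
  have hcn : |(C f : ℚ)| = -(C f : ℚ) := by
    apply abs_of_neg; exact_mod_cast b1
  rw [hcn, b2] at h1
  have h2 : (0 : ℚ) < (1 / 2) ^ A f := by positivity
  have h3 := half_pow_mul (A f)
  calc (1 / 2 : ℚ) ^ A f = (1 / 2) ^ A f * 1 := by ring
    _ ≤ (1 / 2) ^ A f * (2 ^ A f * L f) := by
      exact mul_le_mul_of_nonneg_left h1 h2.le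
    _ = (2 ^ A f * (1 / 2) ^ A f) * L f := by ring
    _ = L f := by rw [h3, one_mul]

theorem Kb_claim {q : ℕ} : ∀ f : Fo, valid q f →
    Kb f ≤ L f ∧ (B f = 2 → 1 ≤ r f → Kb f + (1 / 2 : ℚ) ^ A f ≤ L f) := by
  intro f hf
  refine vind (q := q) (P := fun f =>
    Kb f ≤ L f ∧ (B f = 2 → 1 ≤ r f → Kb f + (1 / 2 : ℚ) ^ A f ≤ L f)) ?_ ?_ ?_ f hf
  · simp [Kb, L, B]
  · intro p al be ch hv ⟨i1, i2⟩
    obtain ⟨h1, h2, h3, h4, h5⟩ := hv
    have eA : A (node p al be ch nil) = al + A ch := by simp only [A]; ring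
    have eKb : Kb (node p al be ch nil) = (if be + B ch = 2 ∧ 1 ≤ r ch
        then (1 / 2 : ℚ) ^ (al + A ch) else 0) + Kb ch := by simp only [Kb]; ring
    have eL : L (node p al be ch nil) = (if be + B ch = 1 then (1 / 2 : ℚ) ^ (al + A ch) else 0)
        + L ch := by simp only [L]; ring
    rw [eA, eKb, eL]
    have hs0 : (0 : ℚ) ≤ (if be + B ch = 1 then (1 / 2 : ℚ) ^ (al + A ch) else 0) := by
      split_ifs <;> positivity
    have main : be + B ch = 2 ∧ 1 ≤ r ch →
        Kb ch + 2 * (1 / 2 : ℚ) ^ (al + A ch) ≤ L ch := by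
      rintro ⟨g1, g2⟩
      have i4 := half_pow_le (a := A ch) (b := al + A ch) (by omega)
      by_cases hbe : be = 0
      · have hb : B ch = 2 := by omega
        have i3 := i2 hb g2
        linarith
      · by_cases hbe1 : be = 1
        · have hb : B ch = 1 := by omega
          rw [Kb_zero ch h4 (by omega)]
          have := L_ge ch h4 hb
          linarith
        · exfalso
          have hb : B ch = 0 := by omega
          rw [r_zero_of_B ch h4 hb] at g2
          omega
    constructor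
    · by_cases hc : be + B ch = 2 ∧ 1 ≤ r ch
      · rw [if_pos hc]
        have := main hc
        have h0 : (0 : ℚ) < (1 / 2) ^ (al + A ch) := by positivity
        linarith
      · rw [if_neg hc]; linarith
    · intro hB hr
      simp only [B] at hB
      simp only [r] at hr
      have hne : ¬ (be = 1 ∧ B ch = 0) := by omega
      rw [if_neg hne] at hr
      have hc : be + B ch = 2 ∧ 1 ≤ r ch := ⟨by omega, by omega⟩
      rw [if_pos hc]
      have := main hc
      linarith
  · intro f g hf hg hBf hBg ⟨i1, _⟩ ⟨i2, _⟩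
    rw [Kb_cat, L_cat, B_cat, r_cat, A_cat]
    refine ⟨by linarith, fun hB hr => ?_⟩
    have hb : B f = 1 := by omega
    have hb' : B g = 1 := by omega
    rw [Kb_zero f hf (by omega), Kb_zero g hg (by omega)]
    have l1 := L_ge f hf hb
    have h1 : (1 / 2 : ℚ) ^ A g ≤ 1 := pow_le_one₀ (by norm_num) (by norm_num)
    have h2 : (0 : ℚ) < (1 / 2) ^ A f := by positivity
    have l2 := L_nonneg g
    rw [pow_add]
    nlinarith

theorem N3_zero {q : ℕ} : ∀ f : Fo, valid q f → B f ≤ 2 → N3 f = 0 := by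
  intro f
  induction f with
  | nil => intro _ _; rfl
  | node p al be ch rest ih1 ih2 =>
    intro hf hB
    obtain ⟨h1, h2, h3, h4, h5⟩ := hf
    simp only [B] at hB
    have hne : ¬ (3 ≤ be + B ch) := by omega
    simp only [N3, if_neg hne, ih1 h4 (by omega), ih2 h5 (by omega)]
    norm_num

theorem N3_claim {q : ℕ} : ∀ f : Fo, valid q f →
    N3 f + 1 ≤ 2 ^ A f ∧ (r f = 1 → N3 f + 1 ≤ 2 ^ A f * L f) := by
  intro f hf
  refine vind (q := q) (P := fun f =>
    N3 f + 1 ≤ 2 ^ A f ∧ (r f = 1 → N3 f + 1 ≤ 2 ^ A f * L f)) ?_ ?_ ?_ f hf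
  · simp [N3, A, r]
  · intro p al be ch hv ⟨i1, i2⟩
    have hv' := hv
    obtain ⟨h1, h2, h3, h4, h5⟩ := hv
    have eA : A (node p al be ch nil) = al + A ch := by simp only [A]; ring
    have eN : N3 (node p al be ch nil) ≤ 1 + N3 ch := by
      simp only [N3]; split_ifs <;> linarith
    have hP : (2 : ℚ) ≤ 2 ^ al := two_le_pow h2
    have hE1 : (1 : ℚ) ≤ 2 ^ A ch := one_le_pow₀ (by norm_num)
    rw [eA, pow_add]
    refine ⟨by nlinarith, fun hr => ?_⟩
    by_cases hB : B (node p al be ch nil) ≤ 2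
    · rw [N3_zero _ hv' hB, zero_add, ← pow_add, ← eA]
      exact ell_ge_one _ hv' (by omega)
    · simp only [B] at hB
      have hB2 : ¬ (be + B ch = 1) := by omega
      have hne : ¬ (be = 1 ∧ B ch = 0) := by omega
      simp only [r, if_neg hne] at hr
      have eL : L (node p al be ch nil) = L ch := by simp only [L, if_neg hB2]; ring
      have i3 := i2 (by omega)
      have i4 := ell_ge_one ch h4 (by omega)
      rw [eL, mul_assoc]
      nlinarith
  · intro f g hf hg hBf hBg ⟨i1, j1⟩ ⟨i2, j2⟩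
    rw [N3_cat, L_cat, A_cat, pow_add, r_cat]
    have hEf : (2 : ℚ) ≤ 2 ^ A f := two_le_pow (A_pos f hf hBf)
    have hEg : (2 : ℚ) ≤ 2 ^ A g := two_le_pow (A_pos g hg hBg)
    have nf := N3_nonneg f
    have ng := N3_nonneg g
    refine ⟨by nlinarith, fun hr => ?_⟩
    have e : (2 : ℚ) ^ A f * 2 ^ A g * (L f + L g)
        = (2 ^ A f * L f) * 2 ^ A g + 2 ^ A f * (2 ^ A g * L g) := by ring
    rw [e]
    have lf : 0 ≤ 2 ^ A f * L f := mul_nonneg (by positivity) (L_nonneg f)
    have lg : 0 ≤ 2 ^ A g * L g := mul_nonneg (by positivity) (L_nonneg g)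
    by_cases h1 : r f = 1
    · have a := j1 h1
      generalize (2 : ℚ) ^ A f * L f = lf' at *
      generalize (2 : ℚ) ^ A g * L g = lg' at *
      generalize (2 : ℚ) ^ A f = Ef at *
      generalize (2 : ℚ) ^ A g = Eg at *
      have m1 : 0 ≤ Ef * lg' := by positivity
      nlinarith
    · have a := j2 (by omega)
      generalize (2 : ℚ) ^ A f * L f = lf' at *
      generalize (2 : ℚ) ^ A g * L g = lg' at *
      generalize (2 : ℚ) ^ A f = Ef at *
      generalize (2 : ℚ) ^ A g = Eg at *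
      have m1 : 0 ≤ lf' * Eg := by positivity
      nlinarith

end Fo
end Pool.MP_f7abb8_nt.NU
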