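import Pool.Agent.H.MP_f7abb8_nt.Forest4

set_option autoImplicit false

namespace Pool.MP_f7abb8_nt.NU
namespace Fo

theorem PR_pos {q : ℕ} (hq : 1 ≤ q) : ∀ f : Fo, valid q f → 1 ≤ PR f := by
  intro f
  induction f with
  | nil => intro _; simp [PR]
  | node p al be ch rest ih1 ih2 =>
    intro hf
    obtain ⟨h1, h2, h3, h4, h5⟩ := hf
    have i1 := ih1 h4
    have i2 := ih2 h5
    have hp : 1 ≤ p := by
      have e1 : 2 ≤ 2 ^ al := by
        calc 2 = 2 ^ 1 := by norm_num
          _ ≤ 2 ^ al := Nat.pow_le_pow_right (by norm_num) h2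
      have e2 : 1 ≤ q ^ be := Nat.one_le_pow _ _ hq
      have e3 : 2 * 1 * 1 ≤ 2 ^ al * q ^ be * PR ch := Nat.mul_le_mul (Nat.mul_le_mul e1 e2) i1
      omega
    simp only [PR]
    exact Nat.mul_pos hp i2

noncomputable def U (q : ℕ) (f : Fo) : ℚ := (PR f : ℚ) / (2 ^ A f * (q : ℚ) ^ B f)

theorem U_pos {q : ℕ} (hq : 1 ≤ q) (f : Fo) (hf : valid q f) : 0 < U q f := by
  unfold U
  have h1 : (0 : ℚ) < PR f := by exact_mod_cast PR_pos hq f hf
  have h2 : (0 : ℚ) < q := by exact_mod_cast hq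
  positivity

theorem U_cat (q : ℕ) (f g : Fo) : U q (cat f g) = U q f * U q g := by
  unfold U
  rw [PR_cat, A_cat, B_cat, pow_add, pow_add]
  push_cast
  rw [div_mul_div_comm]
  congr 1
  ring

theorem U_tree {q : ℕ} (hq : 1 ≤ q) (p al be : ℕ) (ch : Fo)
    (hv : valid q (node p al be ch nil)) :
    U q (node p al be ch nil)
      = U q ch - (1 / 2 : ℚ) ^ (al + A ch) * (1 / (q : ℚ)) ^ (be + B ch) := by
  obtain ⟨h1, h2, h3, h4, h5⟩ := hv
  unfold U
  have hp : (p : ℚ) = 2 ^ al * (q : ℚ) ^ be * PR ch - 1 := by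
    have : ((p + 1 : ℕ) : ℚ) = ((2 ^ al * q ^ be * PR ch : ℕ) : ℚ) := by rw [h1]
    push_cast at this
    linarith
  have hq0 : (q : ℚ) ≠ 0 := by
    have : (0 : ℚ) < q := by exact_mod_cast hq
    exact this.ne'
  simp only [PR, A, B]
  push_cast
  rw [hp]
  have e : (1 / 2 : ℚ) ^ (al + A ch) * (1 / (q : ℚ)) ^ (be + B ch)
      = 1 / (2 ^ (al + A ch) * (q : ℚ) ^ (be + B ch)) := by
    rw [one_div_pow, one_div_pow, one_div_mul_one_div]
  rw [e]
  simp only [add_zero, mul_one]
  rw [pow_add, pow_add]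
  field_simp

theorem U_le_one {q : ℕ} (hq : 1 ≤ q) : ∀ f : Fo, valid q f → U q f ≤ 1 := by
  intro f hf
  refine vind (q := q) (P := fun f => U q f ≤ 1) ?_ ?_ ?_ f hf
  · simp [U, PR, A, B]
  · intro p al be ch hv ih
    rw [U_tree hq p al be ch hv]
    have hq0 : (0 : ℚ) < q := by exact_mod_cast hq
    have : (0 : ℚ) < (1 / 2 : ℚ) ^ (al + A ch) * (1 / (q : ℚ)) ^ (be + B ch) := by positivity
    linarith
  · intro f g hf hg _ _ i1 i2
    rw [U_cat]
    have := U_pos hq f hf
    have := U_pos hq g hg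
    exact mul_le_one₀ i1 this.le i2

theorem U_claim {q : ℕ} (hq : 1 ≤ q) : ∀ f : Fo, valid q f →
    (r f = 1 → U q f * q ≤ q - L f) ∧ U q f * (q + L f) ≤ q := by
  intro f hf
  have hq0 : (0 : ℚ) < q := by exact_mod_cast hq
  refine vind (q := q) (P := fun f =>
    (r f = 1 → U q f * q ≤ q - L f) ∧ U q f * (q + L f) ≤ q) ?_ ?_ ?_ f hf
  · simp [U, PR, A, B, L, r]
  · intro p al be ch hv ⟨i1, i2⟩
    have hv' := hv
    obtain ⟨h1, h2, h3, h4, h5⟩ := hv
    by_cases hB : B (node p al be ch nil) = 1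
    · obtain ⟨b1, b2, b3, b4⟩ := B_one _ hv' hB
      have hE : (0 : ℚ) < 2 ^ A (node p al be ch nil) := by positivity
      have e : U q (node p al be ch nil) * q = q - L (node p al be ch nil) := by
        unfold U
        rw [hB, pow_one]
        have h4 : (PR (node p al be ch nil) : ℚ) = 2 ^ A (node p al be ch nil) * q
            + (C (node p al be ch nil) : ℚ) := by exact_mod_cast b4
        rw [h4]
        have h5 : (C (node p al be ch nil) : ℚ) =
          -(2 ^ A (node p al be ch nil) * L (node p al be ch nil)) := by linarith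
        rw [h5]
        field_simp
        ring
      have hL := L_nonneg (node p al be ch nil)
      refine ⟨fun _ => e.le, ?_⟩
      have e2 : U q (node p al be ch nil) * (q + L (node p al be ch nil)) * q
          ≤ q * q := by
        have : U q (node p al be ch nil) * (q + L (node p al be ch nil)) * q
          = (U q (node p al be ch nil) * q) * (q + L (node p al be ch nil)) := by ring
        rw [this, e]
        nlinarith
      exact le_of_mul_le_mul_right e2 hq0
    · simp only [B] at hB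
      have hB2 : ¬ (be + B ch = 1) := by omega
      have hne : ¬ (be = 1 ∧ B ch = 0) := by omega
      have eL : L (node p al be ch nil) = L ch := by simp only [L, if_neg hB2]; ring
      have hU : U q (node p al be ch nil) ≤ U q ch := by
        rw [U_tree hq p al be ch hv']
        have : (0 : ℚ) < (1 / 2 : ℚ) ^ (al + A ch) * (1 / (q : ℚ)) ^ (be + B ch) := by positivity
        linarith
      have hL := L_nonneg ch
      rw [eL]
      refine ⟨fun hr => ?_, ?_⟩
      · simp only [r, if_neg hne] at hr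
        have := i1 (by omega)
        nlinarith
      · nlinarith
  · intro f g hf hg hBf hBg ⟨i1, j1⟩ ⟨i2, j2⟩
    rw [U_cat, L_cat, r_cat]
    have uf := U_pos hq f hf
    have ug := U_pos hq g hg
    have uf1 := U_le_one hq f hf
    have ug1 := U_le_one hq g hg
    have lf := L_nonneg f
    have lg := L_nonneg g
    refine ⟨fun hr => ?_, ?_⟩
    · by_cases h1 : r f = 1
      · have := r_zero_L g hg (by omega)
        rw [this, add_zero]
        have a := i1 h1
        have : U q f * U q g * q ≤ U q f * q := by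
          have : 0 ≤ U q f * q := by positivity
          nlinarith
        linarith
      · have := r_zero_L f hf (by omega)
        rw [this, zero_add]
        have a := i2 (by omega)
        have : U q f * U q g * q ≤ U q g * q := by
          have : 0 ≤ U q g * q := by positivity
          nlinarith
        linarith
    · have m : (U q f * (q + L f)) * (U q g * (q + L g)) ≤ q * q :=
        mul_le_mul j1 j2 (by positivity) hq0.le
      have m2 : (U q f * U q g) * (q + (L f + L g)) * q ≤ q * q := by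
        have h0 : 0 ≤ U q f * U q g * (L f * L g) := by positivity
        nlinarith
      exact le_of_mul_le_mul_right m2 hq0

theorem Y_nonneg (q : ℚ) (hq : 0 < q) : ∀ f : Fo, 0 ≤ Y q f := by
  intro f
  induction f with
  | nil => simp [Y]
  | node p al be ch rest ih1 ih2 => simp only [Y]; positivity

theorem U_Y {q : ℕ} (hq : 1 ≤ q) : ∀ f : Fo, valid q f → 1 - U q f ≤ Y (q : ℚ) f := by
  intro f hf
  have hq0 : (0 : ℚ) < q := by exact_mod_cast hq
  refine vind (q := q) (P := fun f => 1 - U q f ≤ Y (q : ℚ) f) ?_ ?_ ?_ f hf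
  · simp [U, PR, A, B, Y]
  · intro p al be ch hv ih
    rw [U_tree hq p al be ch hv]
    simp only [Y]
    linarith
  · intro f g hf hg _ _ i1 i2
    rw [U_cat, Y_cat]
    have uf := U_pos hq f hf
    have ug := U_pos hq g hg
    have uf1 := U_le_one hq f hf
    have ug1 := U_le_one hq g hg
    nlinarith

theorem Y_split {q : ℕ} (hq : 1 ≤ q) : ∀ f : Fo, valid q f →
    Y (q : ℚ) f * q ^ 3 ≤ L f * q ^ 2 + (Ka f + Kb f) * q + N3 f / 2 := by
  intro f
  have hq0 : (0 : ℚ) < q := by exact_mod_cast hq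
  have hq1 : (1 : ℚ) ≤ q := by exact_mod_cast hq
  induction f with
  | nil => intro _; simp [Y, L, Ka, Kb, N3]
  | node p al be ch rest ih1 ih2 =>
    intro hf
    obtain ⟨h1, h2, h3, h4, h5⟩ := hf
    have i1 := ih1 h4
    have i2 := ih2 h5
    have key : (1 / 2 : ℚ) ^ (al + A ch) * (1 / (q : ℚ)) ^ (be + B ch) * q ^ 3 ≤
        (if be + B ch = 1 then (1 / 2 : ℚ) ^ (al + A ch) else 0) * q ^ 2
        + ((if be + B ch = 2 ∧ r ch = 0 ∧ ¬ (be = 1 ∧ B ch = 0)
            then (1 / 2 : ℚ) ^ (al + A ch) else 0)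
          + (if be + B ch = 2 ∧ 1 ≤ r ch then (1 / 2 : ℚ) ^ (al + A ch) else 0)) * q
        + (if 3 ≤ be + B ch then (1 : ℚ) else 0) / 2 := by
      rcases Nat.lt_or_ge (be + B ch) 3 with hlt | hge
      · rw [if_neg (show ¬ (3 ≤ be + B ch) by omega)]
        rcases (show be + B ch = 1 ∨ be + B ch = 2 by omega) with h | h
        · rw [h, if_pos rfl]
          rw [if_neg (show ¬ (1 = 2 ∧ r ch = 0 ∧ ¬ (be = 1 ∧ B ch = 0)) by omega),
            if_neg (show ¬ (1 = 2 ∧ 1 ≤ r ch) by omega)]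
          have : (1 / 2 : ℚ) ^ (al + A ch) * (1 / (q : ℚ)) ^ 1 * q ^ 3
            = (1 / 2 : ℚ) ^ (al + A ch) * q ^ 2 := by field_simp
          rw [this]; linarith
        · rw [h, if_neg (show ¬ (2 = 1) by omega)]
          have e : (1 / 2 : ℚ) ^ (al + A ch) * (1 / (q : ℚ)) ^ 2 * q ^ 3
            = (1 / 2 : ℚ) ^ (al + A ch) * q := by field_simp
          rw [e]
          by_cases hr : r ch = 0
          · rw [if_pos (show 2 = 2 ∧ r ch = 0 ∧ ¬ (be = 1 ∧ B ch = 0) by
              refine ⟨rfl, hr, by omega⟩),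
              if_neg (show ¬ (2 = 2 ∧ 1 ≤ r ch) by omega)]
            linarith
          · rw [if_neg (show ¬ (2 = 2 ∧ r ch = 0 ∧ ¬ (be = 1 ∧ B ch = 0)) by omega),
              if_pos (show 2 = 2 ∧ 1 ≤ r ch by omega)]
            linarith
      · rw [if_pos hge, if_neg (show ¬ (be + B ch = 1) by omega),
          if_neg (show ¬ (be + B ch = 2 ∧ r ch = 0 ∧ ¬ (be = 1 ∧ B ch = 0)) by omega),
          if_neg (show ¬ (be + B ch = 2 ∧ 1 ≤ r ch) by omega)]
        have e1 : (1 / 2 : ℚ) ^ (al + A ch) ≤ 1 / 2 := by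
          have := pow_le_pow_of_le_one (by norm_num : (0 : ℚ) ≤ 1 / 2) (by norm_num)
            (show 1 ≤ al + A ch by omega)
          simpa using this
        have e2 : (1 / (q : ℚ)) ^ (be + B ch) ≤ (1 / (q : ℚ)) ^ 3 := by
          apply pow_le_pow_of_le_one (by positivity) _ hge
          rw [div_le_one hq0]; exact hq1
        have e3 : (1 / (q : ℚ)) ^ 3 * q ^ 3 = 1 := by field_simp
        have e4 : (0 : ℚ) ≤ (1 / (q : ℚ)) ^ (be + B ch) := by positivity
        have e5 : (0 : ℚ) < q ^ 3 := by positivity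
        calc (1 / 2 : ℚ) ^ (al + A ch) * (1 / (q : ℚ)) ^ (be + B ch) * q ^ 3
            ≤ (1 / 2) * (1 / (q : ℚ)) ^ 3 * q ^ 3 := by
              apply mul_le_mul_of_nonneg_right _ e5.le
              exact mul_le_mul e1 e2 e4 (by norm_num)
          _ = 1 / 2 := by rw [mul_assoc, e3]; norm_num
          _ ≤ _ := by norm_num
    simp only [Y, L, Ka, Kb, N3]
    linarith

theorem PR_mod3 : ∀ f : Fo, (∀ p ∈ nl f, p % 3 = 1) → PR f % 3 = 1 := by
  intro f
  induction f with
  | nil => intro _; rfl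
  | node p al be ch rest ih1 ih2 =>
    intro h
    simp only [nl] at h
    have hp : p % 3 = 1 := h p (by simp)
    have hr := ih2 (fun x hx => h x (by simp [hx]))
    simp only [PR]
    rw [Nat.mul_mod, hp, hr]

theorem pow_two_mod3 (k : ℕ) : (Odd k ∧ 2 ^ k % 3 = 2) ∨ (Even k ∧ 2 ^ k % 3 = 1) := by
  rcases Nat.even_or_odd k with h | h
  · right
    refine ⟨h, ?_⟩
    obtain ⟨m, rfl⟩ := h
    rw [← two_mul, pow_mul, Nat.pow_mod]
    norm_num
  · left
    refine ⟨h, ?_⟩
    obtain ⟨m, rfl⟩ := h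
    rw [pow_succ, pow_mul, Nat.mul_mod, Nat.pow_mod]
    norm_num

theorem oddal_of {q : ℕ} (hq : q % 3 = 1) : ∀ f : Fo, valid q f →
    (∀ p ∈ nl f, p % 3 = 1) → ∀ a ∈ l2 f, Odd a := by
  intro f
  induction f with
  | nil => intro _ _ a ha; simp [l2] at ha
  | node p al be ch rest ih1 ih2 =>
    intro hf h a ha
    obtain ⟨h1, h2, h3, h4, h5⟩ := hf
    simp only [nl] at h
    have hp : p % 3 = 1 := h p (by simp)
    have hc := PR_mod3 ch (fun x hx => h x (by simp [hx]))
    have i1 := ih1 h4 (fun x hx => h x (by simp [hx]))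
    have i2 := ih2 h5 (fun x hx => h x (by simp [hx]))
    simp only [l2] at ha
    rcases Multiset.mem_add.1 ha with ha | ha
    · rcases Multiset.mem_add.1 ha with ha | ha
      · split_ifs at ha with hl
        · have : a = al := by simpa using ha
          subst this
          rcases pow_two_mod3 a with ⟨h, _⟩ | ⟨_, h6⟩
          · exact h
          · exfalso
            have e : (p + 1) % 3 = 2 := by omega
            have hqb : q ^ be % 3 = 1 := by
              rw [Nat.pow_mod, hq]; simp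
            rw [h1, Nat.mul_mod, Nat.mul_mod (2 ^ a), h6, hqb, hc] at e
            norm_num at e
        · simp at ha
      · exact i1 a ha
    · exact i2 a ha

theorem l2_pos {q : ℕ} : ∀ f : Fo, valid q f → ∀ a ∈ l2 f, 1 ≤ a := by
  intro f
  induction f with
  | nil => intro _ a ha; simp [l2] at ha
  | node p al be ch rest ih1 ih2 =>
    intro hf a ha
    obtain ⟨h1, h2, h3, h4, h5⟩ := hf
    simp only [l2] at ha
    rcases Multiset.mem_add.1 ha with ha | ha
    · rcases Multiset.mem_add.1 ha with ha | ha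
      · split_ifs at ha with hl
        · have : a = al := by simpa using ha
          omega
        · simp at ha
      · exact ih1 h4 a ha
    · exact ih2 h5 a ha

theorem l2_le {q : ℕ} : ∀ f : Fo, valid q f →
    (l2 f).map (fun a => 2 ^ a * q ^ 2 - 1) ≤ nl f := by
  intro f
  induction f with
  | nil => intro _; simp [l2, nl]
  | node p al be ch rest ih1 ih2 =>
    intro hf
    obtain ⟨h1, h2, h3, h4, h5⟩ := hf
    have i1 := ih1 h4
    have i2 := ih2 h5
    simp only [l2, nl, Multiset.map_add]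
    refine add_le_add (add_le_add ?_ i1) i2
    split_ifs with hl
    · obtain ⟨hb, hB⟩ := hl
      have := eq_nil ch h4 hB
      subst this
      subst hb
      simp only [PR, mul_one] at h1
      have : 2 ^ al * q ^ 2 - 1 = p := by omega
      simp [this]
    · simp

theorem l2_nodup {q : ℕ} (f : Fo) (hf : valid q f) (hn : (nl f).Nodup) : (l2 f).Nodup :=
  Multiset.Nodup.of_map _ (Multiset.nodup_of_le (l2_le f hf) hn)

theorem s2_eq : ∀ f : Fo, s2 f = ((l2 f).map (fun a => 2 * (1 / 2 : ℚ) ^ a)).sum := by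
  intro f
  induction f with
  | nil => simp [s2, l2]
  | node p al be ch rest ih1 ih2 =>
    simp only [s2, l2, Multiset.map_add, Multiset.sum_add, ih1, ih2]
    congr 2
    split_ifs <;> simp

theorem geom_lt (N : ℕ) : ∑ a ∈ Finset.range (N + 1), (if a = 0 then 0 else 2 * (1 / 2 : ℚ) ^ a)
    = 2 - 2 * (1 / 2) ^ N := by
  induction N with
  | zero => simp
  | succ N ih =>
    rw [Finset.sum_range_succ, ih, if_neg (by omega), pow_succ]
    ring

theorem sum_lt_two (s : Finset ℕ) (hs : ∀ a ∈ s, 1 ≤ a) :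
    ∑ a ∈ s, 2 * (1 / 2 : ℚ) ^ a < 2 := by
  have h1 : ∑ a ∈ s, 2 * (1 / 2 : ℚ) ^ a
      = ∑ a ∈ s, (if a = 0 then 0 else 2 * (1 / 2 : ℚ) ^ a) := by
    apply Finset.sum_congr rfl
    intro a ha
    rw [if_neg (by have := hs a ha; omega)]
  have h2 : ∑ a ∈ s, (if a = 0 then 0 else 2 * (1 / 2 : ℚ) ^ a)
      ≤ ∑ a ∈ Finset.range (s.sup id + 1), (if a = 0 then 0 else 2 * (1 / 2 : ℚ) ^ a) := by
    apply Finset.sum_le_sum_of_subset_of_nonneg
    · intro a ha
      rw [Finset.mem_range]
      have : id a ≤ s.sup id := Finset.le_sup ha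
      simp only [id] at this
      omega
    · intro i _ _
      split_ifs <;> positivity
  have h3 := geom_lt (s.sup id)
  have h4 : (0 : ℚ) < 2 * (1 / 2) ^ (s.sup id) := by positivity
  rw [h1]; linarith

theorem s2_lt {q : ℕ} (f : Fo) (hf : valid q f) (hn : (nl f).Nodup) : s2 f < 2 := by
  have h1 := l2_nodup f hf hn
  have h2 : s2 f = ∑ a ∈ (⟨l2 f, h1⟩ : Finset ℕ), 2 * (1 / 2 : ℚ) ^ a := s2_eq f
  rw [h2]
  apply sum_lt_two
  intro a ha
  exact l2_pos f hf a ha

theorem s2_le_one {q : ℕ} (f : Fo) (hf : valid q f) (hn : (nl f).Nodup)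
    (h : ∀ a ∈ l2 f, a = 1) : s2 f ≤ 1 := by
  have h1 := l2_nodup f hf hn
  have h2 : s2 f = ∑ a ∈ (⟨l2 f, h1⟩ : Finset ℕ), 2 * (1 / 2 : ℚ) ^ a := s2_eq f
  rw [h2]
  have h3 : (⟨l2 f, h1⟩ : Finset ℕ) ⊆ {1} := by
    intro a ha
    rw [Finset.mem_singleton]
    exact h a ha
  calc ∑ a ∈ (⟨l2 f, h1⟩ : Finset ℕ), 2 * (1 / 2 : ℚ) ^ a
      ≤ ∑ a ∈ ({1} : Finset ℕ), 2 * (1 / 2 : ℚ) ^ a := by
        apply Finset.sum_le_sum_of_subset_of_nonneg h3
        intro i _ _; positivity
    _ = 1 := by norm_num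

end Fo
end Pool.MP_f7abb8_nt.NU
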