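import Pool.Agent.H.MP_f7abb8_nt.OddCase

set_option autoImplicit false

namespace Pool.MP_f7abb8_nt.NU

theorem decomp1 (n p : ℕ) (hn : n ≠ 0) (hp : p.Prime) (hpn : p ^ 2 ∣ n) :
    ∃ m k, 1 ≤ k ∧ n = m * p ^ (k + 1) ∧ ¬ p ∣ m ∧ m ≠ 0 := by
  have h1 : 2 ≤ n.factorization p := (hp.pow_dvd_iff_le_factorization hn).1 hpn
  obtain ⟨k, hk⟩ : ∃ k, n.factorization p = k + 1 := ⟨n.factorization p - 1, by omega⟩
  have h2 : p ^ n.factorization p * (n / p ^ n.factorization p) = n :=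
    Nat.ordProj_mul_ordCompl_eq_self n p
  refine ⟨n / p ^ n.factorization p, k, by omega, ?_, ?_, ?_⟩
  · rw [← hk, mul_comm]; exact h2.symm
  · exact Nat.not_dvd_ordCompl hp hn
  · intro h; rw [h, mul_zero] at h2; exact hn h2.symm

theorem main_one (n p : ℕ) (hn : n ≠ 0) (hperf : ns n = n)
    (hP : n.primeFactors.filter (fun p => p ^ 2 ∣ n) = {p}) :
    ∃ P : ℕ, (2 ^ P - 1).Prime ∧ n = 2 ^ (P + 1) * (2 ^ P - 1) := by
  have hpm : p ∈ n.primeFactors.filter (fun p => p ^ 2 ∣ n) := by rw [hP]; simp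
  obtain ⟨hp1, hp2⟩ := Finset.mem_filter.1 hpm
  have hp := Nat.prime_of_mem_primeFactors hp1
  obtain ⟨m, k, hk, hnm, hpd, hm0⟩ := decomp1 n p hn hp hp2
  have hm : Squarefree m := by
    rw [Nat.squarefree_iff_prime_squarefree]
    intro x hx hxm
    have h1 : x ^ 2 ∣ n := by
      rw [hnm, sq]; exact Dvd.dvd.mul_right hxm _
    have h2 : x ∈ n.primeFactors.filter (fun p => p ^ 2 ∣ n) := by
      refine Finset.mem_filter.2 ⟨Nat.mem_primeFactors.2 ⟨hx, ?_, hn⟩, h1⟩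
      exact (dvd_pow_self x (by omega)).trans h1
    rw [hP, Finset.mem_singleton] at h2
    apply hpd
    rw [← h2]
    exact (Dvd.intro x rfl).trans hxm
  have hcop : Nat.Coprime m (p ^ (k + 1)) :=
    Nat.Coprime.pow_right _ ((Nat.Prime.coprime_iff_not_dvd hp).2 hpd).symm
  have hE : sg m * T p k = m * p ^ (k + 1) := by
    rw [← ns_prime_pow hp, ← ns_mul hcop hm (pow_ne_zero _ hp.ne_zero), ← hnm, hperf]
  rw [hnm]
  exact one_case p k m hk hp hm hpd hE

theorem main_two (n p q : ℕ) (hn : n ≠ 0) (hperf : ns n = n) (hpq : p < q)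
    (hP : n.primeFactors.filter (fun p => p ^ 2 ∣ n) = {p, q}) : False := by
  have hpm : p ∈ n.primeFactors.filter (fun p => p ^ 2 ∣ n) := by rw [hP]; simp
  have hqm : q ∈ n.primeFactors.filter (fun p => p ^ 2 ∣ n) := by rw [hP]; simp
  obtain ⟨hp1, hp2⟩ := Finset.mem_filter.1 hpm
  obtain ⟨hq1, hq2⟩ := Finset.mem_filter.1 hqm
  have hp := Nat.prime_of_mem_primeFactors hp1
  have hq := Nat.prime_of_mem_primeFactors hq1
  obtain ⟨m1, k, hk, hnm1, hpd1, hm10⟩ := decomp1 n p hn hp hp2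
  have hcopqp : Nat.Coprime (q ^ 2) (p ^ (k + 1)) :=
    Nat.Coprime.pow _ _ ((Nat.coprime_primes hq hp).2 (by omega))
  have hq2' : q ^ 2 ∣ m1 := by
    rw [hnm1] at hq2
    exact hcopqp.dvd_of_dvd_mul_right hq2
  obtain ⟨m, l, hl, hnm2, hqd, hm0⟩ := decomp1 m1 q hm10 hq hq2'
  have hpd : ¬ p ∣ m := fun h => hpd1 (by rw [hnm2]; exact Dvd.dvd.mul_right h _)
  have hnm : n = m * (p ^ (k + 1) * q ^ (l + 1)) := by rw [hnm1, hnm2]; ring
  have hm : Squarefree m := by
    rw [Nat.squarefree_iff_prime_squarefree]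
    intro x hx hxm
    have h1 : x ^ 2 ∣ n := by
      rw [hnm, sq]; exact Dvd.dvd.mul_right hxm _
    have h2 : x ∈ n.primeFactors.filter (fun p => p ^ 2 ∣ n) := by
      refine Finset.mem_filter.2 ⟨Nat.mem_primeFactors.2 ⟨hx, ?_, hn⟩, h1⟩
      exact (dvd_pow_self x (by omega)).trans h1
    have h3 : x ∣ m := (Dvd.intro x rfl).trans hxm
    rw [hP, Finset.mem_insert, Finset.mem_singleton] at h2
    rcases h2 with h2 | h2
    · exact hpd (h2 ▸ h3)
    · exact hqd (h2 ▸ h3)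
  have hcop : Nat.Coprime m (p ^ (k + 1) * q ^ (l + 1)) :=
    Nat.Coprime.mul_right
      (Nat.Coprime.pow_right _ ((Nat.Prime.coprime_iff_not_dvd hp).2 hpd).symm)
      (Nat.Coprime.pow_right _ ((Nat.Prime.coprime_iff_not_dvd hq).2 hqd).symm)
  have hM0 : p ^ (k + 1) * q ^ (l + 1) ≠ 0 :=
    mul_ne_zero (pow_ne_zero _ hp.ne_zero) (pow_ne_zero _ hq.ne_zero)
  have hE : sg m * ns (p ^ (k + 1) * q ^ (l + 1)) = m * (p ^ (k + 1) * q ^ (l + 1)) := by
    rw [← ns_mul hcop hm hM0, ← hnm, hperf]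
  have hqo : Odd q := by
    rcases hq.eq_two_or_odd' with h | h
    · exfalso; have := hp.two_le; omega
    · exact h
  rcases hp.eq_two_or_odd' with h2 | hpo
  · -- p = 2
    subst h2
    have hmo : Odd m := by
      rw [← Nat.not_even_iff_odd]
      intro h; exact hpd h.two_dvd
    have h2 := ns_two (k := k) (l := l) hp hq (by omega)
    have hT : T 2 k + 2 = 2 ^ (k + 1) := by
      have h1 := T_geom 2 k
      have h2 : ((T 2 k + 2 : ℕ) : ℤ) = ((2 ^ (k + 1) : ℕ) : ℤ) := by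
        push_cast at h1 ⊢; linarith
      exact_mod_cast h2
    have h4 : 4 ≤ 2 ^ (k + 1) := by
      calc 4 = 2 ^ 2 := by norm_num
        _ ≤ 2 ^ (k + 1) := Nat.pow_le_pow_right (by norm_num) (by omega)
    refine two_even (k + 1) l q m (ns (2 ^ (k + 1) * q ^ (l + 1))) (by omega) hl hq hqo hm hmo hqd
      ?_ hE
    obtain ⟨W, hW⟩ : ∃ W, 2 ^ (k + 1) = W + 2 := ⟨2 ^ (k + 1) - 2, by omega⟩
    have hTW : T 2 k = W := by omega
    rw [pow_succ 2 (k + 1)]
    rw [hTW] at h2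
    rw [hW] at h2 ⊢
    have e1 : W + 2 - 2 = W := by omega
    have e2 : (W + 2) * 2 - 1 = 2 * W + 3 := by omega
    rw [e1, e2]
    have e3 : (1 + W + (W + 2)) * (1 + T q l + q ^ (l + 1))
        = (1 + (W + 2)) * (1 + q ^ (l + 1))
          + (W * (q ^ (l + 1) + 1) + (2 * W + 3) * T q l) := by ring
    rw [e3] at h2
    exact Nat.add_left_cancel h2
  · have hp3 : 3 ≤ p := by
      have := hp.two_le
      have := Nat.odd_iff.1 hpo
      omega
    rcases Nat.even_or_odd m with hme | hmo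
    · exact two_exact p q k l m hk hl hp hq hp3 hpq hm hme hpo hqo hpd hqd hE
    · exact odd_case p q k l m hp hq hp3 hpq hm hmo hpo hqo hE

theorem main (n : ℕ) (hn : 0 < n)
    (hperf : ∑ d ∈ n.divisors.filter (fun d => 1 < Nat.gcd d (n / d)), d = n)
    (hcard : (n.primeFactors.filter (fun p => p ^ 2 ∣ n)).card ≤ 2) :
    ∃ p : ℕ, Nat.Prime (2 ^ p - 1) ∧ n = 2 ^ (p + 1) * (2 ^ p - 1) := by
  have hn0 : n ≠ 0 := by omega
  have hperf' : ns n = n := hperf
  rcases (show (n.primeFactors.filter (fun p => p ^ 2 ∣ n)).card = 0 ∨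
    (n.primeFactors.filter (fun p => p ^ 2 ∣ n)).card = 1 ∨
    (n.primeFactors.filter (fun p => p ^ 2 ∣ n)).card = 2 by omega) with h | h | h
  · exfalso
    rw [Finset.card_eq_zero] at h
    have hsq : Squarefree n := by
      rw [Nat.squarefree_iff_prime_squarefree]
      intro x hx hxm
      have h2 : x ∈ n.primeFactors.filter (fun p => p ^ 2 ∣ n) := by
        refine Finset.mem_filter.2 ⟨Nat.mem_primeFactors.2 ⟨hx, (Dvd.intro x rfl).trans hxm, hn0⟩, ?_⟩
        rw [sq]; exact hxm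
      rw [h] at h2
      simp at h2
    have h1 := sg_eq n hn0
    rw [us_sqfree hsq] at h1
    omega
  · obtain ⟨p, hp⟩ := Finset.card_eq_one.1 h
    exact main_one n p hn0 hperf' hp
  · exfalso
    obtain ⟨p, q, hpq, hP⟩ := Finset.card_eq_two.1 h
    rcases lt_or_gt_of_ne hpq with hlt | hlt
    · exact main_two n p q hn0 hperf' hlt hP
    · exact main_two n q p hn0 hperf' hlt (by rw [hP, Finset.pair_comm])

end Pool.MP_f7abb8_nt.NU
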