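import Pool.Agent.H.MP_f7abb8_nt.Forest5

set_option autoImplicit false

namespace Pool.MP_f7abb8_nt.NU

/-- `q + q^2 + ⋯ + q^k`. -/
def T (q k : ℕ) : ℕ := ∑ i ∈ Finset.range k, q ^ (i + 1)

theorem T_succ (q k : ℕ) : T q (k + 1) = T q k + q ^ (k + 1) := by
  unfold T; rw [Finset.sum_range_succ]

theorem T_geom (q k : ℕ) : ((q : ℤ) - 1) * (T q k : ℤ) = (q : ℤ) ^ (k + 1) - q := by
  induction k with
  | zero => simp [T]
  | succ k ih =>
    rw [T_succ]; push_cast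
    rw [mul_add, ih]; ring

theorem T_dvd (q k : ℕ) : q ∣ T q k := by
  unfold T
  apply Finset.dvd_sum
  intro i _
  exact dvd_pow_self q (by omega)

theorem T_parity (q k : ℕ) (hq : Odd q) : T q k % 2 = k % 2 := by
  induction k with
  | zero => simp [T]
  | succ k ih =>
    rw [T_succ, Nat.add_mod, ih]
    have : q ^ (k + 1) % 2 = 1 := Nat.odd_iff.1 (hq.pow)
    rw [this]; omega

theorem T_mod3_one (q k : ℕ) (hq : q % 3 = 1) : T q k % 3 = k % 3 := by
  induction k with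
  | zero => simp [T]
  | succ k ih =>
    rw [T_succ, Nat.add_mod, ih]
    have : q ^ (k + 1) % 3 = 1 := by rw [Nat.pow_mod, hq]; simp
    rw [this]; omega

theorem pow_mod3_two (q k : ℕ) (hq : q % 3 = 2) :
    (Even k → q ^ k % 3 = 1) ∧ (Odd k → q ^ k % 3 = 2) := by
  constructor
  · rintro ⟨m, rfl⟩
    rw [← two_mul, pow_mul, Nat.pow_mod, Nat.pow_mod q, hq]
    norm_num
  · rintro ⟨m, rfl⟩
    rw [pow_succ, pow_mul, Nat.mul_mod, Nat.pow_mod, Nat.pow_mod q, hq]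
    norm_num

theorem T_mod3_two (q k : ℕ) (hq : q % 3 = 2) :
    (Even k → T q k % 3 = 0) ∧ (Odd k → T q k % 3 = 2) := by
  induction k with
  | zero => simp [T]
  | succ k ih =>
    have h1 := pow_mod3_two q (k + 1) hq
    rw [T_succ, Nat.add_mod]
    constructor
    · intro h
      have : Odd k := by
        rcases Nat.even_or_odd k with hk | hk
        · exfalso; rw [Nat.even_add_one] at h; exact h hk
        · exact hk
      rw [ih.2 this, h1.1 h]
    · intro h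
      have : Even k := by
        rcases Nat.even_or_odd k with hk | hk
        · exact hk
        · exfalso
          have : Even (k + 1) := by rw [Nat.even_add_one]; exact Nat.not_even_iff_odd.2 hk
          exact (Nat.not_even_iff_odd.2 h) this
      rw [ih.1 this, h1.2 h]

open Fo in
/-- The real-number endgame. `W = 2^a`, `x = 1 - U`. -/
theorem endgame (W q w x L K N3 : ℚ) (hW : 4 ≤ W) (hw : 5 ≤ w) (hwW : w ≤ W - 1)
    (hq : q = W - 2 + w)
    (h1 : 2 * w - 5 ≤ W * (q - 1) * x)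
    (h3 : x * q ^ 3 ≤ L * q ^ 2 + K * q + N3 / 2)
    (hL : L = 0) (hK : K ≤ 2) (hN : N3 ≤ W) : False := by
  have hq5 : 5 ≤ q := by linarith
  have hqW : W + 3 ≤ q := by linarith
  subst hL
  have h4 : x * q ^ 2 * q ≤ (K + 1 / 2) * q := by
    have : N3 / 2 ≤ q / 2 := by linarith
    nlinarith
  have h5 : x * q ^ 2 ≤ K + 1 / 2 := le_of_mul_le_mul_right h4 (by linarith)
  have h6 : x * q ^ 2 ≤ 5 / 2 := by linarith
  have h7 : (2 * w - 5) * q ^ 2 ≤ W * (q - 1) * (x * q ^ 2) := by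
    have : 0 ≤ q ^ 2 := by positivity
    nlinarith
  have h8 : W * (q - 1) * (x * q ^ 2) ≤ W * (q - 1) * (5 / 2) := by
    apply mul_le_mul_of_nonneg_left h6
    apply mul_nonneg <;> linarith
  nlinarith

theorem endgame2 (W q w x L : ℚ) (hW : 4 ≤ W) (hw : 3 ≤ w) (hwW : w ≤ W - 1)
    (hq : q = W - 2 + w)
    (h2 : W * q * x < 2 * w - 3)
    (hU : (1 - x) * (q + L) ≤ q) (hL : 2 * (w + 1) ≤ W * L) : False := by
  have hq5 : 5 ≤ q := by linarith
  have hx1 : x < 1 := by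
    have h0 : W * q * x < W * q * 1 := by nlinarith
    exact lt_of_mul_lt_mul_left h0 (by positivity)
  have h3 : L * (1 - x) ≤ q * x := by nlinarith
  have h4 : W * L * (1 - x) ≤ W * q * x := by
    have : W * (L * (1 - x)) ≤ W * (q * x) := mul_le_mul_of_nonneg_left h3 (by linarith)
    linarith
  have h5 : 2 * (w + 1) * (1 - x) ≤ W * L * (1 - x) :=
    mul_le_mul_of_nonneg_right hL (by linarith)
  have h6 : 5 < 2 * (w + 1) * x := by linarith
  have h7 : 5 * (W * q) < 2 * (w + 1) * (W * q * x) := by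
    have : 0 < W * q := by positivity
    nlinarith
  have h8 : 2 * (w + 1) * (W * q * x) ≤ 2 * (w + 1) * (2 * w - 3) :=
    mul_le_mul_of_nonneg_left h2.le (by linarith)
  subst hq
  nlinarith

theorem endgame3 (W q w x L K N3 k : ℚ) (hW : 4 ≤ W) (hw : 5 ≤ w) (hwW : w ≤ W - 1)
    (hq : q = W - 2 + w)
    (h1 : 2 * w - 5 ≤ W * (q - 1) * x)
    (h3 : x * q ^ 3 ≤ L * q ^ 2 + K * q + N3 / 2)
    (hl : W * L = 2 * k) (hk : k ≤ w - 3) (hk1 : 0 ≤ k)
    (hK : K ≤ 1 + L) (hN : N3 + 1 ≤ 2 * k) : False := by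
  have hq5 : 5 ≤ q := by linarith
  have hqW : W + 3 ≤ q := by linarith
  have hL0 : 0 ≤ L := by
    by_contra h
    push Not at h
    nlinarith
  -- multiply h3 by W
  have h4 : W * (x * q ^ 3) ≤ 2 * k * q ^ 2 + (W + 2 * k) * q + k * q := by
    have e1 : W * (x * q ^ 3) ≤ W * (L * q ^ 2 + K * q + N3 / 2) :=
      mul_le_mul_of_nonneg_left h3 (by linarith)
    have e2 : W * (L * q ^ 2 + K * q + N3 / 2)
        = (W * L) * q ^ 2 + W * K * q + W * N3 / 2 := by ring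
    rw [e2, hl] at e1
    have e3 : W * K * q ≤ (W + 2 * k) * q := by
      apply mul_le_mul_of_nonneg_right _ (by linarith)
      nlinarith
    have e4 : W * N3 / 2 ≤ k * q := by nlinarith
    linarith
  have h5 : W * (x * q ^ 2) ≤ 2 * k * q + (W + 2 * k) + k := by
    have : W * (x * q ^ 2) * q ≤ (2 * k * q + (W + 2 * k) + k) * q := by
      calc W * (x * q ^ 2) * q = W * (x * q ^ 3) := by ring
        _ ≤ _ := h4
        _ = _ := by ring
    exact le_of_mul_le_mul_right this (by linarith)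
  have h6 : (2 * w - 5) * (q + 1) * (q - 1) ≤ (2 * k * q + (W + 2 * k) + k) * (q - 1) := by
    have e1 : (2 * w - 5) * q ^ 2 ≤ W * (q - 1) * x * q ^ 2 :=
      mul_le_mul_of_nonneg_right h1 (by positivity)
    have e2 : W * (x * q ^ 2) * (q - 1) ≤ (2 * k * q + (W + 2 * k) + k) * (q - 1) :=
      mul_le_mul_of_nonneg_right h5 (by linarith)
    nlinarith
  have h7 : (2 * w - 5) * (q + 1) ≤ 2 * k * q + (W + 2 * k) + k :=
    le_of_mul_le_mul_right h6 (by linarith)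
  have h8 : (2 * k + 1) * (q + 1) ≤ (2 * w - 5) * (q + 1) :=
    mul_le_mul_of_nonneg_right (by linarith) (by linarith)
  nlinarith

open Fo in
theorem no_forest (f : Fo) (a k q s : ℕ) (hv : valid q f) (ha : 2 ≤ a) (hk : 1 ≤ k)
    (hq : 2 ^ a + 1 ≤ q) (hqo : Odd q) (hs : s + A f = a) (hB : B f = k + 1)
    (hS : ((2 : ℤ) ^ a - 2) * ((q : ℤ) ^ (k + 1) + 1) + (2 ^ (a + 1) - 1) * (T q k : ℤ)
      = 2 ^ s * (PR f : ℤ))
    (h3 : ∀ p ∈ nl f, p % 3 = 1) (hq3 : q % 3 ≠ 0) (hnd : (nl f).Nodup) : False := by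
  have hq1 : 1 ≤ q := by omega
  have hW4 : (4 : ℤ) ≤ 2 ^ a := by
    calc (4 : ℤ) = 2 ^ 2 := by norm_num
      _ ≤ 2 ^ a := pow_le_pow_right₀ (by norm_num) ha
  have hqZ : (2 : ℤ) ^ a + 1 ≤ q := by exact_mod_cast hq
  obtain ⟨c1, c2⟩ := (C_bd f hv).2 (by omega)
  have hprod : (2 : ℤ) ^ s * 2 ^ A f = 2 ^ a := by rw [← pow_add, hs]
  have hs1 : (1 : ℤ) ≤ 2 ^ s := one_le_pow₀ (by norm_num)
  -- the key divisibility
  have hdiv : (q : ℤ) ∣ (2 ^ a - 2) - 2 ^ s * C f := by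
    obtain ⟨y, hy⟩ := C_mod f hv
    have hT : (q : ℤ) ∣ (T q k : ℤ) := by exact_mod_cast T_dvd q k
    obtain ⟨t, ht⟩ := hT
    refine ⟨2 ^ s * y - (2 ^ a - 2) * (q : ℤ) ^ k - (2 ^ (a + 1) - 1) * t, ?_⟩
    have e1 : (PR f : ℤ) = C f + q * y := by linarith
    rw [e1, ht] at hS
    linear_combination hS
  have habs := abs_le.1 (show |C f| ≤ 2 ^ A f - 1 by linarith)
  have hEpos : 0 ≤ (2 ^ a - 2) - 2 ^ s * C f := by
    have : 2 ^ s * C f ≤ 2 ^ s * (2 ^ A f - 2) := mul_le_mul_of_nonneg_left (by linarith) (by linarith)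
    nlinarith
  have hElt : (2 ^ a - 2) - 2 ^ s * C f < 2 * (q : ℤ) := by
    have : 2 ^ s * (-(2 ^ A f - 1)) ≤ 2 ^ s * C f := mul_le_mul_of_nonneg_left habs.1 (by linarith)
    nlinarith
  have hCodd := C_odd f hv
  have hEne : (2 ^ a - 2) - 2 ^ s * C f ≠ 0 := by
    intro h0
    have h1 : 2 ^ s * C f ≤ 2 ^ s * (2 ^ A f - 2) := mul_le_mul_of_nonneg_left (by linarith) (by linarith)
    have h2 : (2 : ℤ) ^ s ≤ 1 := by nlinarith
    have h2' : (2 : ℤ) ^ s = 1 := by linarith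
    rw [h2', one_mul] at h0
    have h5 : Even (C f) := by
      have : C f = 2 ^ a - 2 := by linarith
      rw [this]
      refine Even.sub ?_ (by decide)
      exact (Int.even_pow).2 ⟨by decide, by omega⟩
    exact (Int.not_even_iff_odd.2 hCodd) h5
  have hEq : (2 ^ a - 2) - 2 ^ s * C f = (q : ℤ) := by
    obtain ⟨z, hz⟩ := hdiv
    have hqpos : (0 : ℤ) < q := by linarith
    have z1 : z < 2 := by
      by_contra h
      push Not at h
      nlinarith
    have z0 : 0 < z := by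
      rcases lt_trichotomy z 0 with h | h | h
      · exfalso; nlinarith
      · exfalso; rw [h, mul_zero] at hz; exact hEne hz
      · exact h
    have : z = 1 := by omega
    rw [hz, this, mul_one]
  -- s = 0
  have hs0 : s = 0 := by
    by_contra hne
    have he : Even ((2 ^ a - 2) - 2 ^ s * C f) := by
      refine Even.sub (Even.sub ?_ (by decide)) (Even.mul_right ?_ _)
      · exact (Int.even_pow).2 ⟨by decide, by omega⟩
      · exact (Int.even_pow).2 ⟨by decide, hne⟩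
    rw [hEq] at he
    have : Even q := by exact_mod_cast he
    exact (Nat.not_even_iff_odd.2 hqo) this
  subst hs0
  have hA : A f = a := by omega
  rw [pow_zero, one_mul] at hEq hS
  rw [hA] at c1 c2
  -- parity of k : S is odd
  have hPRodd : (PR f : ℤ) % 2 = 1 := by
    have h1 : Odd (PR f) := by
      obtain ⟨y, hy⟩ := C_mod f hv
      -- PR f ≡ 1 mod 3 does not help; use validity
      have : ∀ g : Fo, valid q g → Odd (PR g) := by
        intro g
        induction g with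
        | nil => intro _; simp [PR]
        | node p al be ch rest ih1 ih2 =>
          intro hf
          obtain ⟨g1, g2, g3, g4, g5⟩ := hf
          simp only [PR]
          refine Odd.mul ?_ (ih2 g5)
          have : Even (p + 1) := by
            rw [g1, mul_assoc]
            refine Even.mul_right ?_ _
            exact (Nat.even_pow).2 ⟨by decide, by omega⟩
          rw [Nat.even_add_one] at this
          exact Nat.not_even_iff_odd.1 this
      exact this f hv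
    have := Nat.odd_iff.1 h1
    omega
  have hTodd : T q k % 2 = 1 := by
    by_contra h
    have hT0 : (2 : ℤ) ∣ (T q k : ℤ) := by
      have : T q k % 2 = 0 := by omega
      exact_mod_cast Nat.dvd_of_mod_eq_zero this
    have h2a : (2 : ℤ) ∣ 2 ^ a - 2 := by
      refine dvd_sub ?_ (dvd_refl _)
      exact dvd_pow_self 2 (by omega)
    have : (2 : ℤ) ∣ (PR f : ℤ) := by
      rw [← hS]
      exact dvd_add (Dvd.dvd.mul_right h2a _) (Dvd.dvd.mul_left hT0 _)
    omega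
  have hkodd : k % 2 = 1 := by rw [← T_parity q k hqo]; exact hTodd
  have hkodd' : Odd k := Nat.odd_iff.2 hkodd
  have hPR3 := PR_mod3 f h3
  -- natural number form of hS
  have hSn : (2 ^ a - 2) * (q ^ (k + 1) + 1) + (2 ^ (a + 1) - 1) * T q k = PR f := by
    have h1 : 2 ≤ 2 ^ a := by
      calc 2 = 2 ^ 1 := by norm_num
        _ ≤ 2 ^ a := Nat.pow_le_pow_right (by norm_num) (by omega)
    have h2 : 1 ≤ 2 ^ (a + 1) := Nat.one_le_two_pow
    zify [h1, h2]
    exact hS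
  have h2a2 : 2 ≤ 2 ^ a := by
    calc 2 = 2 ^ 1 := by norm_num
      _ ≤ 2 ^ a := Nat.pow_le_pow_right (by norm_num) (by omega)
  -- q ≡ 1 mod 3
  have hq31 : q % 3 = 1 := by
    by_contra hne
    have hq2 : q % 3 = 2 := by omega
    have t2 := (T_mod3_two q k hq2).2 hkodd'
    have p2 := (pow_mod3_two q (k + 1) hq2).1 (by
      rw [Nat.even_add_one]; exact Nat.not_even_iff_odd.2 hkodd')
    have e1 : PR f % 3 = 0 := by
      rw [← hSn]
      obtain ⟨u, hu⟩ : ∃ u, q ^ (k + 1) = 3 * u + 1 := ⟨q ^ (k + 1) / 3, by omega⟩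
      obtain ⟨v, hv⟩ : ∃ v, T q k = 3 * v + 2 := ⟨T q k / 3, by omega⟩
      obtain ⟨m, hm⟩ : ∃ m, 2 ^ a = m + 2 := ⟨2 ^ a - 2, by omega⟩
      rw [hu, hv, pow_succ, hm]
      have : (m + 2 - 2) * (3 * u + 1 + 1) + ((m + 2) * 2 - 1) * (3 * v + 2)
          = 3 * (m * u + 2 * m + 2 + (2 * m + 3) * v) := by
        have e : (m + 2) * 2 - 1 = 2 * m + 3 := by omega
        rw [e, Nat.add_sub_cancel]
        ring
      rw [this]
      exact Nat.mul_mod_right 3 _
    omega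
  have hoddl2 := oddal_of hq31 f hv h3
  have hT3 := T_mod3_one q k hq31
  have hqk : q ^ (k + 1) % 3 = 1 := by rw [Nat.pow_mod, hq31]; simp
  -- a even
  obtain ⟨hae, h2a⟩ : Even a ∧ 2 ^ a % 3 = 1 := by
    rcases pow_two_mod3 a with ⟨_, h6⟩ | h
    · exfalso
      have e1 : PR f % 3 = 0 := by
        rw [← hSn]
        obtain ⟨m, hm⟩ : ∃ m, 2 ^ a = 3 * m + 2 := ⟨2 ^ a / 3, by omega⟩
        rw [pow_succ 2 a, hm]
        have : (3 * m + 2 - 2) * (q ^ (k + 1) + 1) + ((3 * m + 2) * 2 - 1) * T q k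
            = 3 * (m * (q ^ (k + 1) + 1) + (2 * m + 1) * T q k) := by
          have e : (3 * m + 2) * 2 - 1 = 3 * (2 * m + 1) := by omega
          rw [e, Nat.add_sub_cancel]
          ring
        rw [this]
        exact Nat.mul_mod_right 3 _
      omega
    · exact h
  have hk3 : k % 3 = 0 := by
    obtain ⟨m, hm⟩ : ∃ m, 2 ^ a = 3 * m + 4 := by
      refine ⟨(2 ^ a - 4) / 3, ?_⟩
      have : 4 ≤ 2 ^ a := by exact_mod_cast hW4
      omega
    obtain ⟨u, hu⟩ : ∃ u, q ^ (k + 1) = 3 * u + 1 := ⟨q ^ (k + 1) / 3, by omega⟩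
    rw [pow_succ 2 a, hm, hu] at hSn
    have e : (3 * m + 4) * 2 - 1 = 3 * (2 * m + 2) + 1 := by omega
    have e' : 3 * m + 4 - 2 = 3 * m + 2 := by omega
    rw [e, e'] at hSn
    have e2 : (3 * m + 2) * (3 * u + 1 + 1) + (3 * (2 * m + 2) + 1) * T q k
        = 3 * (m * (3 * u + 2) + 2 * u + 1 + (2 * m + 2) * T q k) + 1 + T q k := by ring
    rw [e2] at hSn
    omega
  have hk3' : 3 ≤ k := by omega
  -- w
  obtain ⟨w, hw⟩ : ∃ w : ℕ, q = 2 ^ a - 2 + w := ⟨q - (2 ^ a - 2), by omega⟩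
  have hwodd : w % 2 = 1 := by
    have h1 := Nat.odd_iff.1 hqo
    have h2 : 2 ^ a % 2 = 0 := by
      obtain ⟨j, rfl⟩ : ∃ j, a = j + 1 := ⟨a - 1, by omega⟩
      rw [pow_succ]; omega
    omega
  have hw5 : 5 ≤ w := by omega
  have hCw : C f = -(w : ℤ) := by
    have : (q : ℤ) = 2 ^ a - 2 + w := by
      have h1 : ((2 ^ a - 2 + w : ℕ) : ℤ) = 2 ^ a - 2 + w := by
        rw [Nat.cast_add, Nat.cast_sub h2a2]; push_cast; ring
      rw [← h1, ← hw]
    linarith
  have hwW : (w : ℤ) + 1 ≤ 2 ^ a := by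
    rw [hCw, abs_neg] at c1
    have : |(w : ℤ)| = w := abs_of_nonneg (by positivity)
    rw [this] at c1; exact c1
  -- pass to rationals
  have hwWQ : (w : ℚ) ≤ 2 ^ a - 1 := by
    have : ((w : ℤ) + 1 : ℚ) ≤ ((2 ^ a : ℤ) : ℚ) := by exact_mod_cast hwW
    push_cast at this; linarith
  have hqQ : (q : ℚ) = 2 ^ a - 2 + w := by
    have h1 : ((2 ^ a - 2 + w : ℕ) : ℚ) = 2 ^ a - 2 + w := by
      rw [Nat.cast_add, Nat.cast_sub h2a2]; push_cast; ring
    rw [← h1, ← hw]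
  have hWQ : (4 : ℚ) ≤ 2 ^ a := by exact_mod_cast hW4
  have hw5Q : (5 : ℚ) ≤ w := by exact_mod_cast hw5
  have hq0 : (0 : ℚ) < q := by linarith
  have hCQ : |(C f : ℚ)| = w := by
    rw [hCw]; push_cast; rw [abs_neg]; exact abs_of_nonneg (by positivity)
  have hSQ : ((2 : ℚ) ^ a - 2) * ((q : ℚ) ^ (k + 1) + 1) + (2 ^ (a + 1) - 1) * (T q k : ℚ)
      = (PR f : ℚ) := by exact_mod_cast hS
  have hTQ : ((q : ℚ) - 1) * (T q k : ℚ) = (q : ℚ) ^ (k + 1) - q := by exact_mod_cast T_geom q k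
  have hUdef : U q f * (2 ^ a * (q : ℚ) ^ (k + 1)) = PR f := by
    unfold U
    rw [hA, hB]
    field_simp
  set x : ℚ := 1 - U q f with hx
  have hQk : (0 : ℚ) < (q : ℚ) ^ (k + 1) := by positivity
  have i1 : 2 * (w : ℚ) - 5 ≤ 2 ^ a * (q - 1) * x := by
    have e : (2 * (w : ℚ) - 5) * (q : ℚ) ^ (k + 1) ≤ (2 ^ a * (q - 1) * x) * (q : ℚ) ^ (k + 1) := by
      have e1 : (2 ^ a * ((q : ℚ) - 1) * x) * (q : ℚ) ^ (k + 1)
          = (q - 1) * (2 ^ a * (q : ℚ) ^ (k + 1)) - (q - 1) * PR f := by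
        rw [← hUdef, hx]; ring
      rw [e1, ← hSQ]
      have e2 : ((q : ℚ) - 1) * (2 ^ a * (q : ℚ) ^ (k + 1)) - (q - 1) *
          (((2 : ℚ) ^ a - 2) * ((q : ℚ) ^ (k + 1) + 1) + (2 ^ (a + 1) - 1) * (T q k : ℚ))
          = (2 * (w : ℚ) - 5) * (q : ℚ) ^ (k + 1) + ((2 ^ a + 1) * q + (2 ^ a - 2)) := by
        have e3 : ((q : ℚ) - 1) * (((2 : ℚ) ^ a - 2) * ((q : ℚ) ^ (k + 1) + 1)
            + (2 ^ (a + 1) - 1) * (T q k : ℚ))
            = (q - 1) * (((2 : ℚ) ^ a - 2) * ((q : ℚ) ^ (k + 1) + 1))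
              + (2 ^ (a + 1) - 1) * ((q : ℚ) ^ (k + 1) - q) := by
          rw [← hTQ]; ring
        rw [e3, pow_succ (2 : ℚ) a]
        have e4 : (w : ℚ) = q - 2 ^ a + 2 := by linarith
        rw [e4]
        ring
      rw [e2]
      have : (0 : ℚ) ≤ (2 ^ a + 1) * q + (2 ^ a - 2) := by
        have : (0 : ℚ) ≤ (2 ^ a + 1) * q := by positivity
        linarith
      linarith
    exact le_of_mul_le_mul_right e hQk
  have i2 : 2 ^ a * (q : ℚ) ^ 2 * x ≤ (2 * w - 3) * q - (2 * 2 ^ a - 1) := by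
    obtain ⟨j, rfl⟩ : ∃ j, k = j + 2 := ⟨k - 2, by omega⟩
    have hTge : (q : ℚ) ^ (j + 2) + (q : ℚ) ^ (j + 1) ≤ (T q (j + 2) : ℚ) := by
      rw [T_succ, T_succ]; push_cast
      have : (0 : ℚ) ≤ (T q j : ℚ) := by positivity
      linarith
    have e : (2 ^ a * (q : ℚ) ^ 2 * x) * (q : ℚ) ^ (j + 1)
        ≤ ((2 * w - 3) * q - (2 * 2 ^ a - 1)) * (q : ℚ) ^ (j + 1) := by
      have e1 : (2 ^ a * (q : ℚ) ^ 2 * x) * (q : ℚ) ^ (j + 1)
          = 2 ^ a * (q : ℚ) ^ (j + 2 + 1) - PR f := by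
        rw [← hUdef, hx]; ring
      rw [e1, ← hSQ]
      have e2 : (2 ^ (a + 1) - 1 : ℚ) * ((q : ℚ) ^ (j + 2) + (q : ℚ) ^ (j + 1))
          ≤ (2 ^ (a + 1) - 1) * (T q (j + 2) : ℚ) := by
        apply mul_le_mul_of_nonneg_left hTge
        rw [pow_succ]; linarith
      have e4 : (w : ℚ) = q - 2 ^ a + 2 := by linarith
      rw [e4]
      have e5 : 2 ^ a * (q : ℚ) ^ (j + 2 + 1) - (((2 : ℚ) ^ a - 2) * ((q : ℚ) ^ (j + 2 + 1) + 1)
          + (2 ^ (a + 1) - 1 : ℚ) * ((q : ℚ) ^ (j + 2) + (q : ℚ) ^ (j + 1)))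
          ≤ ((2 * (q - 2 ^ a + 2) - 3) * q - (2 * 2 ^ a - 1)) * (q : ℚ) ^ (j + 1) := by
        have e6 : ((2 * ((q : ℚ) - 2 ^ a + 2) - 3) * q - (2 * 2 ^ a - 1)) * (q : ℚ) ^ (j + 1)
            - (2 ^ a * (q : ℚ) ^ (j + 2 + 1) - (((2 : ℚ) ^ a - 2) * ((q : ℚ) ^ (j + 2 + 1) + 1)
          + (2 ^ (a + 1) - 1 : ℚ) * ((q : ℚ) ^ (j + 2) + (q : ℚ) ^ (j + 1)))) = 2 ^ a - 2 := by
          rw [pow_succ (2 : ℚ) a]; ring
        linarith
      linarith
    exact le_of_mul_le_mul_right e (by positivity)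
  have i3 : x * (q : ℚ) ^ 3 ≤ L f * q ^ 2 + (Ka f + Kb f) * q + N3 f / 2 := by
    have h1 := U_Y hq1 f hv
    have h2 := Y_split hq1 f hv
    have h3 : x * (q : ℚ) ^ 3 ≤ Y (q : ℚ) f * q ^ 3 :=
      mul_le_mul_of_nonneg_right h1 (by positivity)
    linarith
  obtain ⟨u1, u2⟩ := U_claim hq1 f hv
  obtain ⟨ka1, _⟩ := Ka_claim f hv
  obtain ⟨kb1, _⟩ := Kb_claim f hv
  obtain ⟨n1, n2⟩ := N3_claim f hv
  rw [hA] at n1 n2
  have hUx : U q f = 1 - x := by rw [hx]; ring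
  rcases (show r f = 0 ∨ r f = 1 ∨ 2 ≤ r f by omega) with hr | hr | hr
  · have hL0 := r_zero_L f hv hr
    have hs2 := s2_lt f hv hnd
    exact endgame (2 ^ a) q w x (L f) (Ka f + Kb f) (N3 f) hWQ hw5Q hwWQ hqQ i1 i3 hL0
      (by linarith) (by linarith)
  · obtain ⟨r1, r2, r3⟩ := r_one f hv hr
    obtain ⟨r4, m, hm⟩ := r3 (by omega)
    rw [hA] at r1 r2 r4 hm
    have v1 := u1 hr
    rw [hUx] at v1
    -- ell ≤ 2w - 6
    have hLx : L f ≤ x * q := by linarith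
    have hl1 : (2 * m : ℚ) * q ≤ (2 * w - 3) * q - (2 * 2 ^ a - 1) := by
      rw [← hm]
      have : 2 ^ a * L f * q ≤ 2 ^ a * (x * q) * q := by
        apply mul_le_mul_of_nonneg_right _ hq0.le
        exact mul_le_mul_of_nonneg_left hLx (by linarith)
      nlinarith
    have hl2 : (2 * m : ℚ) < 2 * w - 4 := by
      have : (2 * m : ℚ) * q < (2 * w - 4) * q := by
        have : (q : ℚ) < 2 * 2 ^ a - 1 := by linarith
        linarith
      exact lt_of_mul_lt_mul_right this hq0.le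
    have hl3 : m + 3 ≤ w := by
      have : (m : ℚ) + 2 < w := by linarith
      have : m + 2 < w := by exact_mod_cast this
      omega
    have hl3Q : (m : ℚ) ≤ w - 3 := by
      have : ((m + 3 : ℕ) : ℚ) ≤ w := by exact_mod_cast hl3
      push_cast at this; linarith
    -- no leaf with be = 2, al ≥ 3
    have hleaf : ∀ b ∈ l2 f, b = 1 := by
      intro b hb
      by_contra hne
      have hb1 := l2_pos f hv b hb
      have hbo := hoddl2 b hb
      have hb3 : 3 ≤ b := by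
        have := Nat.odd_iff.1 hbo
        omega
      obtain ⟨_, t2⟩ := t_claim f hv ⟨b, hb, hb3⟩
      have t3 := t2 hr
      rw [hA, hCQ, hm] at t3
      linarith
    have hs2 := s2_le_one f hv hnd hleaf
    have n3 := n2 hr
    rw [hm] at n3
    exact endgame3 (2 ^ a) q w x (L f) (Ka f + Kb f) (N3 f) m hWQ hw5Q hwWQ hqQ i1 i3 hm hl3Q
      (by positivity) (by linarith) n3
  · have r1 := r_two f hv hr
    rw [hA, hCQ] at r1
    rw [hUx] at u2
    have i2' : 2 ^ a * (q : ℚ) * x < 2 * w - 3 := by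
      have : (2 ^ a * (q : ℚ) * x) * q < (2 * w - 3) * q := by nlinarith
      exact lt_of_mul_lt_mul_right this hq0.le
    exact endgame2 (2 ^ a) q w x (L f) hWQ (by linarith) hwWQ hqQ i2' u2 (by linarith)

end Pool.MP_f7abb8_nt.NU
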