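import Pool.Agent.H.MP_f7abb8_nt.OneCase

set_option autoImplicit false

namespace Pool.MP_f7abb8_nt.NU

theorem sX_geom (p k : ℕ) (X : ℕ) (hX : X = p ^ (k + 1)) :
    ((p : ℤ) - 1) * (1 + (T p k : ℤ) + X) = p * X - 1 := by
  have h := T_geom p k
  rw [hX]; push_cast
  linear_combination h

theorem ns_two {p q k l : ℕ} (hp : p.Prime) (hq : q.Prime) (hpq : p ≠ q) :
    (1 + p ^ (k + 1)) * (1 + q ^ (l + 1)) + ns (p ^ (k + 1) * q ^ (l + 1))
      = (1 + T p k + p ^ (k + 1)) * (1 + T q l + q ^ (l + 1)) := by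
  have hcop : Nat.Coprime (p ^ (k + 1)) (q ^ (l + 1)) :=
    Nat.Coprime.pow _ _ ((Nat.coprime_primes hp hq).2 hpq)
  have h1 := sg_eq (p ^ (k + 1) * q ^ (l + 1))
    (mul_ne_zero (pow_ne_zero _ hp.ne_zero) (pow_ne_zero _ hq.ne_zero))
  rw [sg_mul hcop, us_mul hcop, sg_prime_pow hp, sg_prime_pow hq, us_prime_pow hp,
    us_prime_pow hq] at h1
  exact h1.symm

theorem odd_case (p q k l m : ℕ) (hp : p.Prime) (hq : q.Prime) (hp3 : 3 ≤ p) (hpq : p < q)
    (hm : Squarefree m) (hmo : Odd m) (hpo : Odd p) (hqo : Odd q)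
    (hE : sg m * ns (p ^ (k + 1) * q ^ (l + 1)) = m * (p ^ (k + 1) * q ^ (l + 1))) : False := by
  have hMo : Odd (m * (p ^ (k + 1) * q ^ (l + 1))) := hmo.mul (hpo.pow.mul hqo.pow)
  have hm1 : m = 1 := by
    by_contra hne
    have h1 := sg_even hm hmo hne
    have h2 : 2 ∣ m * (p ^ (k + 1) * q ^ (l + 1)) := by rw [← hE]; exact Dvd.dvd.mul_right h1 _
    have := Nat.odd_iff.1 hMo
    omega
  have h13 : sg 1 = 1 := by simp [sg]
  rw [hm1, h13, one_mul, one_mul] at hE
  have h2 := ns_two (k := k) (l := l) hp hq (by omega)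
  rw [hE] at h2
  obtain ⟨X, hX⟩ : ∃ X, X = p ^ (k + 1) := ⟨_, rfl⟩
  obtain ⟨Y, hY⟩ : ∃ Y, Y = q ^ (l + 1) := ⟨_, rfl⟩
  have gX := sX_geom p k X hX
  have gY := sX_geom q l Y hY
  rw [← hX, ← hY] at h2
  have hXpos : 0 < X := by rw [hX]; exact pow_pos hp.pos _
  have hYpos : 0 < Y := by rw [hY]; exact pow_pos hq.pos _
  have h3 : ((1 : ℤ) + X) * (1 + Y) + X * Y = (1 + (T p k : ℤ) + X) * (1 + (T q l : ℤ) + Y) := by
    exact_mod_cast h2
  have hX1 : (1 : ℤ) ≤ X := by exact_mod_cast hXpos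
  have hY1 : (1 : ℤ) ≤ Y := by exact_mod_cast hYpos
  have hp3' : (3 : ℤ) ≤ p := by exact_mod_cast hp3
  have hq5' : (5 : ℤ) ≤ q := by
    have h1 := Nat.odd_iff.1 hpo
    have h2 := Nat.odd_iff.1 hqo
    have : 5 ≤ q := by omega
    exact_mod_cast this
  have h4 : ((p : ℤ) - 1) * (q - 1) * ((1 + X) * (1 + Y) + X * Y) = (p * X - 1) * (q * Y - 1) := by
    rw [h3, ← gX, ← gY]; ring
  have hXY : (0 : ℤ) < X * Y := by positivity
  have h5 : ((p : ℤ) - 1) * (q - 1) * (2 * (X * Y)) < p * q * (X * Y) := by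
    have e1 : ((p : ℤ) - 1) * (q - 1) * (2 * (X * Y)) ≤
        ((p : ℤ) - 1) * (q - 1) * ((1 + X) * (1 + Y) + X * Y) := by
      apply mul_le_mul_of_nonneg_left
      · nlinarith
      · apply mul_nonneg <;> linarith
    rw [h4] at e1
    have e2 : ((p : ℤ) * X - 1) * (q * Y - 1) < p * q * (X * Y) := by
      have : 1 < (p : ℤ) * X := by nlinarith
      have : 1 < (q : ℤ) * Y := by nlinarith
      nlinarith
    linarith
  have h6 : ((p : ℤ) - 1) * (q - 1) * 2 < p * q := by
    have : ((p : ℤ) - 1) * (q - 1) * 2 * (X * Y) < p * q * (X * Y) := by linarith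
    exact lt_of_mul_lt_mul_right this hXY.le
  nlinarith

theorem pow9_mod (j : ℕ) : 3 * 9 ^ j % 8 = 3 := by
  rw [Nat.mul_mod, Nat.pow_mod]; norm_num

theorem nine_mod5 (j : ℕ) : 9 ^ j % 5 = 1 ∨ 9 ^ j % 5 = 4 := by
  induction j with
  | zero => left; norm_num
  | succ j ih =>
    rw [pow_succ]
    rcases ih with h | h <;> omega

theorem nine_mod7 (j : ℕ) : 9 ^ j % 7 = 1 ∨ 9 ^ j % 7 = 2 ∨ 9 ^ j % 7 = 4 := by
  induction j with
  | zero => left; norm_num
  | succ j ih =>
    rw [pow_succ]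
    rcases ih with h | h | h <;> omega

theorem no5 (t j : ℕ) (hT : 2 * t + 3 = 9 ^ (j + 1)) (h : 5 ∣ t) : False := by
  rcases nine_mod5 (j + 1) with h1 | h1 <;> omega

theorem no7 (t j : ℕ) (hT : 2 * t + 3 = 9 ^ (j + 1)) (h : 7 ∣ t) : False := by
  rcases nine_mod7 (j + 1) with h1 | h1 | h1 <;> omega

theorem aux_A3 (q r Y S : ℤ) (hq : 11 ≤ q) (hr : 5 ≤ r) (hY : 25 ≤ Y)
    (hE : (r + 1) * S = 2 * r * (3 * Y))
    (hid : 2 * (q - 1) * S = (3 * q + 6) * (3 * Y) - (6 * q + 3) * 3 - (3 * q - 2) * Y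
      + 3 - 2 * q) : False := by
  have hS5 : 5 * Y ≤ S := by
    have h1 : (r + 1) * (5 * Y) ≤ (r + 1) * S := by
      rw [hE]
      have : 0 ≤ (r - 5) * Y := mul_nonneg (by linarith) (by linarith)
      linarith
    exact le_of_mul_le_mul_left h1 (by linarith)
  have h2 : 2 * (q - 1) * (5 * Y) ≤ 2 * (q - 1) * S :=
    mul_le_mul_of_nonneg_left hS5 (by linarith)
  have h3 : 0 ≤ (4 * q - 30) * Y := mul_nonneg (by linarith) (by linarith)
  linarith

theorem aux_5 (A Y S' : ℤ) (hA : 27 ≤ A) (hY : 25 ≤ Y) (hS : 1 ≤ S')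
    (h : 5 * (A * Y) = 33 * A + 13 * Y + 7 - 8 * S') : False := by
  have h1 : 0 ≤ (A - 27) * (5 * Y - 33) := mul_nonneg (by linarith) (by linarith)
  linarith

theorem aux_7 (A Y S' : ℤ) (hA : 27 ≤ A) (hY : 49 ≤ Y) (hS : 1 ≤ S')
    (h : 3 * (A * Y) = 45 * A + 19 * Y + 11 - 12 * S') : False := by
  have h1 : 0 ≤ (A - 27) * (3 * Y - 45) := mul_nonneg (by linarith) (by linarith)
  linarith

theorem aux_13 (A Y : ℤ) (hA : 27 ≤ A) (hY : 169 ≤ Y)
    (h : 5 * (A * Y) = 81 * A + 37 * Y + 23) : False := by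
  have h1 : 0 ≤ (A - 27) * (5 * Y - 81) := mul_nonneg (by linarith) (by linarith)
  linarith

theorem aux_19 (A Y : ℤ) (hA : 27 ≤ A) (hY : 361 ≤ Y)
    (h : 3 * (A * Y) = 117 * A + 55 * Y + 35) : False := by
  have h1 : 0 ≤ (A - 27) * (3 * Y - 117) := mul_nonneg (by linarith) (by linarith)
  linarith

theorem aux_28 (q r : ℤ) (hq : 28 ≤ q) (hr : 5 ≤ r) (h : r * (q - 10) < 3 * q + 6) : False := by
  have h1 : 0 ≤ (r - 5) * (q - 10) := mul_nonneg (by linarith) (by linarith)
  linarith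

theorem aux_53 (q r : ℤ) (hq : 11 ≤ q) (hr : 53 ≤ r) (h : r * (q - 10) < 3 * q + 6) : False := by
  have h1 : 0 ≤ (r - 53) * (q - 10) := mul_nonneg (by linarith) (by linarith)
  linarith

theorem aux_size (q r A Y S : ℤ) (hq : 5 ≤ q) (hr : 5 ≤ r) (hA : 3 ≤ A) (hY : 25 ≤ Y)
    (hE : (r + 1) * S = 2 * r * (A * Y))
    (hid : 2 * (q - 1) * S = (3 * q + 6) * (A * Y) - (6 * q + 3) * A - (3 * q - 2) * Y
      + 3 - 2 * q) : r * (q - 10) < 3 * q + 6 := by
  have hAY : 0 < A * Y := mul_pos (by linarith) (by linarith)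
  have e1 : 2 * (q - 1) * S < (3 * q + 6) * (A * Y) := by
    rw [hid]
    have a1 : 0 ≤ (6 * q + 3) * A := mul_nonneg (by linarith) (by linarith)
    have a2 : 0 ≤ (3 * q - 2) * Y := mul_nonneg (by linarith) (by linarith)
    linarith
  have e2 : (r + 1) * (2 * (q - 1) * S) < (r + 1) * ((3 * q + 6) * (A * Y)) :=
    mul_lt_mul_of_pos_left e1 (by linarith)
  have e3 : (r + 1) * (2 * (q - 1) * S) = 4 * (q - 1) * r * (A * Y) := by
    linear_combination 2 * (q - 1) * hE
  rw [e3] at e2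
  have e4 : 4 * (q - 1) * r < (r + 1) * (3 * q + 6) := by
    have : 4 * (q - 1) * r * (A * Y) < (r + 1) * (3 * q + 6) * (A * Y) := by linarith
    exact lt_of_mul_lt_mul_right this hAY.le
  linarith

theorem aux_10 (q A Y : ℤ) (hq : 5 ≤ q) (hA : 3 ≤ A) (hY : 25 ≤ Y)
    (hid : 2 * (q - 1) * (2 * (A * Y)) = (3 * q + 6) * (A * Y) - (6 * q + 3) * A - (3 * q - 2) * Y
      + 3 - 2 * q) : q < 10 := by
  have hAY : 0 < A * Y := mul_pos (by linarith) (by linarith)
  have a1 : 0 ≤ (6 * q + 3) * A := mul_nonneg (by linarith) (by linarith)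
  have a2 : 0 ≤ (3 * q - 2) * Y := mul_nonneg (by linarith) (by linarith)
  by_contra hcon
  push Not at hcon
  have h3 : 0 ≤ (q - 10) * (A * Y) := mul_nonneg (by linarith) hAY.le
  linarith

/-- The case `2 ∥ n`. -/
theorem two_exact (p q k l m : ℕ) (hk : 1 ≤ k) (hl : 1 ≤ l) (hp : p.Prime) (hq : q.Prime)
    (hp3 : 3 ≤ p) (hpq : p < q)
    (hm : Squarefree m) (hme : Even m) (hpo : Odd p) (hqo : Odd q) (hpm : ¬ p ∣ m) (hqm : ¬ q ∣ m)
    (hE : sg m * ns (p ^ (k + 1) * q ^ (l + 1)) = m * (p ^ (k + 1) * q ^ (l + 1))) : False := by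
  obtain ⟨S, hS⟩ : ∃ S, S = ns (p ^ (k + 1) * q ^ (l + 1)) := ⟨_, rfl⟩
  obtain ⟨Y, hY⟩ : ∃ Y, Y = q ^ (l + 1) := ⟨_, rfl⟩
  have h2 := ns_two (k := k) (l := l) hp hq (by omega)
  rw [← hS, ← hY] at h2 hE
  have hYpos : 0 < Y := by rw [hY]; exact pow_pos hq.pos _
  have hYo : Odd Y := by rw [hY]; exact hqo.pow
  obtain ⟨m', hm'⟩ := hme.two_dvd
  have hsq := hm
  rw [hm'] at hsq
  have hcop : Nat.Coprime 2 m' := Nat.coprime_of_squarefree_mul hsq
  have hm'sq : Squarefree m' := hsq.of_mul_right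
  have hm'o : Odd m' := Nat.coprime_two_left.1 hcop
  have hm'pos : 0 < m' := Nat.pos_of_ne_zero hm'sq.ne_zero
  have hsg : sg m = 3 * sg m' := by
    rw [hm', sg_mul hcop, sg_prime Nat.prime_two]
  have hXo : Odd (p ^ (k + 1)) := hpo.pow
  have hq5 : 5 ≤ q := by
    have h1 := Nat.odd_iff.1 hpo
    have h2 := Nat.odd_iff.1 hqo
    omega
  have hE1 : 3 * (sg m' * S) = 2 * (m' * (p ^ (k + 1) * Y)) := by
    have : 3 * (sg m' * S) = sg m * S := by rw [hsg]; ring
    rw [this, hE, hm']; ring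
  have hoddMM : Odd (m' * (p ^ (k + 1) * Y)) := hm'o.mul (hXo.mul hYo)
  have hoddMM2 := Nat.odd_iff.1 hoddMM
  -- three does not divide Y
  have h3Y : ¬ 3 ∣ Y := by
    intro h
    rw [hY] at h
    have := (Nat.prime_dvd_prime_iff_eq Nat.prime_three hq).1 (Nat.prime_three.dvd_of_dvd_pow h)
    omega
  -- p = 3
  have hcase := sg_cases hm'sq hm'o
  have hno4 : ¬ 4 ∣ sg m' := by
    intro h
    have h1 : 4 ∣ 3 * (sg m' * S) := Dvd.dvd.mul_left (Dvd.dvd.mul_right h _) _
    omega
  have hp3' : p = 3 := by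
    have h3d : 3 ∣ 2 * (m' * (p ^ (k + 1) * Y)) := ⟨_, hE1.symm⟩
    rcases (Nat.Prime.dvd_mul Nat.prime_three).1 h3d with h | h
    · omega
    rcases (Nat.Prime.dvd_mul Nat.prime_three).1 h with h | h
    · exfalso
      rcases hcase with h1 | h1 | h1
      · rw [h1] at h; omega
      · have hm3 : m' = 3 := ((Nat.prime_dvd_prime_iff_eq Nat.prime_three h1).1 h).symm
        rw [hm3, sg_prime Nat.prime_three] at hE1
        rw [hm3] at hoddMM2
        omega
      · exact hno4 h1
    · rcases (Nat.Prime.dvd_mul Nat.prime_three).1 h with h | h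
      · exact ((Nat.prime_dvd_prime_iff_eq Nat.prime_three hp).1
          (Nat.prime_three.dvd_of_dvd_pow h)).symm
      · exact absurd h h3Y
  subst hp3'
  obtain ⟨A, hA⟩ : ∃ A, A = 3 ^ k := ⟨_, rfl⟩
  have hX3 : 3 ^ (k + 1) = 3 * A := by rw [hA, pow_succ]; ring
  rw [hX3] at hE1 h2 hoddMM2
  have hApos : 0 < A := by rw [hA]; positivity
  have hAo : Odd A := by rw [hA]; exact Odd.pow (by decide)
  have hA3 : 3 ≤ A := by
    rw [hA]
    calc 3 = 3 ^ 1 := by norm_num
      _ ≤ 3 ^ k := Nat.pow_le_pow_right (by norm_num) hk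
  have hE2 : sg m' * S = 2 * m' * (A * Y) := by
    have : 3 * (sg m' * S) = 3 * (2 * m' * (A * Y)) := by rw [hE1]; ring
    omega
  -- integer identity for S
  have gX := sX_geom 3 k (3 * A) (by rw [hX3])
  have gY := sX_geom q l Y hY
  have h2Z : ((1 : ℤ) + 3 * A) * (1 + Y) + S
      = (1 + (T 3 k : ℤ) + 3 * A) * (1 + (T q l : ℤ) + Y) := by exact_mod_cast h2
  push_cast at gX
  have hid : 2 * ((q : ℤ) - 1) * S = (3 * q + 6) * (A * Y) - (6 * q + 3) * A - (3 * q - 2) * Y
      + 3 - 2 * q := by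
    have e : 2 * ((q : ℤ) - 1) * (((1 : ℤ) + 3 * A) * (1 + Y) + S) = (9 * A - 1) * (q * Y - 1) := by
      rw [h2Z]
      have : 2 * ((q : ℤ) - 1) * ((1 + (T 3 k : ℤ) + 3 * A) * (1 + (T q l : ℤ) + Y))
        = (2 * (1 + (T 3 k : ℤ) + 3 * A)) * (((q : ℤ) - 1) * (1 + (T q l : ℤ) + Y)) := by
        ring
      rw [this, gX, gY]; ring
    linear_combination e
  have hAZ : (3 : ℤ) ≤ A := by exact_mod_cast hA3
  have hYq : q ^ 2 ≤ Y := by
    rw [hY]; exact Nat.pow_le_pow_right hq.pos (by omega)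
  have hYZ : (q : ℤ) ^ 2 ≤ Y := by exact_mod_cast hYq
  have hqZ : (5 : ℤ) ≤ q := by exact_mod_cast hq5
  have hYZ1 : (25 : ℤ) ≤ Y := by nlinarith
  -- S mod q
  have hSmodq : q ∣ S → q ∣ T 3 k := by
    intro h
    have hqY : q ∣ Y := by rw [hY]; exact dvd_pow_self q (by omega)
    have hqT : q ∣ T q l := T_dvd q l
    have h1 : (q : ℤ) ∣ (T 3 k : ℤ) := by
      obtain ⟨s, hs⟩ := h
      obtain ⟨y, hy⟩ := hqY
      obtain ⟨t, ht⟩ := hqT
      refine ⟨s + (1 + 3 * A) * y - (1 + T 3 k + 3 * A) * (t + y), ?_⟩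
      rw [hs, hy, ht] at h2Z
      push_cast at h2Z
      linear_combination -h2Z
    exact_mod_cast h1
  have hT2 : 2 * T 3 k + 3 = 3 * 3 ^ k := by
    have h1 := T_geom 3 k
    push_cast at h1
    have h2 : (2 : ℤ) * T 3 k + 3 = 3 * 3 ^ k := by rw [pow_succ] at h1; linarith
    exact_mod_cast h2
  have hT2A : 2 * T 3 k + 3 = 3 * A := by rw [hT2, hA]
  rcases hcase with h1 | hr | h1
  · -- m' = 1
    have h13 : sg 1 = 1 := by simp [sg]
    rw [h1, h13, one_mul, mul_one] at hE2
    -- S = 2 A Y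
    have hSZ : (S : ℤ) = 2 * (A * Y) := by exact_mod_cast hE2
    rw [hSZ] at hid
    have hq10 : q < 10 := by
      have : (q : ℤ) < 10 := aux_10 q A Y hqZ hAZ hYZ1 hid
      exact_mod_cast this
    have hqS : q ∣ S := by
      rw [hE2, hY]
      exact Dvd.dvd.mul_left (Dvd.dvd.mul_left (dvd_pow_self q (by omega)) _) _
    have hqT := hSmodq hqS
    have hq57 : q = 5 ∨ q = 7 := by
      have h9 : q ≠ 9 := by rintro rfl; exact absurd hq (by norm_num)
      have h8 : q ≠ 8 := by rintro rfl; exact absurd hq (by norm_num)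
      have h6 : q ≠ 6 := by rintro rfl; exact absurd hq (by norm_num)
      omega
    -- k is even
    have hkeven : Even k := by
      by_contra hko
      rw [Nat.not_even_iff_odd] at hko
      obtain ⟨j, hj⟩ := hko
      have e : 3 * 3 ^ k = 9 ^ (j + 1) := by
        rw [hj, pow_succ, pow_mul, pow_succ]; norm_num; ring
      rw [e] at hT2
      rcases hq57 with rfl | rfl
      · exact no5 _ j hT2 hqT
      · exact no7 _ j hT2 hqT
    obtain ⟨j, hj⟩ := hkeven
    have hA8 : 3 * A % 8 = 3 := by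
      rw [hA, hj, ← two_mul, pow_mul]; exact pow9_mod j
    -- 4 ∣ S
    have h4S : 4 ∣ S := by
      have e1 : 4 ∣ 1 + T 3 k + 3 * A := by omega
      have e2 : 4 ∣ 1 + 3 * A := by omega
      have e3 : 4 ∣ (1 + 3 * A) * (1 + Y) := Dvd.dvd.mul_right e2 _
      have e4 : 4 ∣ (1 + 3 * A) * (1 + Y) + S := by rw [h2]; exact Dvd.dvd.mul_right e1 _
      exact (Nat.dvd_add_right e3).1 e4
    have h5 := Nat.odd_iff.1 (hAo.mul hYo)
    omega
  · -- m' prime
    rw [sg_prime hr] at hE2
    have hr2 : m' ≠ 2 := by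
      rintro rfl
      exact absurd hm'o (by decide)
    have hr3 : m' ≠ 3 := by
      rintro rfl
      apply hpm
      rw [hm']; exact Dvd.intro_left 2 rfl
    have hrq : m' ≠ q := by
      rintro rfl
      apply hqm
      rw [hm']; exact Dvd.intro_left 2 rfl
    have hr5 : 5 ≤ m' := by
      have := hr.two_le
      have := Nat.odd_iff.1 hm'o
      omega
    obtain ⟨r, hrdef⟩ : ∃ r, r = m' := ⟨_, rfl⟩
    rw [← hrdef] at hr hE2 hr2 hr3 hrq hr5 hm'o
    -- r ∣ S
    have hrS : r ∣ S := by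
      have h1 : r ∣ (r + 1) * S := by
        rw [hE2, mul_assoc]; exact Dvd.dvd.mul_left (Dvd.intro _ rfl) _
      have h3 : Nat.Coprime r (r + 1) := by simp
      exact h3.dvd_of_dvd_mul_left h1
    obtain ⟨S', hS'⟩ := hrS
    have hE3 : (r + 1) * S' = 2 * (A * Y) := by
      have : r * ((r + 1) * S') = r * (2 * (A * Y)) := by
        calc r * ((r + 1) * S') = (r + 1) * (r * S') := by ring
          _ = (r + 1) * S := by rw [hS']
          _ = 2 * r * (A * Y) := hE2
          _ = _ := by ring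
      exact Nat.eq_of_mul_eq_mul_left (by omega) this
    obtain ⟨ρ, hρ⟩ := even_succ hm'o
    have hE4 : ρ * S' = A * Y := by
      rw [hρ] at hE3
      have : 2 * (ρ * S') = 2 * (A * Y) := by rw [← hE3]; ring
      omega
    have hAYo : Odd (ρ * S') := by rw [hE4]; exact hAo.mul hYo
    obtain ⟨hρo, hS'o⟩ := Nat.odd_mul.1 hAYo
    have hρ2 := Nat.odd_iff.1 hρo
    have hSo : Odd S := by rw [hS']; exact hm'o.mul hS'o
    -- k and l are odd
    have hsXY : Odd ((1 + T 3 k + 3 * A) * (1 + T q l + Y)) := by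
      rw [← h2]
      refine Even.add_odd ?_ hSo
      refine Even.mul_right ?_ _
      have := Nat.odd_iff.1 hAo
      rw [Nat.even_iff]; omega
    obtain ⟨hsX, hsY⟩ := Nat.odd_mul.1 hsXY
    have hkodd : k % 2 = 1 := by
      have e1 := T_parity 3 k (by decide)
      have e2 := Nat.odd_iff.1 hsX
      have e3 := Nat.odd_iff.1 hAo
      omega
    have hlodd : l % 2 = 1 := by
      have e1 := T_parity q l hqo
      have e2 := Nat.odd_iff.1 hsY
      have e3 := Nat.odd_iff.1 hYo
      omega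
    obtain ⟨j, hj⟩ : ∃ j, k = 2 * j + 1 := ⟨k / 2, by omega⟩
    have e9 : 3 * 3 ^ k = 9 ^ (j + 1) := by
      rw [hj, pow_succ, pow_mul, pow_succ]; norm_num; ring
    -- A = 3 or A ≥ 27
    have hA27 : A = 3 ∨ 27 ≤ A := by
      rcases Nat.eq_zero_or_pos j with h | h
      · left; rw [hA, hj, h]; norm_num
      · right
        rw [hA]
        calc 27 = 3 ^ 3 := by norm_num
          _ ≤ 3 ^ k := Nat.pow_le_pow_right (by norm_num) (by omega)
    -- size
    have hE2Z : ((r : ℤ) + 1) * S = 2 * r * (A * Y) := by exact_mod_cast hE2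
    have hrZ : (5 : ℤ) ≤ r := by exact_mod_cast hr5
    have hsize : (r : ℤ) * (q - 10) < 3 * q + 6 :=
      aux_size q r A Y S hqZ hrZ hAZ hYZ1 hE2Z hid
    rcases Nat.lt_or_ge q 11 with hq11 | hq11
    · -- q = 5, 7
      have hq57 : q = 5 ∨ q = 7 := by
        have h9 : q ≠ 9 := by rintro rfl; exact absurd hq (by norm_num)
        have h8 : q ≠ 8 := by rintro rfl; exact absurd hq (by norm_num)
        have h6 : q ≠ 6 := by rintro rfl; exact absurd hq (by norm_num)
        have h10 : q ≠ 10 := by rintro rfl; exact absurd hq (by norm_num)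
        omega
      have hqS : ¬ q ∣ S := by
        intro h
        have hqT := hSmodq h
        rw [e9] at hT2
        rcases hq57 with rfl | rfl
        · exact no5 _ j hT2 hqT
        · exact no7 _ j hT2 hqT
      have hqS' : ¬ q ∣ S' := fun h => hqS (by rw [hS']; exact Dvd.dvd.mul_left h _)
      have hcopY : Nat.Coprime Y S' := by
        rw [hY]; exact Nat.Coprime.pow_left _ ((Nat.Prime.coprime_iff_not_dvd hq).2 hqS')
      have hYρ : Y ∣ ρ := by
        have : Y ∣ ρ * S' := by rw [hE4]; exact Dvd.intro_left A rfl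
        exact hcopY.dvd_of_dvd_mul_right this
      obtain ⟨τ, hτ⟩ := hYρ
      have hτS : τ * S' = A := by
        have : Y * (τ * S') = Y * A := by rw [← mul_assoc, ← hτ, hE4]; ring
        exact Nat.eq_of_mul_eq_mul_left hYpos this
      have hS'pos : 0 < S' := hS'o.pos
      have hS'A : S' ∣ A := ⟨τ, by rw [← hτS]; ring⟩
      have hS'le : S' ≤ A := Nat.le_of_dvd hApos hS'A
      have hSS : (S : ℤ) + S' = 2 * (A * Y) := by
        have : S + S' = 2 * (A * Y) := by rw [← hE3, hS']; ring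
        exact_mod_cast this
      have hS'Z : (1 : ℤ) ≤ S' := by exact_mod_cast hS'pos
      have hS'leZ : (S' : ℤ) ≤ A := by exact_mod_cast hS'le
      rcases hq57 with rfl | rfl
      · push_cast at hid
        have hYd : 5 ∣ Y := by rw [hY]; exact dvd_pow_self 5 (by omega)
        rcases hA27 with h3 | h27
        · rw [h3] at hid hSS hS'leZ hS'A
          push_cast at hid hSS hS'leZ
          have h5 : (Y : ℤ) = 53 - 4 * S' := by linarith
          have h6 : S' = 1 ∨ S' = 3 := (Nat.dvd_prime Nat.prime_three).1 hS'A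
          rcases h6 with h6 | h6
          · rw [h6] at h5; push_cast at h5; omega
          · rw [h6] at h5; push_cast at h5; omega
        · have h27Z : (27 : ℤ) ≤ A := by exact_mod_cast h27
          have h5 : (5 : ℤ) * (A * Y) = 33 * A + 13 * Y + 7 - 8 * S' := by linarith
          exact aux_5 A Y S' h27Z (by linarith) hS'Z h5
      · push_cast at hid hYZ
        rcases hA27 with h3 | h27
        · rw [h3] at hid hSS hS'leZ
          push_cast at hid hSS hS'leZ
          have h5 : (12 : ℤ) * S' = 10 * Y + 146 := by linarith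
          linarith
        · have h27Z : (27 : ℤ) ≤ A := by exact_mod_cast h27
          have h5 : (3 : ℤ) * (A * Y) = 45 * A + 19 * Y + 11 - 12 * S' := by linarith
          exact aux_7 A Y S' h27Z (by linarith) hS'Z h5
    · -- q ≥ 11
      have hq11Z : (11 : ℤ) ≤ q := by exact_mod_cast hq11
      rcases hA27 with h3 | h27
      · -- A = 3
        rw [h3] at hid hE2Z
        push_cast at hid hE2Z
        exact aux_A3 q r Y S hq11Z hrZ (by linarith) hE2Z hid
      · have h27Z : (27 : ℤ) ≤ A := by exact_mod_cast h27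
        have hq3 : q % 3 ≠ 0 := by
          intro h
          have h1 : 3 ∣ q := Nat.dvd_of_mod_eq_zero h
          have := (Nat.prime_dvd_prime_iff_eq Nat.prime_three hq).1 h1
          omega
        rcases (show q % 3 = 1 ∨ q % 3 = 2 by omega) with hq31 | hq32
        · -- q ≡ 1 mod 3, so q = 13 or 19
          have hq28 : q < 28 := by
            have : (q : ℤ) < 28 := by
              by_contra hcon
              push Not at hcon
              exact aux_28 q r hcon hrZ hsize
            exact_mod_cast this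
          have hq1319 : q = 13 ∨ q = 19 := by
            have h25 : q ≠ 25 := by rintro rfl; exact absurd hq (by norm_num)
            have h2 := Nat.odd_iff.1 hqo
            omega
          have hr4 : r % 4 = 1 := by omega
          have hr_eq : r = 5 := by
            rcases hq1319 with rfl | rfl
            · push_cast at hsize
              have h15 : r < 15 := by
                have : (r : ℤ) < 15 := by linarith
                exact_mod_cast this
              have h9 : r ≠ 9 := by rintro rfl; exact absurd hr (by norm_num)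
              omega
            · push_cast at hsize
              have h7 : r < 7 := by
                have : (r : ℤ) < 7 := by linarith
                exact_mod_cast this
              omega
          rw [hr_eq] at hE2Z
          push_cast at hE2Z
          have h3S : 3 * (S : ℤ) = 5 * (A * Y) := by linarith
          rcases hq1319 with rfl | rfl
          · push_cast at hid hYZ
            have h5 : (5 : ℤ) * (A * Y) = 81 * A + 37 * Y + 23 := by linarith
            exact aux_13 A Y h27Z (by linarith) h5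
          · push_cast at hid hYZ
            have h5 : (3 : ℤ) * (A * Y) = 117 * A + 55 * Y + 35 := by linarith
            exact aux_19 A Y h27Z (by linarith) h5
        · -- q ≡ 2 mod 3
          have hTq := (T_mod3_two q l hq32).2 (Nat.odd_iff.2 hlodd)
          have h3S : ¬ 3 ∣ S := by
            intro h
            obtain ⟨s, hs⟩ := h
            have h3A : 3 ∣ A := by rw [hA]; exact dvd_pow_self 3 (by omega)
            obtain ⟨α, hα⟩ := h3A
            obtain ⟨t3, ht3⟩ := T_dvd 3 k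
            obtain ⟨tq, htq⟩ : ∃ tq, T q l = 3 * tq + 2 := ⟨T q l / 3, by omega⟩
            rw [hs, ht3, htq, hα] at h2
            have e1 : (1 + 3 * (3 * α)) * (1 + Y) + 3 * s
                = 3 * (3 * α * (1 + Y) + s) + (1 + Y) := by ring
            have e2 : (1 + 3 * t3 + 3 * (3 * α)) * (1 + (3 * tq + 2) + Y)
                = 3 * ((t3 + 3 * α) * (1 + (3 * tq + 2) + Y) + tq) + (3 + Y) := by ring
            rw [e1, e2] at h2
            omega
          have hcop3 : Nat.Coprime A S' := by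
            have h3S' : ¬ 3 ∣ S' := fun h => h3S (by rw [hS']; exact Dvd.dvd.mul_left h _)
            rw [hA]
            exact Nat.Coprime.pow_left _ ((Nat.Prime.coprime_iff_not_dvd Nat.prime_three).2 h3S')
          have hAρ : A ∣ ρ := by
            have : A ∣ ρ * S' := by rw [hE4]; exact Dvd.intro _ rfl
            exact hcop3.dvd_of_dvd_mul_right this
          have hρpos : 0 < ρ := hρo.pos
          have hle := Nat.le_of_dvd hρpos hAρ
          have hr53 : 53 ≤ r := by omega
          have hr53Z : (53 : ℤ) ≤ r := by exact_mod_cast hr53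
          exact aux_53 q r hq11Z hr53Z hsize
  · exact hno4 h1

end Pool.MP_f7abb8_nt.NU
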