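import Pool.Agent.H.MP_f7abb8_nt.TwoEven

set_option autoImplicit false

namespace Pool.MP_f7abb8_nt.NU

/-- `1 + p + ⋯ + p^(k-1)`, so that `T p k = p * G p k`. -/
def G (p k : ℕ) : ℕ := ∑ i ∈ Finset.range k, p ^ i

theorem T_eq_G (p k : ℕ) : T p k = p * G p k := by
  unfold T G
  rw [Finset.mul_sum]
  apply Finset.sum_congr rfl
  intro i _
  rw [pow_succ]; ring

theorem G_geom (p k : ℕ) : ((p : ℤ) - 1) * (G p k : ℤ) = (p : ℤ) ^ k - 1 := by
  induction k with
  | zero => simp [G]
  | succ k ih =>
    have : G p (k + 1) = G p k + p ^ k := by unfold G; rw [Finset.sum_range_succ]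
    rw [this]; push_cast
    rw [mul_add, ih]; ring

theorem G_mod (p k : ℕ) (hk : 1 ≤ k) : ∃ t, G p k = p * t + 1 := by
  obtain ⟨j, rfl⟩ : ∃ j, k = j + 1 := ⟨k - 1, by omega⟩
  refine ⟨G p j, ?_⟩
  unfold G
  rw [Finset.sum_range_succ', Finset.mul_sum]
  simp only [pow_zero]
  congr 1
  apply Finset.sum_congr rfl
  intro i _
  rw [pow_succ]; ring

/-- a number whose divisor sum is `m + g` with `g` a proper divisor is prime. -/
theorem prime_of_sg {m g : ℕ} (hm : m ≠ 0) (hg : g ∣ m) (hgm : g < m) (hs : sg m = m + g) :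
    g = 1 ∧ m.Prime := by
  have hg0 : g ≠ 0 := by rintro rfl; exact hm (Nat.eq_zero_of_zero_dvd hg)
  have h1 : g = 1 := by
    by_contra hne
    have hsub : ({1, g, m} : Finset ℕ) ⊆ m.divisors := by
      intro x hx
      simp only [Finset.mem_insert, Finset.mem_singleton] at hx
      rw [Nat.mem_divisors]
      rcases hx with rfl | rfl | rfl
      · exact ⟨one_dvd _, hm⟩
      · exact ⟨hg, hm⟩
      · exact ⟨dvd_refl _, hm⟩
    have h2 : ∑ d ∈ ({1, g, m} : Finset ℕ), d ≤ ∑ d ∈ m.divisors, d :=
      Finset.sum_le_sum_of_subset hsub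
    have h3 : 1 ≠ m := by omega
    rw [Finset.sum_insert (by simp [Ne.symm hne, h3]), Finset.sum_insert (by simp; omega),
      Finset.sum_singleton] at h2
    change 1 + (g + m) ≤ sg m at h2
    omega
  refine ⟨h1, ?_⟩
  have h4 : ∑ d ∈ m.properDivisors, d = 1 := by
    have := Nat.sum_divisors_eq_sum_properDivisors_add_self (n := m)
    change sg m = _ at this
    omega
  exact (Nat.sum_properDivisors_eq_one_iff_prime).1 h4

theorem one_case (p k m : ℕ) (hk : 1 ≤ k) (hp : p.Prime) (hm : Squarefree m) (hpm : ¬ p ∣ m)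
    (hE : sg m * T p k = m * p ^ (k + 1)) :
    ∃ P : ℕ, (2 ^ P - 1).Prime ∧ m * p ^ (k + 1) = 2 ^ (P + 1) * (2 ^ P - 1) := by
  have hm0 := hm.ne_zero
  have hmpos : 0 < m := Nat.pos_of_ne_zero hm0
  -- cancel one p
  have hE2 : sg m * G p k = m * p ^ k := by
    rw [T_eq_G, pow_succ] at hE
    have h1 : p * (sg m * G p k) = p * (m * p ^ k) := by
      calc p * (sg m * G p k) = sg m * (p * G p k) := by ring
        _ = _ := hE
        _ = _ := by ring
    exact Nat.eq_of_mul_eq_mul_left hp.pos h1
  rcases hp.eq_two_or_odd' with rfl | hpo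
  · -- p = 2
    have hmo : Odd m := by
      rw [← Nat.not_even_iff_odd]
      intro h; exact hpm h.two_dvd
    have hG : G 2 k = 2 ^ k - 1 := by
      have h1 := G_geom 2 k
      have h2 : 1 ≤ 2 ^ k := Nat.one_le_two_pow
      zify [h2]
      push_cast at h1
      linarith
    rw [hG] at hE2
    have h2k : 2 ≤ 2 ^ k := by
      calc 2 = 2 ^ 1 := by norm_num
        _ ≤ 2 ^ k := Nat.pow_le_pow_right (by norm_num) hk
    obtain ⟨w, hw⟩ : ∃ w, 2 ^ k = w + 1 := ⟨2 ^ k - 1, by omega⟩
    rw [hw, Nat.add_sub_cancel] at hE2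
    have hwpos : 1 ≤ w := by omega
    have hcop : Nat.Coprime w (w + 1) := by simp
    have hwm : w ∣ m := by
      have : w ∣ m * (w + 1) := ⟨sg m, by rw [← hE2]; ring⟩
      exact hcop.dvd_of_dvd_mul_right this
    obtain ⟨g, hg⟩ := hwm
    have hsm : sg m = m + g := by
      have : sg m * w = (m + g) * w := by
        rw [hE2, add_mul, mul_add, mul_one, hg]; ring
      exact Nat.eq_of_mul_eq_mul_right (by omega) this
    have hgpos : 0 < g := by
      rcases Nat.eq_zero_or_pos g with h | h
      · exfalso; rw [h, mul_zero] at hg; exact hm0 hg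
      · exact h
    rcases Nat.lt_or_ge w 2 with hw2 | hw2
    · exfalso
      have hw1 : w = 1 := by omega
      rw [hw1, one_mul] at hg
      rw [← hg] at hsm
      rcases sg_cases hm hmo with h | h | h
      · rw [h] at hsm
        have h13 : sg 1 = 1 := by simp [sg]
        omega
      · rw [sg_prime h] at hsm
        have := h.one_lt
        omega
      · rw [hsm] at h
        have := Nat.odd_iff.1 hmo
        omega
    · have hgm : g < m := by
        rw [hg]
        nlinarith
      obtain ⟨hg1, hmp⟩ := prime_of_sg hm0 ⟨w, by rw [hg]; ring⟩ hgm hsm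
      refine ⟨k, ?_, ?_⟩
      · rw [hw, Nat.add_sub_cancel]
        rw [hg1, mul_one] at hg
        rw [← hg]; exact hmp
      · rw [hw, Nat.add_sub_cancel]
        rw [hg1, mul_one] at hg
        rw [← hg]; ring
  · -- p odd
    exfalso
    obtain ⟨t, ht⟩ := G_mod p k hk
    have hpG : ¬ p ∣ G p k := by
      intro h
      rw [ht] at h
      have h1 : p ∣ 1 := (Nat.dvd_add_right (Dvd.intro t rfl)).1 h
      have := Nat.le_of_dvd (by norm_num) h1
      have := hp.one_lt
      omega
    have hp3 : 3 ≤ p := by
      have := hp.two_le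
      have := Nat.odd_iff.1 hpo
      omega
    have hgeo := G_geom p k
    have hpk : p ∣ m * p ^ k := Dvd.dvd.mul_left (dvd_pow_self p (by omega)) _
    have hpsg : p ∣ sg m := by
      rw [← hE2] at hpk
      rcases (Nat.Prime.dvd_mul hp).1 hpk with h | h
      · exact h
      · exact absurd h hpG
    rcases Nat.even_or_odd m with hme | hmo
    · -- m = 2 * m'
      obtain ⟨m', hm'⟩ := hme.two_dvd
      have hsq := hm
      rw [hm'] at hsq
      have hcop : Nat.Coprime 2 m' := Nat.coprime_of_squarefree_mul hsq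
      have hm'sq : Squarefree m' := hsq.of_mul_right
      have hm'o : Odd m' := Nat.coprime_two_left.1 hcop
      have hsg : sg m = 3 * sg m' := by
        rw [hm', sg_mul hcop, sg_prime Nat.prime_two]
      rcases sg_cases hm'sq hm'o with h | h | h
      · -- m' = 1
        have h13 : sg 1 = 1 := by simp [sg]
        rw [hsg, h, h13] at hpsg hE2
        rw [hm', h] at hE2
        have hp3' : p = 3 := (Nat.prime_dvd_prime_iff_eq hp Nat.prime_three).1 (by simpa using hpsg)
        subst hp3'
        push_cast at hgeo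
        have hE3 : (3 : ℤ) * 1 * (G 3 k : ℤ) = 2 * 1 * 3 ^ k := by exact_mod_cast hE2
        have : (0 : ℤ) < 3 ^ k := by positivity
        linarith
      · -- m' = r prime
        have hr2 : m' ≠ 2 := by
          rintro rfl
          exact absurd hm'o (by decide)
        rw [hsg, sg_prime h] at hE2
        rw [hm'] at hE2
        -- 3 * (r+1) * G = 2 * r * p^k
        by_cases hp3' : p = 3
        · subst hp3'
          push_cast at hgeo
          have hE3 : (3 : ℤ) * ((m' : ℤ) + 1) * (G 3 k : ℤ) = 2 * m' * 3 ^ k := by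
            exact_mod_cast hE2
          have hr3 : m' ≠ 3 := by
            rintro rfl
            apply hpm
            rw [hm']; exact Dvd.intro_left 2 rfl
          have hr5 : 4 ≤ m' := by
            have := h.two_le
            omega
          have hr5' : (4 : ℤ) ≤ m' := by exact_mod_cast hr5
          obtain ⟨j, rfl⟩ : ∃ j, k = j + 1 := ⟨k - 1, by omega⟩
          rw [pow_succ] at hE3 hgeo
          have hX : (1 : ℤ) ≤ 3 ^ j := one_le_pow₀ (by norm_num)
          have e : (G 3 (j + 1) : ℤ) * 2 = 3 ^ j * 3 - 1 := by linarith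
          have e2 : 3 * ((m' : ℤ) + 1) * (3 ^ j * 3 - 1) = 4 * m' * (3 ^ j * 3) := by
            rw [← e]; linarith
          nlinarith
        · have h3r : 3 ∣ m' := by
            have h1 : 3 ∣ 2 * m' * p ^ k := by
              rw [← hE2, mul_assoc]; exact Dvd.intro _ rfl
            rcases (Nat.Prime.dvd_mul Nat.prime_three).1 h1 with h2 | h2
            · rcases (Nat.Prime.dvd_mul Nat.prime_three).1 h2 with h3 | h3
              · omega
              · exact h3
            · exfalso
              have := (Nat.prime_dvd_prime_iff_eq Nat.prime_three hp).1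
                (Nat.prime_three.dvd_of_dvd_pow h2)
              omega
          have hr3 : m' = 3 := ((Nat.prime_dvd_prime_iff_eq Nat.prime_three h).1 h3r).symm
          rw [hr3] at hE2
          have h5 : 2 * G p k = p ^ k := by omega
          have h6 : Odd (p ^ k) := hpo.pow
          have := Nat.odd_iff.1 h6
          omega
      · -- 4 ∣ sg m'
        have h1 : 4 ∣ 2 * (m' * p ^ k) := by
          have e : 2 * (m' * p ^ k) = sg m * G p k := by rw [hE2, hm']; ring
          rw [e, hsg]
          exact Dvd.dvd.mul_right (Dvd.dvd.mul_left h 3) _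
        have h2 : Odd (m' * p ^ k) := hm'o.mul hpo.pow
        have := Nat.odd_iff.1 h2
        omega
    · -- m odd
      by_cases hm1 : m = 1
      · have h13 : sg 1 = 1 := by simp [sg]
        rw [hm1, h13, one_mul, one_mul] at hE2
        have h1 := Nat.dvd_of_mod_eq_zero (show p ^ k % p = 0 from
          Nat.mod_eq_zero_of_dvd (dvd_pow_self p (by omega)))
        rw [← hE2] at h1
        exact hpG h1
      · have h1 := sg_even hm hmo hm1
        have h2 : Odd (m * p ^ k) := hmo.mul hpo.pow
        rw [← hE2] at h2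
        have h3 : 2 ∣ sg m * G p k := Dvd.dvd.mul_right h1 _
        have := Nat.odd_iff.1 h2
        omega

end Pool.MP_f7abb8_nt.NU
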