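import Pool.Agent.H.MP_f7abb8_nt.Build
import Pool.Agent.H.MP_f7abb8_nt.Sums

set_option autoImplicit false

namespace Pool.MP_f7abb8_nt.NU

open Fo

theorem even_succ {x : ℕ} (h : Odd x) : 2 ∣ x + 1 :=
  (Nat.even_add_one.2 (Nat.not_even_iff_odd.2 h)).two_dvd

/-- The case `4 ∣ n` with one odd square-full prime. -/
theorem two_even (a k q m S : ℕ) (ha : 2 ≤ a) (hk : 1 ≤ k) (hqp : q.Prime) (hqo : Odd q)
    (hm : Squarefree m) (hmo : Odd m) (hqm : ¬ q ∣ m)
    (hSdef : S = (2 ^ a - 2) * (q ^ (k + 1) + 1) + (2 ^ (a + 1) - 1) * T q k)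
    (hE : sg m * S = m * (2 ^ a * q ^ (k + 1))) : False := by
  classical
  have hm0 : m ≠ 0 := hm.ne_zero
  have hmpos : 0 < m := Nat.pos_of_ne_zero hm0
  have h4 : 4 ≤ 2 ^ a := by
    calc 4 = 2 ^ 2 := by norm_num
      _ ≤ 2 ^ a := Nat.pow_le_pow_right (by norm_num) ha
  have h2a : 2 ^ (a + 1) = 2 * 2 ^ a := by rw [pow_succ]; ring
  have h2e : 2 ^ a % 2 = 0 := by
    obtain ⟨j, rfl⟩ : ∃ j, a = j + 1 := ⟨a - 1, by omega⟩
    rw [pow_succ]; omega
  have hQpos : 0 < q ^ (k + 1) := pow_pos hqp.pos _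
  -- (1) q ≥ 2^a + 1
  have hTge : q ^ k ≤ T q k := by
    obtain ⟨j, rfl⟩ : ∃ j, k = j + 1 := ⟨k - 1, by omega⟩
    rw [T_succ]; omega
  have hSle : S ≤ 2 ^ a * q ^ (k + 1) := by
    have h1 : m * S ≤ m * (2 ^ a * q ^ (k + 1)) := by
      rw [← hE]; exact Nat.mul_le_mul_right _ (sg_ge hm0)
    exact Nat.le_of_mul_le_mul_left h1 hmpos
  have hq1 : 2 ^ a + 1 ≤ q := by
    have h1 : (2 ^ (a + 1) - 1) * q ^ k ≤ 2 * q * q ^ k := by
      have e1 : (2 ^ (a + 1) - 1) * q ^ k ≤ (2 ^ (a + 1) - 1) * T q k :=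
        Nat.mul_le_mul_left _ hTge
      have e2 : (2 ^ a - 2) * q ^ (k + 1) ≤ (2 ^ a - 2) * (q ^ (k + 1) + 1) :=
        Nat.mul_le_mul_left _ (by omega)
      have e3 : 2 ^ a * q ^ (k + 1) = (2 ^ a - 2) * q ^ (k + 1) + 2 * q * q ^ k := by
        obtain ⟨w, hw⟩ : ∃ w, 2 ^ a = w + 2 := ⟨2 ^ a - 2, by omega⟩
        rw [hw, Nat.add_sub_cancel, pow_succ]; ring
      omega
    have h2 : 2 ^ (a + 1) - 1 ≤ 2 * q := Nat.le_of_mul_le_mul_right h1 (pow_pos hqp.pos k)
    have h3 := Nat.odd_iff.1 hqo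
    omega
  -- (2) q ∤ S
  have hqS : ¬ q ∣ S := by
    intro h
    have h1 : q ∣ (2 ^ a - 2) * q ^ (k + 1) + (2 ^ (a + 1) - 1) * T q k :=
      dvd_add (Dvd.dvd.mul_left (dvd_pow_self q (by omega)) _) (Dvd.dvd.mul_left (T_dvd q k) _)
    have h2 : S = ((2 ^ a - 2) * q ^ (k + 1) + (2 ^ (a + 1) - 1) * T q k) + (2 ^ a - 2) := by
      rw [hSdef]; ring
    rw [h2] at h
    have h3 := (Nat.dvd_add_right h1).1 h
    have h4 := Nat.le_of_dvd (by omega) h3
    omega
  have hSpos : 0 < S := by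
    rcases Nat.eq_zero_or_pos S with h | h
    · exfalso; rw [h] at hqS; exact hqS (dvd_zero q)
    · exact h
  set F := m.primeFactors with hF
  have hFp : ∀ x ∈ F, x.Prime := fun x hx => Nat.prime_of_mem_primeFactors hx
  have hFd : ∀ x ∈ F, x ∣ m := fun x hx => Nat.dvd_of_mem_primeFactors hx
  have hFo : ∀ x ∈ F, Odd x := fun x hx => Odd.of_dvd_nat hmo (hFd x hx)
  have hFq : ∀ x ∈ F, x ≠ q := fun x hx h => hqm (h ▸ hFd x hx)
  have hsgF : sg m = ∏ x ∈ F, (x + 1) := sg_sqfree hm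
  have hmF : ∏ x ∈ F, x = m := Nat.prod_primeFactors_of_squarefree hm
  have hoddM : Odd (m * q ^ (k + 1)) := hmo.mul (hqo.pow)
  have hdvd1 : ∀ x ∈ F, x + 1 ∣ m * (2 ^ a * q ^ (k + 1)) := by
    intro x hx
    rw [← hE, hsgF]
    exact Dvd.dvd.mul_right (Finset.dvd_prod_of_mem (fun x => x + 1) hx) _
  -- (3) no `x + 1` is a power of two
  have hMers : ∀ x ∈ F, ∀ α : ℕ, x + 1 ≠ 2 ^ α := by
    intro x hx α hxα
    obtain ⟨c, hc⟩ := hFd x hx
    have hsq := hm
    rw [hc] at hsq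
    have hcop : x.Coprime c := Nat.coprime_of_squarefree_mul hsq
    have hcsq : Squarefree c := hsq.of_mul_right
    have hsgx : sg m = (x + 1) * sg c := by rw [hc, sg_mul hcop, sg_prime (hFp x hx)]
    have hco : Odd c := by rw [hc] at hmo; exact (Nat.odd_mul.1 hmo).2
    have hcpos : 0 < c := Nat.pos_of_ne_zero hcsq.ne_zero
    have hxpos : 0 < x := (hFp x hx).pos
    -- α ≤ a
    have hα1 : α ≤ a := by
      have h1 : 2 ^ α ∣ (m * q ^ (k + 1)) * 2 ^ a := by
        have := hdvd1 x hx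
        rw [hxα] at this
        have e : m * (2 ^ a * q ^ (k + 1)) = (m * q ^ (k + 1)) * 2 ^ a := by ring
        rwa [e] at this
      have hcop2 : Nat.Coprime (2 ^ α) (m * q ^ (k + 1)) :=
        Nat.Coprime.pow_left _ (Nat.coprime_two_left.2 hoddM)
      have h2 := hcop2.dvd_of_dvd_mul_left h1
      exact (Nat.pow_dvd_pow_iff_le_right (by norm_num)).1 h2
    -- a ≤ α
    have hα2 : a ≤ α := by
      have h1 : (x + 1) * S ≤ x * (2 ^ a * q ^ (k + 1)) := by
        have h2 : (x + 1) * c * S ≤ x * c * (2 ^ a * q ^ (k + 1)) := by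
          rw [← hc, ← hE, hsgx]
          apply Nat.mul_le_mul_right
          apply Nat.mul_le_mul_left
          exact sg_ge hcsq.ne_zero
        have h3 : ((x + 1) * S) * c ≤ (x * (2 ^ a * q ^ (k + 1))) * c := by
          calc ((x + 1) * S) * c = (x + 1) * c * S := by ring
            _ ≤ x * c * (2 ^ a * q ^ (k + 1)) := h2
            _ = _ := by ring
        exact Nat.le_of_mul_le_mul_right h3 hcpos
      have h2 : (2 ^ a - 2) * q ^ (k + 1) < S := by
        have e2 : (2 ^ a - 2) * (q ^ (k + 1) + 1) = (2 ^ a - 2) * q ^ (k + 1) + (2 ^ a - 2) := by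
          ring
        rw [hSdef, e2]; omega
      have h3 : (x + 1) * ((2 ^ a - 2) * q ^ (k + 1)) < x * (2 ^ a * q ^ (k + 1)) :=
        lt_of_lt_of_le (Nat.mul_lt_mul_of_pos_left h2 (by omega)) h1
      have h4 : ((x + 1) * (2 ^ a - 2)) * q ^ (k + 1) < (x * 2 ^ a) * q ^ (k + 1) := by
        calc ((x + 1) * (2 ^ a - 2)) * q ^ (k + 1) = (x + 1) * ((2 ^ a - 2) * q ^ (k + 1)) := by ring
          _ < x * (2 ^ a * q ^ (k + 1)) := h3
          _ = _ := by ring
      have h5 : (x + 1) * (2 ^ a - 2) < x * 2 ^ a := Nat.lt_of_mul_lt_mul_right h4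
      obtain ⟨w, hw⟩ : ∃ w, 2 ^ a = w + 2 := ⟨2 ^ a - 2, by omega⟩
      have h6 : 2 ^ a < 2 ^ (α + 1) := by
        rw [pow_succ, ← hxα]
        rw [hw] at h5 ⊢
        rw [Nat.add_sub_cancel] at h5
        have e1 : (x + 1) * w = x * w + w := by ring
        have e2 : x * (w + 2) = x * w + 2 * x := by ring
        rw [e1, e2] at h5
        omega
      have := (Nat.pow_lt_pow_iff_right (by norm_num : 1 < 2)).1 h6
      omega
    have hαa : α = a := le_antisymm hα1 hα2
    -- sg c * S = x * c * q^(k+1)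
    have h7 : sg c * S = x * c * q ^ (k + 1) := by
      have h8 : 2 ^ a * (sg c * S) = 2 ^ a * (x * c * q ^ (k + 1)) := by
        calc 2 ^ a * (sg c * S) = (x + 1) * sg c * S := by rw [hxα, hαa]; ring
          _ = m * (2 ^ a * q ^ (k + 1)) := by rw [← hsgx, hE]
          _ = _ := by rw [hc]; ring
      exact Nat.eq_of_mul_eq_mul_left (by positivity) h8
    have hc1 : c = 1 := by
      by_contra hne
      have h9 := sg_even hcsq hco hne
      have h10 : 2 ∣ x * c * q ^ (k + 1) := by rw [← h7]; exact Dvd.dvd.mul_right h9 _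
      have h11 : Odd (x * c * q ^ (k + 1)) := by rw [← hc]; exact hoddM
      have h12 := Nat.odd_iff.1 h11
      omega
    rw [hc1] at h7
    have h13 : sg 1 = 1 := by simp [sg]
    rw [h13, one_mul, mul_one] at h7
    apply hqS
    rw [h7]
    exact Dvd.dvd.mul_left (dvd_pow_self q (by omega)) _
  -- (4) factorisations
  let al : ℕ → ℕ := fun x => (x + 1).factorization 2
  let be : ℕ → ℕ := fun x => ((x + 1) / 2 ^ (x + 1).factorization 2).factorization q
  let ch : ℕ → Finset ℕ := fun x => F.filter (fun y => y ∣ x + 1)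
  have hchF : ∀ x, ch x ⊆ F := fun x => Finset.filter_subset _ _
  have hfac : ∀ x ∈ F, x + 1 = 2 ^ al x * q ^ be x * ∏ y ∈ ch x, y := by
    intro x hx
    set c1 := (x + 1) / 2 ^ (x + 1).factorization 2 with hc1
    set c2 := c1 / q ^ c1.factorization q with hc2
    have e1 : 2 ^ (x + 1).factorization 2 * c1 = x + 1 := Nat.ordProj_mul_ordCompl_eq_self (x + 1) 2
    have e2 : q ^ c1.factorization q * c2 = c1 := Nat.ordProj_mul_ordCompl_eq_self c1 q
    have hc10 : c1 ≠ 0 := by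
      intro h; rw [h, mul_zero] at e1; omega
    have hcop1 : Nat.Coprime 2 c1 := Nat.coprime_ordCompl Nat.prime_two (by omega)
    have hcop2 : Nat.Coprime q c2 := Nat.coprime_ordCompl hqp hc10
    have hcop3 : Nat.Coprime 2 c2 :=
      Nat.Coprime.coprime_dvd_right ⟨q ^ c1.factorization q, by rw [mul_comm]; exact e2.symm⟩ hcop1
    have e3 : x + 1 = 2 ^ (x + 1).factorization 2 * q ^ c1.factorization q * c2 := by
      rw [mul_assoc, e2, e1]
    have hc2m : c2 ∣ m := by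
      have h1 : c2 ∣ m * (2 ^ a * q ^ (k + 1)) :=
        Dvd.dvd.trans ⟨2 ^ (x + 1).factorization 2 * q ^ c1.factorization q, by
          rw [mul_comm]; exact e3⟩ (hdvd1 x hx)
      have h2 : Nat.Coprime c2 (2 ^ a * q ^ (k + 1)) :=
        Nat.Coprime.mul_right (Nat.Coprime.pow_right _ hcop3.symm)
          (Nat.Coprime.pow_right _ hcop2.symm)
      exact h2.dvd_of_dvd_mul_right h1
    have hc2sq : Squarefree c2 := hm.squarefree_of_dvd hc2m
    have hc2F : c2.primeFactors = ch x := by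
      ext y
      constructor
      · intro hy
        have hyp := Nat.prime_of_mem_primeFactors hy
        have hyd := Nat.dvd_of_mem_primeFactors hy
        refine Finset.mem_filter.2 ⟨Nat.mem_primeFactors.2 ⟨hyp, hyd.trans hc2m, hm0⟩, ?_⟩
        rw [e3]; exact Dvd.dvd.mul_left hyd _
      · intro hy
        obtain ⟨hy1, hy2⟩ := Finset.mem_filter.1 hy
        have hyp := hFp y hy1
        rw [e3] at hy2
        refine Nat.mem_primeFactors.2 ⟨hyp, ?_, hc2sq.ne_zero⟩
        rcases (Nat.Prime.dvd_mul hyp).1 hy2 with h | h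
        · exfalso
          rcases (Nat.Prime.dvd_mul hyp).1 h with h | h
          · have h5 := (Nat.prime_dvd_prime_iff_eq hyp Nat.prime_two).1 (hyp.dvd_of_dvd_pow h)
            have h6 := Nat.odd_iff.1 (hFo y hy1)
            omega
          · have h5 := (Nat.prime_dvd_prime_iff_eq hyp hqp).1 (hyp.dvd_of_dvd_pow h)
            exact hFq y hy1 h5
        · exact h
    have e4 : ∏ y ∈ ch x, y = c2 := by
      rw [← hc2F]; exact Nat.prod_primeFactors_of_squarefree hc2sq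
    change x + 1 = 2 ^ (x + 1).factorization 2 * q ^ c1.factorization q * ∏ y ∈ ch x, y
    rw [e4]; exact e3
  have hal : ∀ x ∈ F, 1 ≤ al x := by
    intro x hx
    exact Nat.prime_two.factorization_pos_of_dvd (by omega) (even_succ (hFo x hx))
  have hlt : ∀ x ∈ F, ∀ y ∈ ch x, y < x := by
    intro x hx y hy
    obtain ⟨hy1, hy2⟩ := Finset.mem_filter.1 hy
    have h1 := Nat.le_of_dvd (by omega) hy2
    have h2 := Nat.odd_iff.1 (hFo y hy1)
    have h3 := Nat.odd_iff.1 (hFo x hx)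
    have h4 : y ≠ x := by
      rintro rfl
      have h5 : y ∣ 1 := (Nat.dvd_add_right (dvd_refl y)).1 hy2
      have h6 := (hFp y hy1).one_lt
      have h7 := Nat.le_of_dvd (by norm_num) h5
      omega
    omega
  have hne : ∀ x ∈ F, be x = 0 → (ch x).Nonempty := by
    intro x hx hb
    by_contra h
    rw [Finset.not_nonempty_iff_eq_empty] at h
    have h1 := hfac x hx
    rw [hb, h, pow_zero, Finset.prod_empty, mul_one, mul_one] at h1
    exact hMers x hx _ h1
  have hdisj : ∀ x ∈ F, ∀ y ∈ F, x ≠ y → Disjoint (ch x) (ch y) := by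
    intro x hx y hy hxy
    rw [Finset.disjoint_left]
    intro z hz1 hz2
    obtain ⟨hzF, hzx⟩ := Finset.mem_filter.1 hz1
    obtain ⟨_, hzy⟩ := Finset.mem_filter.1 hz2
    have h1 : z * z ∣ m * (2 ^ a * q ^ (k + 1)) := by
      rw [← hE, hsgF, ← Finset.mul_prod_erase F (fun x => x + 1) hx,
        ← Finset.mul_prod_erase (F.erase x) (fun x => x + 1)
          (Finset.mem_erase.2 ⟨hxy.symm, hy⟩)]
      rw [← mul_assoc, mul_assoc]
      exact Dvd.dvd.mul_right (mul_dvd_mul hzx hzy) _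
    have hzp := hFp z hzF
    have h2 : Nat.Coprime z (2 ^ a * q ^ (k + 1)) := by
      refine Nat.Coprime.mul_right (Nat.Coprime.pow_right _ ?_) (Nat.Coprime.pow_right _ ?_)
      · exact (Nat.coprime_two_left.2 (hFo z hzF)).symm
      · exact (Nat.coprime_primes hzp hqp).2 (hFq z hzF)
    have h3 : z * z ∣ m := (Nat.Coprime.mul_left h2 h2).dvd_of_dvd_mul_right h1
    have h4 := hm z h3
    rw [Nat.isUnit_iff] at h4
    exact hzp.one_lt.ne' h4
  obtain ⟨f, hv, hnl, hrl, hAf, hBf⟩ := build (q := q) al be ch F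
    (fun p hp => ⟨hchF p, hlt p hp, hfac p hp, hal p hp, hne p hp⟩) hdisj
  -- (9) the identity
  set R := F.filter (fun x => ∀ p ∈ F, x ∉ ch p) with hR
  have hPR : PR f = ∏ x ∈ R, x := by rw [PR_eq, hrl, Finset.prod_val]; simp
  have hU : F.filter (fun x => ¬ ∀ p ∈ F, x ∉ ch p) = F.biUnion ch := by
    ext x
    simp only [Finset.mem_filter, Finset.mem_biUnion, not_forall, not_not]
    constructor
    · rintro ⟨_, p, hp, h⟩; exact ⟨p, hp, h⟩
    · rintro ⟨p, hp, h⟩; exact ⟨hchF p h, p, hp, h⟩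
  have hprodF : m = PR f * ∏ x ∈ F.biUnion ch, x := by
    rw [hPR, hR, ← hU, Finset.prod_filter_mul_prod_filter_not, hmF]
  have hsg2 : sg m = 2 ^ A f * q ^ B f * ∏ x ∈ F.biUnion ch, x := by
    rw [hsgF, Finset.prod_congr rfl hfac, Finset.prod_mul_distrib, Finset.prod_mul_distrib,
      Finset.prod_pow_eq_pow_sum, Finset.prod_pow_eq_pow_sum, ← hAf, ← hBf]
    rw [Finset.prod_biUnion (fun x hx y hy hxy => hdisj x hx y hy hxy)]
  set Z := ∏ x ∈ F.biUnion ch, x with hZ
  have hZpos : 0 < Z := by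
    rcases Nat.eq_zero_or_pos Z with h | h
    · exfalso; rw [h, mul_zero] at hprodF; exact hm0 hprodF
    · exact h
  have hPRm : PR f ∣ m := ⟨Z, hprodF⟩
  have hid : 2 ^ A f * q ^ B f * S = PR f * 2 ^ a * q ^ (k + 1) := by
    have h1 : (2 ^ A f * q ^ B f * S) * Z = (PR f * 2 ^ a * q ^ (k + 1)) * Z := by
      calc (2 ^ A f * q ^ B f * S) * Z = sg m * S := by rw [hsg2]; ring
        _ = m * (2 ^ a * q ^ (k + 1)) := hE
        _ = (PR f * Z) * (2 ^ a * q ^ (k + 1)) := by rw [← hprodF]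
        _ = _ := by ring
    exact Nat.eq_of_mul_eq_mul_right hZpos h1
  have hq2 : ¬ q ∣ 2 ^ A f := by
    intro h
    have := (Nat.prime_dvd_prime_iff_eq hqp Nat.prime_two).1 (hqp.dvd_of_dvd_pow h)
    have := Nat.odd_iff.1 hqo
    omega
  have hq2' : ¬ q ∣ 2 ^ a := by
    intro h
    have := (Nat.prime_dvd_prime_iff_eq hqp Nat.prime_two).1 (hqp.dvd_of_dvd_pow h)
    have := Nat.odd_iff.1 hqo
    omega
  have hB : B f = k + 1 := by
    rcases lt_trichotomy (B f) (k + 1) with h | h | h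
    · exfalso
      obtain ⟨j, hj⟩ : ∃ j, k + 1 = B f + (j + 1) := ⟨k - B f, by omega⟩
      rw [hj, pow_add] at hid
      have h1 : q ^ B f * (2 ^ A f * S) = q ^ B f * (PR f * 2 ^ a * q ^ (j + 1)) := by
        calc q ^ B f * (2 ^ A f * S) = 2 ^ A f * q ^ B f * S := by ring
          _ = _ := hid
          _ = _ := by ring
      have h2 := Nat.eq_of_mul_eq_mul_left (pow_pos hqp.pos _) h1
      have h3 : q ∣ 2 ^ A f * S := by
        rw [h2]; exact Dvd.dvd.mul_left (dvd_pow_self q (by omega)) _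
      rcases (Nat.Prime.dvd_mul hqp).1 h3 with h4 | h4
      · exact hq2 h4
      · exact hqS h4
    · exact h
    · exfalso
      obtain ⟨j, hj⟩ : ∃ j, B f = k + 1 + (j + 1) := ⟨B f - (k + 2), by omega⟩
      rw [hj, pow_add] at hid
      have h1 : q ^ (k + 1) * (PR f * 2 ^ a) = q ^ (k + 1) * (2 ^ A f * q ^ (j + 1) * S) := by
        calc q ^ (k + 1) * (PR f * 2 ^ a) = PR f * 2 ^ a * q ^ (k + 1) := by ring
          _ = _ := hid.symm
          _ = _ := by ring
      have h2 := Nat.eq_of_mul_eq_mul_left (pow_pos hqp.pos _) h1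
      have h3 : q ∣ PR f * 2 ^ a := by
        rw [h2, mul_assoc]
        exact Dvd.dvd.mul_left (Dvd.dvd.mul_right (dvd_pow_self q (by omega)) _) _
      rcases (Nat.Prime.dvd_mul hqp).1 h3 with h4 | h4
      · exact hqm (h4.trans hPRm)
      · exact hq2' h4
  have hid2 : 2 ^ A f * S = PR f * 2 ^ a := by
    rw [hB] at hid
    have h1 : q ^ (k + 1) * (2 ^ A f * S) = q ^ (k + 1) * (PR f * 2 ^ a) := by
      calc q ^ (k + 1) * (2 ^ A f * S) = 2 ^ A f * q ^ (k + 1) * S := by ring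
        _ = _ := hid
        _ = _ := by ring
    exact Nat.eq_of_mul_eq_mul_left (pow_pos hqp.pos _) h1
  have hPRodd : Odd (PR f) := Odd.of_dvd_nat hmo hPRm
  have hAa : A f ≤ a := by
    have h1 : 2 ^ A f ∣ PR f * 2 ^ a := ⟨S, hid2.symm⟩
    have h2 : Nat.Coprime (2 ^ A f) (PR f) := Nat.Coprime.pow_left _ (Nat.coprime_two_left.2 hPRodd)
    exact (Nat.pow_dvd_pow_iff_le_right (by norm_num)).1 (h2.dvd_of_dvd_mul_left h1)
  obtain ⟨s, hs⟩ : ∃ s, s + A f = a := ⟨a - A f, by omega⟩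
  have hSs : S = 2 ^ s * PR f := by
    have h1 : 2 ^ A f * S = 2 ^ A f * (2 ^ s * PR f) := by
      rw [hid2, ← hs, pow_add]; ring
    exact Nat.eq_of_mul_eq_mul_left (by positivity) h1
  -- (10) mod 3
  have hq5 : 5 ≤ q := by omega
  have hq3 : q % 3 ≠ 0 := by
    intro h
    have h1 : 3 ∣ q := Nat.dvd_of_mod_eq_zero h
    have := (Nat.prime_dvd_prime_iff_eq Nat.prime_three hqp).1 h1
    omega
  have h3F : 3 ∉ F := fun h => hMers 3 h 2 (by norm_num)
  have h3m : ¬ 3 ∣ m := fun h => h3F (Nat.mem_primeFactors.2 ⟨Nat.prime_three, h, hm0⟩)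
  have hmod3 : ∀ x ∈ F, x % 3 = 1 := by
    intro x hx
    have h1 : x % 3 ≠ 0 := by
      intro h
      have h2 : 3 ∣ x := Nat.dvd_of_mod_eq_zero h
      exact h3m (h2.trans (hFd x hx))
    have h2 : x % 3 ≠ 2 := by
      intro h
      have h3 : 3 ∣ x + 1 := by omega
      have h4 := h3.trans (hdvd1 x hx)
      rcases (Nat.Prime.dvd_mul Nat.prime_three).1 h4 with h5 | h5
      · exact h3m h5
      · rcases (Nat.Prime.dvd_mul Nat.prime_three).1 h5 with h6 | h6
        · have := (Nat.prime_dvd_prime_iff_eq Nat.prime_three Nat.prime_two).1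
            (Nat.prime_three.dvd_of_dvd_pow h6)
          omega
        · have := Nat.prime_three.dvd_of_dvd_pow h6
          omega
    omega
  refine no_forest f a k q s hv ha hk hq1 hqo hs hB ?_ ?_ hq3 ?_
  · have h1 : 2 ≤ 2 ^ a := by omega
    have h2 : 1 ≤ 2 ^ (a + 1) := Nat.one_le_two_pow
    have h3 : (S : ℤ) = 2 ^ s * (PR f : ℤ) := by exact_mod_cast hSs
    rw [← h3, hSdef]
    push_cast [h1, h2]
    ring
  · intro p hp
    rw [hnl] at hp
    exact hmod3 p hp
  · rw [hnl]; exact F.nodup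

end Pool.MP_f7abb8_nt.NU
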